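import Mathlib

/-! Random sets of vectors in a symplectic space over `F_2`. -/

set_option autoImplicit false
open Finset Module

namespace Pool.Agent.X46.Rk

/-- the symplectic space of dimension `2 m` -/
abbrev Vs (m : ℕ) : Type := (Fin m → ZMod 2) × (Fin m → ZMod 2)

/-- the symplectic form -/
noncomputable def Bf (m : ℕ) : LinearMap.BilinForm (ZMod 2) (Vs m) :=
  LinearMap.mk₂ (ZMod 2) (fun x y => ∑ i, (x.1 i * y.2 i + x.2 i * y.1 i))
    (by intro x x' y; simp only [Prod.fst_add, Prod.snd_add, Pi.add_apply, ← sum_add_distrib]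
        exact sum_congr rfl fun i _ => by ring)
    (by intro c x y; simp only [Prod.smul_fst, Prod.smul_snd, Pi.smul_apply, smul_eq_mul, mul_sum]
        exact sum_congr rfl fun i _ => by ring)
    (by intro x y y'; simp only [Prod.fst_add, Prod.snd_add, Pi.add_apply, ← sum_add_distrib]
        exact sum_congr rfl fun i _ => by ring)
    (by intro c x y; simp only [Prod.smul_fst, Prod.smul_snd, Pi.smul_apply, smul_eq_mul, mul_sum]
        exact sum_congr rfl fun i _ => by ring)

theorem Bf_apply (m : ℕ) (x y : Vs m) : Bf m x y = ∑ i, (x.1 i * y.2 i + x.2 i * y.1 i) := rfl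

theorem Bf_symm (m : ℕ) (x y : Vs m) : Bf m x y = Bf m y x := by
  rw [Bf_apply, Bf_apply]
  exact sum_congr rfl fun i _ => by ring

theorem Bf_self (m : ℕ) (x : Vs m) : Bf m x x = 0 := by
  rw [Bf_apply]
  apply sum_eq_zero
  intro i _
  rw [mul_comm (x.2 i)]
  exact CharTwo.add_self_eq_zero _

theorem Bf_nondeg (m : ℕ) : (Bf m).Nondegenerate := by
  have key : ∀ x : Vs m, (∀ y, Bf m x y = 0) → x = 0 := by
    intro x hx
    ext i
    · have := hx (0, Pi.single i 1)
      rw [Bf_apply] at this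
      simp only [Pi.zero_apply, mul_zero, add_zero] at this
      rw [Finset.sum_eq_single i] at this
      · simpa using this
      · intro b _ hb; simp [hb]
      · intro h; exact absurd (mem_univ _) h
    · have := hx (Pi.single i 1, 0)
      rw [Bf_apply] at this
      simp only [Pi.zero_apply, mul_zero, zero_add] at this
      rw [Finset.sum_eq_single i] at this
      · simpa using this
      · intro b _ hb; simp [hb]
      · intro h; exact absurd (mem_univ _) h
  constructor
  · intro x hx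
    exact key x hx
  · intro x hx
    exact key x fun y => by rw [Bf_symm]; exact hx y

theorem finrank_Vs (m : ℕ) : finrank (ZMod 2) (Vs m) = 2 * m := by
  rw [Module.finrank_prod, Module.finrank_fin_fun]
  ring

theorem finrank_orth (m : ℕ) (U : Submodule (ZMod 2) (Vs m)) :
    finrank (ZMod 2) ((Bf m).orthogonal U) = 2 * m - finrank (ZMod 2) U := by
  rw [LinearMap.BilinForm.finrank_orthogonal (Bf_nondeg m), finrank_Vs]

theorem finrank_iso (m : ℕ) (U : Submodule (ZMod 2) (Vs m)) (hU : U ≤ (Bf m).orthogonal U) :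
    finrank (ZMod 2) U ≤ m := by
  have h1 := Submodule.finrank_mono hU
  rw [finrank_orth] at h1
  have h2 := Submodule.finrank_le U
  rw [finrank_Vs] at h2
  omega

open scoped Classical in
theorem card_sub (m : ℕ) (U : Submodule (ZMod 2) (Vs m)) :
    (univ.filter fun x : Vs m => x ∈ U).card = 2 ^ finrank (ZMod 2) U := by
  have h := Module.card_eq_pow_finrank (K := ZMod 2) (V := U)
  rw [ZMod.card] at h
  rw [← h, Fintype.card_subtype]

/-- the number of maximal isotropic subspaces -/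
def Lg (t : ℕ) : ℕ := ∏ i ∈ range t, (2 ^ (i + 1) + 1)

theorem Lg_pos (t : ℕ) : 1 ≤ Lg t := by
  unfold Lg
  exact Nat.one_le_iff_ne_zero.2 (prod_ne_zero_iff.2 fun i _ => by positivity)

theorem Lg_succ (t : ℕ) : Lg (t + 1) = Lg t * (2 ^ (t + 1) + 1) := by
  unfold Lg
  rw [prod_range_succ]

theorem iso_sup (m : ℕ) (U : Submodule (ZMod 2) (Vs m)) (hU : U ≤ (Bf m).orthogonal U) (b : Vs m)
    (hb : b ∈ (Bf m).orthogonal U) :
    U ⊔ Submodule.span (ZMod 2) {b} ≤ (Bf m).orthogonal (U ⊔ Submodule.span (ZMod 2) {b}) := by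
  intro x hx
  rw [LinearMap.BilinForm.mem_orthogonal_iff]
  intro y hy
  obtain ⟨x1, hx1, x2, hx2, rfl⟩ := Submodule.mem_sup.1 hx
  obtain ⟨y1, hy1, y2, hy2, rfl⟩ := Submodule.mem_sup.1 hy
  obtain ⟨c, rfl⟩ := Submodule.mem_span_singleton.1 hx2
  obtain ⟨d, rfl⟩ := Submodule.mem_span_singleton.1 hy2
  have h1 : Bf m y1 x1 = 0 := LinearMap.BilinForm.mem_orthogonal_iff.1 (hU hx1) y1 hy1
  have h2 : Bf m y1 b = 0 := LinearMap.BilinForm.mem_orthogonal_iff.1 hb y1 hy1
  have h3 : Bf m b x1 = 0 := by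
    rw [Bf_symm]; exact LinearMap.BilinForm.mem_orthogonal_iff.1 hb x1 hx1
  change Bf m (y1 + d • b) (x1 + c • b) = 0
  simp only [map_add, map_smul, LinearMap.add_apply, LinearMap.smul_apply, h1, h2, h3, Bf_self,
    smul_zero, add_zero]

theorem finrank_sup (m : ℕ) (U : Submodule (ZMod 2) (Vs m)) (b : Vs m) (hb : b ∉ U) :
    finrank (ZMod 2) (U ⊔ Submodule.span (ZMod 2) {b} : Submodule (ZMod 2) (Vs m)) =
      finrank (ZMod 2) U + 1 := by
  have h := Submodule.finrank_sup_add_finrank_inf_eq U (Submodule.span (ZMod 2) {b})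
  have hb0 : b ≠ 0 := fun h => hb (h ▸ U.zero_mem)
  rw [finrank_span_singleton hb0] at h
  have h2 : U ⊓ Submodule.span (ZMod 2) {b} = ⊥ := by
    rw [Submodule.eq_bot_iff]
    intro x hx
    obtain ⟨c, rfl⟩ := Submodule.mem_span_singleton.1 hx.2
    by_cases hc : c = 0
    · rw [hc, zero_smul]
    · exfalso
      apply hb
      have h3 : c⁻¹ • c • b ∈ U := U.smul_mem _ hx.1
      rwa [inv_smul_smul₀ hc] at h3
  rw [h2, finrank_bot] at h
  omega

open scoped Classical in
/-- the number of tuples of pairwise orthogonal vectors orthogonal to an isotropic subspace -/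
theorem count (m : ℕ) : ∀ (j : ℕ) (U : Submodule (ZMod 2) (Vs m)), U ≤ (Bf m).orthogonal U →
    (univ.filter fun y : Fin j → Vs m => (∀ i, y i ∈ (Bf m).orthogonal U) ∧
      ∀ i i', Bf m (y i) (y i') = 0).card ≤ Lg (m - finrank (ZMod 2) U) * 2 ^ (m * j) := by
  intro j
  induction j with
  | zero =>
    intro U _
    calc _ ≤ (univ : Finset (Fin 0 → Vs m)).card := card_le_card (filter_subset _ _)
      _ = 1 := by simp
      _ ≤ _ := by
        have := Lg_pos (m - finrank (ZMod 2) U)
        simpa using this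
  | succ j IH =>
    intro U hU
    have hmaps : ∀ y ∈ (univ.filter fun y : Fin (j + 1) → Vs m =>
        (∀ i, y i ∈ (Bf m).orthogonal U) ∧ ∀ i i', Bf m (y i) (y i') = 0),
        y 0 ∈ (univ.filter fun x : Vs m => x ∈ (Bf m).orthogonal U) := by
      intro y hy
      rw [mem_filter] at hy ⊢
      exact ⟨mem_univ _, hy.2.1 0⟩
    rw [card_eq_sum_card_fiberwise hmaps]
    have hfib : ∀ b ∈ (univ.filter fun x : Vs m => x ∈ (Bf m).orthogonal U),
        ((univ.filter fun y : Fin (j + 1) → Vs m => (∀ i, y i ∈ (Bf m).orthogonal U) ∧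
          ∀ i i', Bf m (y i) (y i') = 0).filter fun y => y 0 = b).card ≤
        (if b ∈ U then Lg (m - finrank (ZMod 2) U) else Lg (m - (finrank (ZMod 2) U + 1))) *
          2 ^ (m * j) := by
      intro b hb
      rw [mem_filter] at hb
      have h1 := IH (U ⊔ Submodule.span (ZMod 2) {b}) (iso_sup m U hU b hb.2)
      have h2 : (if b ∈ U then Lg (m - finrank (ZMod 2) U)
          else Lg (m - (finrank (ZMod 2) U + 1))) =
          Lg (m - finrank (ZMod 2)
            (U ⊔ Submodule.span (ZMod 2) {b} : Submodule (ZMod 2) (Vs m))) := by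
        split_ifs with hbU
        · rw [sup_eq_left.2]
          rw [Submodule.span_le]
          simpa using hbU
        · rw [finrank_sup m U b hbU]
      rw [h2]
      refine le_trans ?_ h1
      refine card_le_card_of_injOn (fun y => Fin.tail y) ?_ ?_
      · intro y hy
        simp only [coe_filter, mem_filter, mem_univ, true_and, Set.mem_ofPred_eq] at hy ⊢
        obtain ⟨⟨hy1, hy2⟩, hy0⟩ := hy
        refine ⟨fun i => ?_, fun i i' => hy2 _ _⟩
        rw [LinearMap.BilinForm.mem_orthogonal_iff]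
        intro x hx
        obtain ⟨x1, hx1, x2, hx2, rfl⟩ := Submodule.mem_sup.1 hx
        obtain ⟨c, rfl⟩ := Submodule.mem_span_singleton.1 hx2
        have h3 : Bf m x1 (y i.succ) = 0 :=
          LinearMap.BilinForm.mem_orthogonal_iff.1 (hy1 i.succ) x1 hx1
        have h4 : Bf m b (y i.succ) = 0 := by rw [← hy0]; exact hy2 _ _
        change Bf m (x1 + c • b) (y i.succ) = 0
        simp only [map_add, map_smul, LinearMap.add_apply, LinearMap.smul_apply, h3, h4,
          smul_zero, add_zero]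
      · intro y hy y' hy' heq
        simp only [coe_filter, mem_filter, mem_univ, true_and, Set.mem_ofPred_eq] at hy hy'
        rw [← Fin.cons_self_tail y, ← Fin.cons_self_tail y', hy.2, hy'.2]
        exact congrArg _ heq
    refine (sum_le_sum hfib).trans ?_
    rw [← sum_mul]
    rw [sum_ite, sum_const, sum_const, smul_eq_mul, smul_eq_mul, filter_filter, filter_filter]
    set d := finrank (ZMod 2) U with hd
    have hdm : d ≤ m := finrank_iso m U hU
    have c1 : (univ.filter fun x : Vs m => x ∈ (Bf m).orthogonal U ∧ x ∈ U).card = 2 ^ d := by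
      rw [← card_sub m U]
      congr 1
      ext x
      simp only [mem_filter, mem_univ, true_and]
      exact ⟨fun h => h.2, fun h => ⟨hU h, h⟩⟩
    have c2 : (univ.filter fun x : Vs m => x ∈ (Bf m).orthogonal U ∧ x ∉ U).card + 2 ^ d =
        2 ^ (2 * m - d) := by
      have h3 := Finset.card_filter_add_card_filter_not
        (s := univ.filter fun x : Vs m => x ∈ (Bf m).orthogonal U) (fun x => x ∈ U)
      rw [filter_filter, filter_filter, c1, card_sub, finrank_orth, ← hd] at h3
      omega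
    rw [c1]
    obtain ⟨t, ht⟩ : ∃ t, m = d + t := ⟨m - d, by omega⟩
    have e0 : m - d = t := by omega
    rw [e0]
    have e1 : 2 * m - d = d + 2 * t := by omega
    rw [e1] at c2
    have e2 : 2 ^ (m * (j + 1)) = 2 ^ m * 2 ^ (m * j) := by rw [← pow_add]; congr 1; ring
    rw [e2, ← mul_assoc]
    apply Nat.mul_le_mul_right
    rcases Nat.eq_zero_or_pos t with ht0 | ht0
    · have h5 : (univ.filter fun x : Vs m => x ∈ (Bf m).orthogonal U ∧ x ∉ U).card = 0 := by
        rw [ht0] at c2
        simpa using c2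
      rw [h5, zero_mul, add_zero, ht0, mul_comm]
      apply Nat.mul_le_mul_left
      rw [ht, ht0, add_zero]
    · obtain ⟨s, rfl⟩ : ∃ s, t = s + 1 := ⟨t - 1, by omega⟩
      have e3 : m - (d + 1) = s := by omega
      rw [e3, Lg_succ]
      have e4 : 2 ^ m = 2 ^ d * 2 ^ (s + 1) := by rw [ht, pow_add]
      have e5 : 2 ^ (d + 2 * (s + 1)) = 2 ^ d * 2 ^ (s + 1) * 2 ^ (s + 1) := by
        rw [← pow_add, ← pow_add]; congr 1; ring
      rw [e5] at c2
      rw [e4]
      set p := 2 ^ (s + 1)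
      set D := 2 ^ d
      set c := (univ.filter fun x : Vs m => x ∈ (Bf m).orthogonal U ∧ x ∉ U).card
      have h6 : D * (Lg s * (p + 1)) + c * Lg s = (D * (p + 1) + c) * Lg s := by ring
      have h7 : Lg s * (p + 1) * (D * p) = (D * p * p + D * p) * Lg s := by ring
      rw [h6, h7]
      apply Nat.mul_le_mul_right
      nlinarith

open scoped Classical in
theorem count0 (m k : ℕ) : (univ.filter fun y : Fin k → Vs m =>
    ∀ i i', Bf m (y i) (y i') = 0).card ≤ Lg m * 2 ^ (m * k) := by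
  have h := count m k ⊥ bot_le
  rw [finrank_bot, Nat.sub_zero] at h
  refine le_trans (card_le_card ?_) h
  intro y hy
  rw [mem_filter] at hy ⊢
  refine ⟨mem_univ _, fun i => ?_, hy.2⟩
  rw [LinearMap.BilinForm.orthogonal_bot]
  trivial

theorem card_Vs (m : ℕ) : Fintype.card (Vs m) = 2 ^ (2 * m) := by
  rw [Fintype.card_prod, Fintype.card_fun, ZMod.card, Fintype.card_fin]
  ring

open scoped Classical in
theorem card_bad (n k m : ℕ) (S : Finset (Fin n)) (hS : S.card = k) :
    (univ.filter fun x : Fin n → Vs m => ∀ i ∈ S, ∀ j ∈ S, Bf m (x i) (x j) = 0).card ≤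
      Lg m * 2 ^ (m * k) * 2 ^ (2 * m * (n - k)) := by
  let e : Fin k ≃ S := (S.equivFinOfCardEq hS).symm
  have h2 : Fintype.card {i : Fin n // i ∉ S} = n - k := by
    rw [Fintype.card_subtype_compl, Fintype.card_fin, Fintype.card_coe, hS]
  have h1 : ((univ.filter fun y : Fin k → Vs m => ∀ i i', Bf m (y i) (y i') = 0) ×ˢ
      (univ : Finset ({i : Fin n // i ∉ S} → Vs m))).card ≤
      Lg m * 2 ^ (m * k) * 2 ^ (2 * m * (n - k)) := by
    rw [card_product]
    refine Nat.mul_le_mul (count0 m k) ?_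
    rw [card_univ, Fintype.card_fun, card_Vs, h2, ← pow_mul]
  refine le_trans ?_ h1
  refine card_le_card_of_injOn
    (fun x => (fun a => x (e a).1, fun i : {i : Fin n // i ∉ S} => x i.1)) ?_ ?_
  · intro x hx
    simp only [coe_filter, mem_univ, true_and, Set.mem_ofPred_eq] at hx
    simp only [coe_product, coe_filter, mem_univ, true_and, coe_univ, Set.mem_prod,
      Set.mem_ofPred_eq, Set.mem_univ, and_true]
    intro i i'
    exact hx _ (e i).2 _ (e i').2
  · intro x _ y _ hxy
    funext i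
    by_cases hi : i ∈ S
    · have h3 := congrFun (Prod.ext_iff.1 hxy).1 (e.symm ⟨i, hi⟩)
      simpa using h3
    · exact congrFun (Prod.ext_iff.1 hxy).2 ⟨i, hi⟩

open scoped Classical in
theorem exists_x (n k m : ℕ) (h : n.choose k * Lg m < 2 ^ (m * k)) : ∃ x : Fin n → Vs m,
    ∀ S : Finset (Fin n), S.card = k → ¬ ∀ i ∈ S, ∀ j ∈ S, Bf m (x i) (x j) = 0 := by
  by_contra hcon
  push Not at hcon
  have hkn : k ≤ n := by
    obtain ⟨S, hS, -⟩ := hcon (fun _ => 0)
    rw [← hS]
    exact (card_le_univ S).trans (by rw [Fintype.card_fin])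
  have h1 : (univ : Finset (Fin n → Vs m)) ⊆ ((univ : Finset (Fin n)).powersetCard k).biUnion
      fun S => univ.filter fun x : Fin n → Vs m => ∀ i ∈ S, ∀ j ∈ S, Bf m (x i) (x j) = 0 := by
    intro x _
    obtain ⟨S, hS, hx⟩ := hcon x
    rw [mem_biUnion]
    exact ⟨S, mem_powersetCard.2 ⟨subset_univ _, hS⟩, mem_filter.2 ⟨mem_univ _, hx⟩⟩
  have h2 := (card_le_card h1).trans card_biUnion_le
  have h3 := h2.trans (sum_le_sum fun S hS => card_bad n k m S (mem_powersetCard.1 hS).2)
  rw [sum_const, card_powersetCard, card_univ, Fintype.card_fun, card_Vs, card_univ,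
    Fintype.card_fin, smul_eq_mul] at h3
  have e1 : (2 ^ (2 * m)) ^ n = 2 ^ (m * k) * (2 ^ (m * k) * 2 ^ (2 * m * (n - k))) := by
    rw [← pow_mul, ← pow_add, ← pow_add]
    congr 1
    obtain ⟨t, rfl⟩ : ∃ t, n = k + t := ⟨n - k, by omega⟩
    rw [Nat.add_sub_cancel_left]
    ring
  have e2 : n.choose k * (Lg m * 2 ^ (m * k) * 2 ^ (2 * m * (n - k))) =
      (n.choose k * Lg m) * (2 ^ (m * k) * 2 ^ (2 * m * (n - k))) := by ring
  rw [e1, e2] at h3
  have h4 : 0 < 2 ^ (m * k) * 2 ^ (2 * m * (n - k)) := by positivity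
  exact absurd h3 (not_le.2 (Nat.mul_lt_mul_of_pos_right h h4))

/-- the graph of a family of vectors -/
noncomputable def Gx {m n : ℕ} (x : Fin n → Vs m) : SimpleGraph (Fin n) where
  Adj i j := Bf m (x i) (x j) = 1
  symm := ⟨fun i j h => by rw [Bf_symm]; exact h⟩
  loopless := ⟨fun i h => by rw [Bf_self] at h; exact zero_ne_one h⟩

theorem zmod_ne {a : ZMod 2} (h : ¬ a = 1) : a = 0 := by
  revert h
  revert a
  decide

theorem rank_Gx {m n : ℕ} (x : Fin n → Vs m) [DecidableRel (Gx x).Adj] :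
    ((Gx x).adjMatrix (ZMod 2)).rank ≤ 2 * m := by
  rw [Matrix.rank_eq_finrank_span_cols]
  let T : Vs m →ₗ[ZMod 2] (Fin n → ZMod 2) := LinearMap.pi fun i => Bf m (x i)
  have h1 : Submodule.span (ZMod 2) (Set.range ((Gx x).adjMatrix (ZMod 2)).col) ≤
      LinearMap.range T := by
    rw [Submodule.span_le]
    rintro _ ⟨j, rfl⟩
    refine ⟨x j, ?_⟩
    funext i
    change Bf m (x i) (x j) = (Gx x).adjMatrix (ZMod 2) i j
    rw [SimpleGraph.adjMatrix_apply]
    split_ifs with h
    · exact h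
    · exact zmod_ne h
  refine (Submodule.finrank_mono h1).trans ?_
  refine (LinearMap.finrank_range_le T).trans ?_
  rw [finrank_Vs]

theorem clique_Gx {m n : ℕ} (x : Fin n → Vs m) : (Gx x).CliqueFree (2 * m + 2) := by
  classical
  intro S hS
  rw [SimpleGraph.isNClique_iff] at hS
  obtain ⟨hS, hc⟩ := hS
  obtain ⟨i0, hi0⟩ : S.Nonempty := by rw [← card_pos]; omega
  have hadj : ∀ i ∈ S, ∀ j ∈ S, i ≠ j → Bf m (x i) (x j) = 1 := fun i hi j hj hij =>
    hS (mem_coe.2 hi) (mem_coe.2 hj) hij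
  have hli : LinearIndependent (ZMod 2) (fun i : {i // i ∈ S.erase i0} => x i.1) := by
    rw [Fintype.linearIndependent_iff]
    intro g hg
    have h1 : ∑ i, g i = 0 := by
      have h2 := congrArg (Bf m (x i0)) hg
      rw [map_sum, map_zero] at h2
      rw [← h2]
      refine sum_congr rfl fun i _ => ?_
      have hi := mem_erase.1 i.2
      rw [map_smul, hadj i0 hi0 i.1 hi.2 (fun h => hi.1 h.symm), smul_eq_mul, mul_one]
    intro j
    have hj := mem_erase.1 j.2
    have h2 := congrArg (Bf m (x j.1)) hg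
    rw [map_sum, map_zero] at h2
    have h3 : ∑ i, (Bf m (x j.1)) (g i • x i.1) = ∑ i, g i - g j := by
      rw [← Finset.add_sum_erase _ _ (mem_univ j), ← Finset.add_sum_erase univ g (mem_univ j)]
      rw [map_smul, Bf_self, smul_zero, zero_add, add_sub_cancel_left]
      refine sum_congr rfl fun i hi => ?_
      have hne : i ≠ j := (mem_erase.1 hi).1
      have hi' := mem_erase.1 i.2
      rw [map_smul, hadj j.1 hj.2 i.1 hi'.2 (fun h => hne (Subtype.ext h.symm)), smul_eq_mul,
        mul_one]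
    rw [h3, h1, zero_sub, neg_eq_zero] at h2
    exact h2
  have h5 := hli.fintype_card_le_finrank
  rw [finrank_Vs, Fintype.card_coe, card_erase_of_mem hi0] at h5
  omega

/-- pairwise orthogonal distinct vectors -/
theorem card_iso (m : ℕ) (T : Finset (Vs m)) (hT : ∀ x ∈ T, ∀ y ∈ T, Bf m x y = 0) :
    T.card ≤ 2 ^ m := by
  classical
  let U : Submodule (ZMod 2) (Vs m) := Submodule.span (ZMod 2) (T : Set (Vs m))
  have hU : U ≤ (Bf m).orthogonal U := by
    rw [Submodule.span_le]
    intro x hx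
    rw [SetLike.mem_coe, LinearMap.BilinForm.mem_orthogonal_iff]
    intro y hy
    change Bf m y x = 0
    have h1 : U ≤ LinearMap.ker ((Bf m).flip x) := by
      rw [Submodule.span_le]
      intro z hz
      exact hT z hz x hx
    exact h1 hy
  have h1 := finrank_iso m U hU
  have h2 : T ⊆ univ.filter fun x : Vs m => x ∈ U := by
    intro x hx
    rw [mem_filter]
    exact ⟨mem_univ _, Submodule.subset_span hx⟩
  calc T.card ≤ _ := card_le_card h2
    _ = 2 ^ finrank (ZMod 2) U := card_sub m U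
    _ ≤ 2 ^ m := Nat.pow_le_pow_right (by norm_num) h1

theorem tight (m t : ℕ) : ∃ G : SimpleGraph (Fin (t * (2 ^ m - 1) * (2 ^ m + 1))),
    (∀ [DecidableRel G.Adj], (G.adjMatrix (ZMod 2)).rank ≤ 2 * m) ∧
    Gᶜ.CliqueFree (t * (2 ^ m - 1) + 1) ∧ G.CliqueFree (2 * m + 2) := by
  classical
  have hcard : Fintype.card (Fin t × {v : Vs m // v ≠ 0}) = t * (2 ^ m - 1) * (2 ^ m + 1) := by
    rw [Fintype.card_prod, Fintype.card_fin, Fintype.card_subtype_compl, card_Vs]
    have h1 : Fintype.card {v : Vs m // v = 0} = 1 := Fintype.card_unique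
    rw [h1, mul_assoc]
    congr 1
    obtain ⟨s, hs⟩ : ∃ s, 2 ^ m = s + 1 := ⟨2 ^ m - 1, by have := Nat.one_le_two_pow (n := m); omega⟩
    have h2 : 2 ^ (2 * m) = (s + 1) * (s + 1) := by rw [two_mul, pow_add, hs]
    rw [h2, hs, Nat.add_sub_cancel]
    have : (s + 1) * (s + 1) = s * (s + 1 + 1) + 1 := by ring
    omega
  let e : Fin (t * (2 ^ m - 1) * (2 ^ m + 1)) ≃ Fin t × {v : Vs m // v ≠ 0} :=
    (Fintype.equivFinOfCardEq hcard).symm
  let x : Fin (t * (2 ^ m - 1) * (2 ^ m + 1)) → Vs m := fun i => (e i).2.1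
  refine ⟨Gx x, rank_Gx x, ?_, clique_Gx x⟩
  intro S hS
  rw [SimpleGraph.isNClique_iff] at hS
  obtain ⟨hS, hc⟩ := hS
  have horth : ∀ i ∈ S, ∀ j ∈ S, Bf m (x i) (x j) = 0 := by
    intro i hi j hj
    by_cases hij : i = j
    · rw [hij, Bf_self]
    · have h1 := hS (mem_coe.2 hi) (mem_coe.2 hj) hij
      rw [SimpleGraph.compl_adj] at h1
      exact zmod_ne h1.2
  let T : Finset (Vs m) := S.image x
  have hT : (insert 0 T).card ≤ 2 ^ m := by
    apply card_iso
    intro a ha b hb
    rw [mem_insert] at ha hb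
    rcases ha with rfl | ha
    · simp
    rcases hb with rfl | hb
    · simp
    obtain ⟨i, hi, rfl⟩ := mem_image.1 ha
    obtain ⟨j, hj, rfl⟩ := mem_image.1 hb
    exact horth i hi j hj
  rw [card_insert_of_notMem (by
    intro h0
    obtain ⟨i, -, hi⟩ := mem_image.1 h0
    exact (e i).2.2 hi)] at hT
  have h2 : S.card ≤ t * T.card := by
    refine card_le_mul_card_image S t ?_
    intro a _
    refine le_trans (card_le_card_of_injOn (t := (univ : Finset (Fin t)))
      (fun i => (e i).1) (fun _ _ => mem_univ _) ?_) (by rw [card_univ, Fintype.card_fin])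
    intro i hi j hj hij
    simp only [coe_filter, Set.mem_ofPred_eq] at hi hj
    apply e.injective
    refine Prod.ext hij (Subtype.ext ?_)
    exact hi.2.trans hj.2.symm
  have h3 : T.card ≤ 2 ^ m - 1 := by omega
  have h4 := h2.trans (Nat.mul_le_mul_left t h3)
  omega

theorem Lg_le (m : ℕ) : Lg m ^ 2 ≤ 2 ^ (m * (m + 3)) := by
  induction m with
  | zero => simp [Lg]
  | succ m IH =>
    rw [Lg_succ, mul_pow]
    have h1 : (2 ^ (m + 1) + 1) ^ 2 ≤ (2 ^ (m + 2)) ^ 2 := by
      apply Nat.pow_le_pow_left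
      have : 2 ^ (m + 2) = 2 ^ (m + 1) + 2 ^ (m + 1) := by ring
      have h2 := Nat.one_le_two_pow (n := m + 1)
      omega
    calc Lg m ^ 2 * (2 ^ (m + 1) + 1) ^ 2 ≤ 2 ^ (m * (m + 3)) * (2 ^ (m + 2)) ^ 2 :=
          Nat.mul_le_mul IH h1
      _ = 2 ^ ((m + 1) * (m + 1 + 3)) := by
        rw [← pow_mul, ← pow_add]
        congr 1
        ring

theorem eight (m : ℕ) : 8 ^ m < (2 * m + 2).factorial ^ 2 := by
  induction m with
  | zero => decide
  | succ m IH =>
    have h1 : (2 * (m + 1) + 2).factorial = (2 * m + 4) * ((2 * m + 3) * (2 * m + 2).factorial) := by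
      have : 2 * (m + 1) + 2 = (2 * m + 3) + 1 := by ring
      rw [this, Nat.factorial_succ, Nat.factorial_succ]
    rw [h1]
    have h2 : 12 * (2 * m + 2).factorial ≤ (2 * m + 4) * ((2 * m + 3) * (2 * m + 2).factorial) := by
      rw [← mul_assoc]
      apply Nat.mul_le_mul_right
      nlinarith
    calc 8 ^ (m + 1) = 8 * 8 ^ m := by ring
      _ < 144 * (2 * m + 2).factorial ^ 2 := by nlinarith
      _ = (12 * (2 * m + 2).factorial) ^ 2 := by ring
      _ ≤ _ := Nat.pow_le_pow_left h2 2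

/-- Random vectors: graphs of small rank without large cliques and independent sets. -/
theorem lower (n k m : ℕ) (hk : 2 * m + 2 ≤ k) (hn : n ^ (2 * k) * 2 ^ (m ^ 2) ≤ 2 ^ (2 * m * k)) :
    ∃ G : SimpleGraph (Fin n), (∀ [DecidableRel G.Adj], (G.adjMatrix (ZMod 2)).rank ≤ 2 * m) ∧
      G.CliqueFree k ∧ Gᶜ.CliqueFree k := by
  have h1 : n.choose k * Lg m < 2 ^ (m * k) := by
    have h2 : k.factorial * n.choose k ≤ n ^ k := by
      rw [← Nat.descFactorial_eq_factorial_mul_choose]
      exact Nat.descFactorial_le_pow n k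
    have h3 : (2 * m + 2).factorial ≤ k.factorial := Nat.factorial_le hk
    have h4 := eight m
    have h5 := Lg_le m
    have h6 : (n.choose k * Lg m) ^ 2 < (2 ^ (m * k)) ^ 2 := by
      have a1 : (k.factorial * n.choose k) ^ 2 * Lg m ^ 2 ≤ (n ^ k) ^ 2 * 2 ^ (m * (m + 3)) :=
        Nat.mul_le_mul (Nat.pow_le_pow_left h2 2) h5
      have a2 : (n ^ k) ^ 2 * 2 ^ (m * (m + 3)) ≤ 2 ^ (2 * m * k) * 8 ^ m := by
        have : (n ^ k) ^ 2 * 2 ^ (m * (m + 3)) = n ^ (2 * k) * 2 ^ (m ^ 2) * 8 ^ m := by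
          have e8 : (8 : ℕ) ^ m = 2 ^ (3 * m) := by rw [pow_mul]; norm_num
          rw [e8, ← pow_mul, mul_assoc (n ^ (2 * k)), ← pow_add]
          congr 2 <;> ring
        rw [this]
        exact Nat.mul_le_mul_right _ hn
      have a3 : 2 ^ (2 * m * k) * 8 ^ m < 2 ^ (2 * m * k) * k.factorial ^ 2 := by
        apply Nat.mul_lt_mul_of_pos_left _ (by positivity)
        exact lt_of_lt_of_le h4 (Nat.pow_le_pow_left h3 2)
      have a4 : k.factorial ^ 2 * (n.choose k * Lg m) ^ 2 < k.factorial ^ 2 * (2 ^ (m * k)) ^ 2 := by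
        calc k.factorial ^ 2 * (n.choose k * Lg m) ^ 2
            = (k.factorial * n.choose k) ^ 2 * Lg m ^ 2 := by ring
          _ < 2 ^ (2 * m * k) * k.factorial ^ 2 := lt_of_le_of_lt (a1.trans a2) a3
          _ = k.factorial ^ 2 * (2 ^ (m * k)) ^ 2 := by
            rw [← pow_mul, mul_comm]
            congr 2
            ring
      exact lt_of_mul_lt_mul_left a4 (Nat.zero_le _)
    exact lt_of_pow_lt_pow_left₀ 2 (Nat.zero_le _) h6
  obtain ⟨x, hx⟩ := exists_x n k m h1
  refine ⟨Gx x, rank_Gx x, (clique_Gx x).mono hk, ?_⟩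
  intro S hS
  rw [SimpleGraph.isNClique_iff] at hS
  obtain ⟨hS, hc⟩ := hS
  apply hx S hc
  intro i hi j hj
  by_cases hij : i = j
  · rw [hij, Bf_self]
  · have h1 := hS (mem_coe.2 hi) (mem_coe.2 hj) hij
    rw [SimpleGraph.compl_adj] at h1
    exact zmod_ne h1.2

end Pool.Agent.X46.Rk
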