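import Mathlib

/-!
# A counting local lemma in product spaces
-/

set_option linter.all false

namespace Pool.Agent.X46.PLLL

open Finset Classical

/-- **The swap identity.** A predicate on the coordinates in `A` (pulled back along `ι`) and a
predicate on the remaining coordinates are independent. -/
theorem swap_count {I W V : Type*} [Fintype I] [Fintype W]
    (N : W → Finset V) (N' : I → Finset V) (ι : I → W) (j : W → I) (A : Finset I)
    (hj : ∀ x ∈ A, j (ι x) = x) (hN : ∀ x ∈ A, N' x = N (ι x))
    (P : (I → V) → Prop) (hP : ∀ χ χ' : I → V, (∀ x ∈ A, χ x = χ' x) → (P χ ↔ P χ'))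
    (Q : (W → V) → Prop)
    (hQ : ∀ χ χ' : W → V, (∀ w, w ∉ A.image ι → χ w = χ' w) → (Q χ ↔ Q χ')) :
    ((Fintype.piFinset N).filter (fun χ => P (χ ∘ ι) ∧ Q χ)).card * (Fintype.piFinset N').card =
      ((Fintype.piFinset N).filter Q).card * ((Fintype.piFinset N').filter P).card := by
  rw [← card_product, ← card_product]
  have him : ∀ w, w ∈ A.image ι → j w ∈ A ∧ ι (j w) = w := by
    intro w hw
    obtain ⟨x, hx, rfl⟩ := mem_image.1 hw
    rw [hj x hx]
    exact ⟨hx, rfl⟩
  let S : (W → V) × (I → V) → (W → V) × (I → V) := fun p =>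
    (fun w => if w ∈ A.image ι then p.2 (j w) else p.1 w,
      fun x => if x ∈ A then p.1 (ι x) else p.2 x)
  have hSS : ∀ p, S (S p) = p := by
    intro p
    refine Prod.ext ?_ ?_
    · funext w
      simp only [S]
      by_cases hw : w ∈ A.image ι
      · rw [if_pos hw, if_pos (him w hw).1, (him w hw).2]
      · rw [if_neg hw, if_neg hw]
    · funext x
      simp only [S]
      by_cases hx : x ∈ A
      · rw [if_pos hx, if_pos (mem_image_of_mem ι hx), hj x hx]
      · rw [if_neg hx, if_neg hx]
  have hSN : ∀ p : (W → V) × (I → V), p.1 ∈ Fintype.piFinset N → p.2 ∈ Fintype.piFinset N' →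
      (S p).1 ∈ Fintype.piFinset N ∧ (S p).2 ∈ Fintype.piFinset N' := by
    intro p h1 h2
    rw [Fintype.mem_piFinset] at h1 h2
    constructor
    · rw [Fintype.mem_piFinset]
      intro w
      simp only [S]
      by_cases hw : w ∈ A.image ι
      · rw [if_pos hw]
        have h3 := h2 (j w)
        rw [hN _ (him w hw).1, (him w hw).2] at h3
        exact h3
      · rw [if_neg hw]; exact h1 w
    · rw [Fintype.mem_piFinset]
      intro x
      simp only [S]
      by_cases hx : x ∈ A
      · rw [if_pos hx, hN x hx]; exact h1 _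
      · rw [if_neg hx]; exact h2 x
  have hQS : ∀ p, Q (S p).1 ↔ Q p.1 := by
    intro p
    apply hQ
    intro w hw
    simp only [S]
    rw [if_neg hw]
  have hPS : ∀ p, P (S p).2 ↔ P (p.1 ∘ ι) := by
    intro p
    apply hP
    intro x hx
    simp only [S]
    rw [if_pos hx]
    rfl
  have hPS' : ∀ p, P ((S p).1 ∘ ι) ↔ P p.2 := by
    intro p
    apply hP
    intro x hx
    simp only [S, Function.comp]
    rw [if_pos (mem_image_of_mem ι hx), hj x hx]
  refine card_nbij' S S ?_ ?_ (fun p _ => hSS p) (fun p _ => hSS p)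
  · intro p hp
    simp only [mem_coe, mem_product, mem_filter] at hp ⊢
    obtain ⟨⟨h1, h2, h3⟩, h4⟩ := hp
    have h5 := hSN p h1 h4
    exact ⟨⟨h5.1, (hQS p).2 h3⟩, h5.2, (hPS p).2 h2⟩
  · intro p hp
    simp only [mem_coe, mem_product, mem_filter] at hp ⊢
    obtain ⟨⟨h1, h2⟩, h3, h4⟩ := hp
    have h5 := hSN p h1 h3
    exact ⟨⟨h5.1, (hPS' p).2 h4, (hQS p).2 h2⟩, h5.2⟩

/-- Two product spaces agreeing on the variables of `P`. -/
theorem swap_count_id {W V : Type*} [Fintype W] (N N' : W → Finset V) (A : Finset W)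
    (hN : ∀ x ∈ A, N' x = N x)
    (P : (W → V) → Prop) (hP : ∀ χ χ' : W → V, (∀ x ∈ A, χ x = χ' x) → (P χ ↔ P χ')) :
    ((Fintype.piFinset N).filter P).card * (Fintype.piFinset N').card =
      (Fintype.piFinset N).card * ((Fintype.piFinset N').filter P).card := by
  have h := swap_count N N' id id A (fun _ _ => rfl) hN P hP (fun _ => True)
    (fun _ _ _ => Iff.rfl)
  simp only [and_true, Function.comp_id, filter_true] at h
  convert h

variable {W V ι : Type*} [Fintype W] [Fintype ι]

/-- The number of assignments violating no constraint inside `S`. -/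
noncomputable def goodCount (N : W → Finset V) (Y : ι → Finset W) (B : ι → (W → V) → Prop)
    (S : Finset W) : ℝ :=
  (((Fintype.piFinset N).filter (fun χ => ∀ c, Y c ⊆ S → ¬ B c χ)).card : ℝ)

theorem goodCount_nonneg (N : W → Finset V) (Y : ι → Finset W) (B : ι → (W → V) → Prop)
    (S : Finset W) : 0 ≤ goodCount N Y B S := by
  unfold goodCount; positivity

/-- The bad event of a constraint is independent of the constraints off its variables. -/
theorem indep (N : W → Finset V) (hN : ∀ w, (N w).Nonempty) (Y : ι → Finset W)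
    (B : ι → (W → V) → Prop)
    (hdep : ∀ c (χ χ' : W → V), (∀ w ∈ Y c, χ w = χ' w) → (B c χ ↔ B c χ'))
    {δ : ℝ} (hbad : ∀ c, (((Fintype.piFinset N).filter (B c)).card : ℝ) ≤
      δ * (Fintype.piFinset N).card) (c : ι) (S : Finset W) :
    (((Fintype.piFinset N).filter
      (fun χ => B c χ ∧ ∀ c', Y c' ⊆ S \ Y c → ¬ B c' χ)).card : ℝ) ≤
      δ * goodCount N Y B (S \ Y c) := by
  have h := swap_count N N id id (Y c) (fun _ _ => rfl) (fun _ _ => rfl) (B c) (hdep c)
    (fun χ => ∀ c', Y c' ⊆ S \ Y c → ¬ B c' χ) (by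
      intro χ χ' hχ
      apply forall_congr'
      intro c'
      apply imp_congr_right
      intro hc'
      apply not_congr
      apply hdep
      intro w hw
      apply hχ
      rw [image_id]
      exact (mem_sdiff.1 (hc' hw)).2)
  have hpos : (0 : ℝ) < ((Fintype.piFinset N).card : ℝ) := by
    have : (Fintype.piFinset N).Nonempty := Fintype.piFinset_nonempty.2 hN
    exact_mod_cast this.card_pos
  have h' : (((Fintype.piFinset N).filter
      (fun χ => B c χ ∧ ∀ c', Y c' ⊆ S \ Y c → ¬ B c' χ)).card : ℝ) *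
        ((Fintype.piFinset N).card : ℝ) =
      goodCount N Y B (S \ Y c) * (((Fintype.piFinset N).filter (B c)).card : ℝ) := by
    unfold goodCount
    rw [← Nat.cast_mul, ← Nat.cast_mul]
    congr 1
    convert h
    rfl
  have h2 := mul_le_mul_of_nonneg_left (hbad c) (goodCount_nonneg N Y B (S \ Y c))
  rw [← h'] at h2
  have h3 : (((Fintype.piFinset N).filter
      (fun χ => B c χ ∧ ∀ c', Y c' ⊆ S \ Y c → ¬ B c' χ)).card : ℝ) *
        ((Fintype.piFinset N).card : ℝ) ≤
      (δ * goodCount N Y B (S \ Y c)) * ((Fintype.piFinset N).card : ℝ) := by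
    linarith
  exact le_of_mul_le_mul_right h3 hpos

/-- Removing the constraints involving a set of variables. -/
theorem goodCount_chain (N : W → Finset V) (Y : ι → Finset W) (B : ι → (W → V) → Prop)
    {γ : ℝ} (hγ : γ ≤ 1 / 2) {n : ℕ}
    (ih : ∀ S : Finset W, S.card < n → ∀ u, (1 - γ) * goodCount N Y B S ≤
      goodCount N Y B (insert u S)) :
    ∀ (D T : Finset W), Disjoint D T → (T ∪ D).card ≤ n →
      goodCount N Y B T ≤ 2 ^ D.card * goodCount N Y B (T ∪ D) := by
  intro D
  induction D using Finset.induction_on with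
  | empty => intro T _ _; simp
  | insert a D ha ihD =>
    intro T hT hcard
    rw [disjoint_insert_left] at hT
    have h1 : (T ∪ D).card < n := by
      have h2 : T ∪ D ⊂ T ∪ insert a D := by
        rw [ssubset_iff_of_subset (union_subset_union_right (subset_insert a D))]
        refine ⟨a, by simp, ?_⟩
        simp only [mem_union, not_or]
        exact ⟨hT.1, ha⟩
      exact lt_of_lt_of_le (card_lt_card h2) hcard
    have h3 := ihD T hT.2 h1.le
    have h4 := ih (T ∪ D) h1 a
    have h5 : insert a (T ∪ D) = T ∪ insert a D := by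
      rw [union_insert]
    rw [h5] at h4
    rw [card_insert_of_notMem ha]
    have h6 := goodCount_nonneg N Y B (T ∪ D)
    have h7 : goodCount N Y B (T ∪ D) ≤ 2 * goodCount N Y B (T ∪ insert a D) := by
      nlinarith
    calc goodCount N Y B T ≤ 2 ^ D.card * goodCount N Y B (T ∪ D) := h3
      _ ≤ 2 ^ D.card * (2 * goodCount N Y B (T ∪ insert a D)) :=
          mul_le_mul_of_nonneg_left h7 (by positivity)
      _ = _ := by ring

theorem goodCount_step (N : W → Finset V) (hN : ∀ w, (N w).Nonempty) (Y : ι → Finset W)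
    (B : ι → (W → V) → Prop)
    (hdep : ∀ c (χ χ' : W → V), (∀ w ∈ Y c, χ w = χ' w) → (B c χ ↔ B c χ'))
    {δ γ : ℝ} {m d : ℕ} (hδ0 : 0 ≤ δ) (hγ : γ ≤ 1 / 2) (hδ : (d : ℝ) * δ * 2 ^ m ≤ γ)
    (hbad : ∀ c, (((Fintype.piFinset N).filter (B c)).card : ℝ) ≤
      δ * (Fintype.piFinset N).card)
    (hY : ∀ c, (Y c).card ≤ m) (hd : ∀ w, (univ.filter (fun c => w ∈ Y c)).card ≤ d) :
    ∀ (n : ℕ) (S : Finset W), S.card = n → ∀ u, (1 - γ) * goodCount N Y B S ≤
      goodCount N Y B (insert u S) := by
  intro n
  induction n using Nat.strong_induction_on with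
  | _ n ih =>
    intro S hS u
    have hγ0 : 0 ≤ γ := le_trans (by positivity) hδ
    have hg := goodCount_nonneg N Y B S
    -- the assignments lost when adding `u`
    set bad : ι → Finset (W → V) := fun c => (Fintype.piFinset N).filter
      (fun χ => B c χ ∧ ∀ c', Y c' ⊆ S \ Y c → ¬ B c' χ) with hbaddef
    have hsub : (Fintype.piFinset N).filter (fun χ => ∀ c, Y c ⊆ S → ¬ B c χ) ⊆
        (Fintype.piFinset N).filter (fun χ => ∀ c, Y c ⊆ insert u S → ¬ B c χ) ∪
          (univ.filter (fun c => u ∈ Y c)).biUnion bad := by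
      intro χ hχ
      rw [mem_filter] at hχ
      by_cases h : ∀ c, Y c ⊆ insert u S → ¬ B c χ
      · exact mem_union_left _ (mem_filter.2 ⟨hχ.1, h⟩)
      · push Not at h
        obtain ⟨c, hc1, hc2⟩ := h
        apply mem_union_right
        rw [mem_biUnion]
        refine ⟨c, ?_, ?_⟩
        · rw [mem_filter]
          refine ⟨mem_univ _, ?_⟩
          by_contra hu
          apply hχ.2 c _ hc2
          intro w hw
          rcases mem_insert.1 (hc1 hw) with h | h
          · subst h; exact absurd hw hu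
          · exact h
        · rw [hbaddef]
          simp only [mem_filter]
          refine ⟨hχ.1, hc2, fun c' hc' => hχ.2 c' (hc'.trans sdiff_subset)⟩
    have h1 : goodCount N Y B S ≤ goodCount N Y B (insert u S) +
        ∑ c ∈ univ.filter (fun c => u ∈ Y c), ((bad c).card : ℝ) := by
      have h2 := card_le_card hsub
      have h3 := card_union_le ((Fintype.piFinset N).filter
        (fun χ => ∀ c, Y c ⊆ insert u S → ¬ B c χ)) ((univ.filter (fun c => u ∈ Y c)).biUnion bad)
      have h4 : ((univ.filter (fun c => u ∈ Y c)).biUnion bad).card ≤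
          ∑ c ∈ univ.filter (fun c => u ∈ Y c), (bad c).card := card_biUnion_le
      have h5 := h2.trans (h3.trans (Nat.add_le_add_left h4 _))
      unfold goodCount
      exact_mod_cast h5
    have h2 : ∀ c ∈ univ.filter (fun c => u ∈ Y c), ((bad c).card : ℝ) ≤
        δ * (2 ^ m * goodCount N Y B S) := by
      intro c hc
      have h3 := indep N hN Y B hdep hbad c S
      refine h3.trans (mul_le_mul_of_nonneg_left ?_ hδ0)
      have h4 := goodCount_chain N Y B hγ (n := n) (fun S' hS' u' => ih _ hS' S' rfl u')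
        (S ∩ Y c) (S \ Y c) (by
          rw [disjoint_left]
          intro w hw hw'
          exact (mem_sdiff.1 hw').2 (mem_inter.1 hw).2) (by
          rw [sdiff_union_inter, hS])
      rw [sdiff_union_inter] at h4
      refine h4.trans (mul_le_mul_of_nonneg_right ?_ hg)
      apply pow_le_pow_right₀ (by norm_num)
      exact (card_le_card inter_subset_right).trans (hY c)
    have h3 : ∑ c ∈ univ.filter (fun c => u ∈ Y c), ((bad c).card : ℝ) ≤
        γ * goodCount N Y B S := by
      calc ∑ c ∈ univ.filter (fun c => u ∈ Y c), ((bad c).card : ℝ)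
          ≤ ∑ _c ∈ univ.filter (fun c => u ∈ Y c), δ * (2 ^ m * goodCount N Y B S) :=
            sum_le_sum h2
        _ = ((univ.filter (fun c => u ∈ Y c)).card : ℝ) * (δ * (2 ^ m * goodCount N Y B S)) := by
            rw [sum_const, nsmul_eq_mul]
        _ ≤ (d : ℝ) * (δ * (2 ^ m * goodCount N Y B S)) := by
            apply mul_le_mul_of_nonneg_right
            · exact_mod_cast hd u
            · positivity
        _ = ((d : ℝ) * δ * 2 ^ m) * goodCount N Y B S := by ring
        _ ≤ γ * goodCount N Y B S := mul_le_mul_of_nonneg_right hδ hg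
    linarith

/-- **The counting local lemma.** -/
theorem lll (N : W → Finset V) (hN : ∀ w, (N w).Nonempty) (Y : ι → Finset W)
    (B : ι → (W → V) → Prop)
    (hdep : ∀ c (χ χ' : W → V), (∀ w ∈ Y c, χ w = χ' w) → (B c χ ↔ B c χ'))
    {δ γ : ℝ} {m d : ℕ} (hδ0 : 0 ≤ δ) (hδ1 : δ < 1) (hγ : γ ≤ 1 / 2)
    (hδ : (d : ℝ) * δ * 2 ^ m ≤ γ)
    (hbad : ∀ c, (((Fintype.piFinset N).filter (B c)).card : ℝ) ≤
      δ * (Fintype.piFinset N).card)
    (hY : ∀ c, (Y c).card ≤ m) (hd : ∀ w, (univ.filter (fun c => w ∈ Y c)).card ≤ d)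
    (U : Finset W) (hU : ∀ c, Y c ⊆ U) :
    (1 - γ) ^ U.card * ((Fintype.piFinset N).card : ℝ) ≤
      (((Fintype.piFinset N).filter (fun χ => ∀ c, ¬ B c χ)).card : ℝ) := by
  have hstep := goodCount_step N hN Y B hdep hδ0 hγ hδ hbad hY hd
  have hpos : (0 : ℝ) < ((Fintype.piFinset N).card : ℝ) := by
    have : (Fintype.piFinset N).Nonempty := Fintype.piFinset_nonempty.2 hN
    exact_mod_cast this.card_pos
  have hbase : goodCount N Y B ∅ = ((Fintype.piFinset N).card : ℝ) := by
    unfold goodCount
    congr 2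
    apply filter_true_of_mem
    intro χ hχ c hc hB
    have hall : (Fintype.piFinset N).filter (B c) = Fintype.piFinset N := by
      apply filter_true_of_mem
      intro χ' _
      refine (hdep c χ χ' ?_).1 hB
      intro w hw
      exact absurd (hc hw) (notMem_empty w)
    have h1 := hbad c
    rw [hall] at h1
    nlinarith
  have hchain : ∀ S : Finset W, (1 - γ) ^ S.card * ((Fintype.piFinset N).card : ℝ) ≤
      goodCount N Y B S := by
    intro S
    induction S using Finset.induction_on with
    | empty => rw [hbase]; simp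
    | insert a S ha ih =>
      have h1 := hstep S.card S rfl a
      rw [card_insert_of_notMem ha, pow_succ]
      have h2 : (0 : ℝ) ≤ 1 - γ := by linarith
      calc (1 - γ) ^ S.card * (1 - γ) * ((Fintype.piFinset N).card : ℝ)
          = (1 - γ) * ((1 - γ) ^ S.card * ((Fintype.piFinset N).card : ℝ)) := by ring
        _ ≤ (1 - γ) * goodCount N Y B S := mul_le_mul_of_nonneg_left ih h2
        _ ≤ _ := h1
  have h1 := hchain U
  refine h1.trans ?_
  unfold goodCount
  have : (Fintype.piFinset N).filter (fun χ => ∀ c, Y c ⊆ U → ¬ B c χ) ⊆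
      (Fintype.piFinset N).filter (fun χ => ∀ c, ¬ B c χ) := by
    intro χ hχ
    rw [mem_filter] at hχ ⊢
    exact ⟨hχ.1, fun c => hχ.2 c (hU c)⟩
  exact_mod_cast card_le_card this

end Pool.Agent.X46.PLLL
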