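import Mathlib
import Pool.Agent.X46.ProdLLL

/-!
# Iterated dependent random choice for bounded degree r-partite r-graphs: tools
-/

set_option linter.all false

namespace Pool.Agent.X46.SidL

open Finset Classical Pool.Agent.X46.PLLL

/-- The density of a predicate on a finite type. -/
noncomputable def pr {Ω : Type*} [Fintype Ω] (P : Ω → Prop) : ℝ :=
  ((univ.filter P).card : ℝ) / (Fintype.card Ω : ℝ)

theorem pr_eq_sum {Ω : Type*} [Fintype Ω] (P : Ω → Prop) :
    pr P = (∑ ω, (if P ω then (1 : ℝ) else 0)) / (Fintype.card Ω : ℝ) := by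
  unfold pr
  rw [card_filter]
  push_cast
  rfl

theorem sum_pr {Z Ω : Type*} [Fintype Z] [Fintype Ω] (P : Z → Ω → Prop) :
    ∑ z, pr (P z) = (∑ ω, ((univ.filter (fun z => P z ω)).card : ℝ)) / (Fintype.card Ω : ℝ) := by
  simp_rw [pr_eq_sum]
  rw [← sum_div, sum_comm]
  congr 1
  apply sum_congr rfl
  intro ω _
  rw [card_filter]
  push_cast
  rfl

theorem pr_nonneg {Ω : Type*} [Fintype Ω] (P : Ω → Prop) : 0 ≤ pr P := by
  unfold pr; positivity

theorem pr_mono {Ω : Type*} [Fintype Ω] {P Q : Ω → Prop} (h : ∀ ω, P ω → Q ω) : pr P ≤ pr Q := by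
  unfold pr
  apply div_le_div_of_nonneg_right _ (by positivity)
  exact_mod_cast card_le_card (monotone_filter_right _ (fun ω _ => h ω))

theorem card_le_pr {Ω : Type*} [Fintype Ω] [Nonempty Ω] (S : Finset Ω) (P : Ω → Prop)
    (h : ∀ ω ∈ S, P ω) : (S.card : ℝ) ≤ pr P * (Fintype.card Ω : ℝ) := by
  unfold pr
  rw [div_mul_cancel₀]
  · have : S ⊆ univ.filter P := fun ω hω => mem_filter.2 ⟨mem_univ _, h ω hω⟩
    exact_mod_cast card_le_card this
  · exact_mod_cast Fintype.card_ne_zero

theorem pr_le_one {Ω : Type*} [Fintype Ω] (P : Ω → Prop) : pr P ≤ 1 := by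
  unfold pr
  apply div_le_one_of_le₀ _ (by positivity)
  exact_mod_cast card_le_univ _

theorem pr_true {Ω : Type*} [Fintype Ω] [Nonempty Ω] {P : Ω → Prop} (h : ∀ ω, P ω) :
    pr P = 1 := by
  unfold pr
  rw [filter_true_of_mem (fun ω _ => h ω), card_univ]
  exact div_self (by exact_mod_cast Fintype.card_ne_zero)

variable {W V : Type} [Fintype W] [Fintype V]

/-- The assignment equal to `χ` on `U` and to `φ` off `U`. -/
noncomputable def mix (U : W → Prop) (φ χ : W → V) : W → V := fun w => if U w then χ w else φ w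

theorem mix_count (U : W → Prop) (Q : (W → V) → Prop) :
    ∑ φ : W → V, (univ.filter (fun χ : W → V => Q (mix U φ χ))).card =
      Fintype.card (W → V) * (univ.filter Q).card := by
  have h1 : ∑ φ : W → V, (univ.filter (fun χ : W → V => Q (mix U φ χ))).card =
      ((univ : Finset ((W → V) × (W → V))).filter (fun p => Q (mix U p.1 p.2))).card := by
    simp_rw [card_filter]
    rw [Fintype.sum_prod_type]
  have h2 : Fintype.card (W → V) * (univ.filter Q).card =
      ((univ : Finset ((W → V) × (W → V))).filter (fun p => Q p.1)).card := by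
    simp_rw [card_filter]
    rw [Fintype.sum_prod_type]
    rw [mul_sum]
    apply sum_congr rfl
    intro a _
    show (Fintype.card (W → V) * if Q a then 1 else 0) = ∑ _y : W → V, if Q a then 1 else 0
    rw [sum_const, smul_eq_mul, card_univ]
  rw [h1, h2]
  have hinv : ∀ p : (W → V) × (W → V),
      (mix U (mix U p.1 p.2) (mix U p.2 p.1), mix U (mix U p.2 p.1) (mix U p.1 p.2)) = p := by
    intro p
    refine Prod.ext ?_ ?_
    · funext w
      simp only [mix]
      by_cases h : U w <;> simp [h]
    · funext w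
      simp only [mix]
      by_cases h : U w <;> simp [h]
  refine card_nbij' (fun p => (mix U p.1 p.2, mix U p.2 p.1))
    (fun p => (mix U p.1 p.2, mix U p.2 p.1)) ?_ ?_ (fun p _ => hinv p) (fun p _ => hinv p)
  · intro p hp
    simp only [mem_coe, mem_filter, mem_univ, true_and] at hp ⊢
    exact hp
  · intro p hp
    simp only [mem_coe, mem_filter, mem_univ, true_and] at hp ⊢
    have h := congrArg Prod.fst (hinv p)
    simp only at h
    rw [h]
    exact hp

/-- If every `φ` with `P φ` has many modifications on `U` with `Q`, then `Q` is dense. -/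
theorem mix_le [Nonempty V] (U : W → Prop) {P Q : (W → V) → Prop} {c : ℝ} (hc : 0 ≤ c)
    (h : ∀ φ, P φ → c ≤ pr (fun χ => Q (mix U φ χ))) : pr P * c ≤ pr Q := by
  have h0 : (0 : ℝ) < (Fintype.card (W → V) : ℝ) := by exact_mod_cast Fintype.card_pos
  have h1 : ∀ φ : W → V, (if P φ then c * (Fintype.card (W → V) : ℝ) else 0) ≤
      ((univ.filter (fun χ : W → V => Q (mix U φ χ))).card : ℝ) := by
    intro φ
    by_cases hP : P φ
    · rw [if_pos hP]
      have := h φ hP
      unfold pr at this
      rwa [le_div_iff₀ h0] at this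
    · rw [if_neg hP]; positivity
  have h2 := sum_le_sum (fun φ (_ : φ ∈ (univ : Finset (W → V))) => h1 φ)
  have h3 := mix_count U Q
  have h4 : ∑ φ : W → V, ((univ.filter (fun χ : W → V => Q (mix U φ χ))).card : ℝ) =
      (Fintype.card (W → V) : ℝ) * ((univ.filter Q).card : ℝ) := by exact_mod_cast h3
  rw [h4, ← sum_filter, sum_const, nsmul_eq_mul] at h2
  unfold pr
  rw [le_div_iff₀ h0, div_mul_eq_mul_div, div_mul_eq_mul_div, div_le_iff₀ h0]
  nlinarith

/-- The density of the pull-back of a predicate along a labelling. -/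
theorem pr_comp [Nonempty V] {I : Type} [Fintype I] (ι : I → W) (j : W → I) (A : Finset I)
    (hj : ∀ x ∈ A, j (ι x) = x) (P : (I → V) → Prop)
    (hP : ∀ χ χ' : I → V, (∀ x ∈ A, χ x = χ' x) → (P χ ↔ P χ')) :
    pr (fun φ : W → V => P (φ ∘ ι)) = pr P := by
  have h := swap_count (fun _ : W => (univ : Finset V)) (fun _ : I => (univ : Finset V)) ι j A hj
    (fun _ _ => rfl) P hP (fun _ => True) (fun _ _ _ => Iff.rfl)
  simp only [Fintype.piFinset_univ, and_true, filter_true, card_univ] at h
  have h' : (univ.filter (fun φ : W → V => P (φ ∘ ι))).card * Fintype.card (I → V) =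
      Fintype.card (W → V) * (univ.filter P).card := by
    convert h using 2
  unfold pr
  have h0 : (0 : ℝ) < (Fintype.card (W → V) : ℝ) := by exact_mod_cast Fintype.card_pos
  have h1 : (0 : ℝ) < (Fintype.card (I → V) : ℝ) := by exact_mod_cast Fintype.card_pos
  rw [div_eq_div_iff h0.ne' h1.ne']
  rw [mul_comm ((univ.filter P).card : ℝ)]
  exact_mod_cast h'

/-- The common neighbourhood of the link tuples. -/
noncomputable def comNbr {k : ℕ} (G : (Fin (k + 1) → V) → Prop) {I : Type} (T : Finset (Fin k → I))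
    (ψ : I → V) : Finset V :=
  univ.filter (fun z => ∀ t ∈ T, G (Fin.cons z (ψ ∘ t)))

theorem card_pow_filter (s : ℕ) (D : V → Prop) :
    (univ.filter (fun z : Fin s → V => ∀ i, D (z i))).card = (univ.filter D).card ^ s := by
  have : (univ.filter (fun z : Fin s → V => ∀ i, D (z i))) =
      Fintype.piFinset (fun _ : Fin s => univ.filter D) := by
    ext z
    simp [Fintype.mem_piFinset]
  rw [this, Fintype.card_piFinset]
  simp

/-- The link tuples are in the common link of `z`, but have few common neighbours. -/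
def BadP {k s : ℕ} (G : (Fin (k + 1) → V) → Prop) (b : ℝ) {I : Type} (T : Finset (Fin k → I))
    (z : Fin s → V) (ψ : I → V) : Prop :=
  (∀ t ∈ T, ∀ i, G (Fin.cons (z i) (ψ ∘ t))) ∧ ((comNbr G T ψ).card : ℝ) < b

/-- The common link of `z`. -/
def LinkP {k s : ℕ} (G : (Fin (k + 1) → V) → Prop) (z : Fin s → V) (x : Fin k → V) : Prop :=
  ∀ i, G (Fin.cons (z i) x)

/-- **Dependent random choice**, one level. -/
theorem choice [Nonempty V] {k : ℕ} (G : (Fin (k + 1) → V) → Prop) {p β : ℝ} (hp : 0 < p)
    (hG : p ≤ pr G) (hβ : 0 < β) (s m : ℕ) (L : ℕ)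
    (hL : L = Fintype.card (Finset (Fin k → Fin m))) :
    ∃ z : Fin s → V, p ^ s / 2 ≤ pr (LinkP G z) ∧
      ∀ T : Finset (Fin k → Fin m),
        pr (BadP G (β * Fintype.card V) T z) ≤ 2 * L * β ^ s / p ^ s := by
  set n : ℝ := (Fintype.card V : ℝ) with hn
  have hn0 : 0 < n := by rw [hn]; exact_mod_cast Fintype.card_pos
  have hL0 : (0 : ℝ) < L := by
    rw [hL]; exact_mod_cast Fintype.card_pos
  set X : (Fin s → V) → ℝ := fun z => pr (LinkP G z) with hX
  set Yt : Finset (Fin k → Fin m) → (Fin s → V) → ℝ := fun T z =>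
    pr (BadP G (β * n) T z) with hYt
  have hcardk : (Fintype.card (Fin k → V) : ℝ) = n ^ k := by
    rw [Fintype.card_fun, Fintype.card_fin]; push_cast; rfl
  have hcardm : (Fintype.card (Fin m → V) : ℝ) = n ^ m := by
    rw [Fintype.card_fun, Fintype.card_fin]; push_cast; rfl
  have hcards : (Fintype.card (Fin s → V) : ℝ) = n ^ s := by
    rw [Fintype.card_fun, Fintype.card_fin]; push_cast; rfl
  -- the sum of X
  have hXsum : n ^ s * p ^ s ≤ ∑ z, X z := by
    set deg : (Fin k → V) → ℝ := fun x => ((univ.filter (fun z => G (Fin.cons z x))).card : ℝ)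
      with hdeg
    have h1 : ∑ z, X z = (∑ x : Fin k → V, deg x ^ s) / n ^ k := by
      simp only [hX]
      rw [sum_pr, hcardk]
      congr 1
      apply sum_congr rfl
      intro x _
      have h3 : (univ.filter (fun z : Fin s → V => LinkP G z x)).card =
          (univ.filter (fun z => G (Fin.cons z x))).card ^ s := by
        have h5 : (univ.filter (fun z : Fin s → V => LinkP G z x)) =
            Fintype.piFinset (fun _ : Fin s => univ.filter (fun z => G (Fin.cons z x))) := by
          ext z
          simp only [mem_filter, mem_univ, true_and, Fintype.mem_piFinset]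
          exact Iff.rfl
        rw [h5, Fintype.card_piFinset]
        simp
      show _ = ((univ.filter (fun z => G (Fin.cons z x))).card : ℝ) ^ s
      rw [← Nat.cast_pow, ← h3]
    have h2 : ∑ x : Fin k → V, deg x = ((univ.filter G).card : ℝ) := by
      have : ∀ x : Fin k → V, deg x = ∑ z : V, if G (Fin.cons z x) then (1 : ℝ) else 0 := by
        intro x; simp only [hdeg]; rw [card_filter]; push_cast; rfl
      simp_rw [this]
      rw [sum_comm, ← Fintype.sum_prod_type' (f := fun (z : V) (x : Fin k → V) =>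
        if G (Fin.cons z x) then (1 : ℝ) else 0)]
      rw [card_filter]
      push_cast
      exact Fintype.sum_equiv (Fin.consEquiv (fun _ : Fin (k + 1) => V)) _ _ (fun x => rfl)
    have h3 : p * n ≤ (∑ x : Fin k → V, deg x) / n ^ k := by
      rw [h2, le_div_iff₀ (by positivity)]
      unfold pr at hG
      have hc : (Fintype.card (Fin (k + 1) → V) : ℝ) = n ^ (k + 1) := by
        rw [Fintype.card_fun, Fintype.card_fin]; push_cast; rfl
      rw [hc, le_div_iff₀ (by positivity)] at hG
      calc p * n * n ^ k = p * n ^ (k + 1) := by ring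
        _ ≤ _ := hG
    have h4 : ((∑ x : Fin k → V, deg x) / n ^ k) ^ s ≤ (∑ x : Fin k → V, deg x ^ s) / n ^ k := by
      have := Real.pow_arith_mean_le_arith_mean_pow (univ : Finset (Fin k → V))
        (fun _ => 1 / n ^ k) deg (fun _ _ => by positivity) (by
          rw [sum_const, nsmul_eq_mul, card_univ, hcardk]
          field_simp) (fun x _ => by simp only [hdeg]; positivity) s
      rw [← mul_sum, ← mul_sum] at this
      calc ((∑ x : Fin k → V, deg x) / n ^ k) ^ s = (1 / n ^ k * ∑ x : Fin k → V, deg x) ^ s := by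
            congr 1; ring
        _ ≤ _ := this
        _ = _ := by ring
    rw [h1]
    refine le_trans ?_ h4
    calc n ^ s * p ^ s = (p * n) ^ s := by rw [mul_pow]; ring
      _ ≤ _ := pow_le_pow_left₀ (by positivity) h3 s
  -- the sums of the Y's
  have hYsum : ∀ T, ∑ z, Yt T z ≤ n ^ s * β ^ s := by
    intro T
    simp only [hYt]
    rw [sum_pr, hcardm, div_le_iff₀ (by positivity)]
    have h2 : ∀ ψ ∈ (univ : Finset (Fin m → V)), ((univ.filter (fun z : Fin s → V =>
        BadP G (β * n) T z ψ)).card : ℝ) ≤ n ^ s * β ^ s := by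
      intro ψ _
      by_cases hψ : ((comNbr G T ψ).card : ℝ) < β * n
      · have h3 : (univ.filter (fun z : Fin s → V => BadP G (β * n) T z ψ)).card ≤
            (comNbr G T ψ).card ^ s := by
          have h5 : (univ.filter (fun z : Fin s → V => BadP G (β * n) T z ψ)) ⊆
              Fintype.piFinset (fun _ : Fin s => comNbr G T ψ) := by
            intro z hz
            rw [Fintype.mem_piFinset]
            intro i
            simp only [mem_filter, mem_univ, true_and] at hz
            simp only [comNbr, mem_filter, mem_univ, true_and]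
            exact fun t ht => hz.1 t ht i
          have h6 := card_le_card h5
          rw [Fintype.card_piFinset] at h6
          simpa using h6
        calc _ ≤ ((comNbr G T ψ).card : ℝ) ^ s := by exact_mod_cast h3
          _ ≤ (β * n) ^ s := pow_le_pow_left₀ (by positivity) hψ.le s
          _ = n ^ s * β ^ s := by rw [mul_pow]; ring
      · have h3 : (univ.filter (fun z : Fin s → V => BadP G (β * n) T z ψ)).card = 0 := by
          rw [card_eq_zero]
          apply filter_eq_empty_iff.2
          intro z _ h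
          exact hψ h.2
        rw [h3]
        push_cast
        positivity
    calc _ ≤ ∑ _ψ : Fin m → V, n ^ s * β ^ s := sum_le_sum h2
      _ = n ^ s * β ^ s * n ^ m := by
          rw [sum_const, nsmul_eq_mul, card_univ, hcardm]; ring
  -- choose `z`
  set κ : ℝ := p ^ s / (2 * L * β ^ s) with hκ
  have hκ0 : 0 < κ := by rw [hκ]; positivity
  have hYnn : ∀ T z, 0 ≤ Yt T z := fun T z => pr_nonneg _
  have htot : ∑ _z : Fin s → V, p ^ s / 2 ≤ ∑ z, (X z - κ * ∑ T, Yt T z) := by
    rw [sum_const, nsmul_eq_mul, card_univ, hcards, sum_sub_distrib, ← mul_sum, sum_comm]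
    have h1 : ∑ T : Finset (Fin k → Fin m), ∑ z, Yt T z ≤ L * (n ^ s * β ^ s) := by
      calc _ ≤ ∑ _T : Finset (Fin k → Fin m), n ^ s * β ^ s := sum_le_sum (fun T _ => hYsum T)
        _ = _ := by rw [sum_const, nsmul_eq_mul, card_univ, hL]
    have h2 : κ * ∑ T : Finset (Fin k → Fin m), ∑ z, Yt T z ≤ n ^ s * (p ^ s / 2) := by
      calc _ ≤ κ * (L * (n ^ s * β ^ s)) := mul_le_mul_of_nonneg_left h1 hκ0.le
        _ = _ := by rw [hκ]; field_simp
    linarith
  obtain ⟨z, -, hz⟩ := exists_le_of_sum_le (s := (univ : Finset (Fin s → V)))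
    (f := fun _ => p ^ s / 2) (g := fun z => X z - κ * ∑ T, Yt T z) univ_nonempty htot
  have hsum0 : 0 ≤ ∑ T, Yt T z := sum_nonneg (fun T _ => hYnn T z)
  refine ⟨z, ?_, fun T => ?_⟩
  · have : 0 ≤ κ * ∑ T, Yt T z := by positivity
    show p ^ s / 2 ≤ X z
    linarith
  · have h1 : Yt T z ≤ ∑ T, Yt T z :=
      single_le_sum (fun T _ => hYnn T z) (mem_univ T)
    have h2 : κ * Yt T z ≤ 1 := by
      have h3 : κ * Yt T z ≤ κ * ∑ T, Yt T z := mul_le_mul_of_nonneg_left h1 hκ0.le
      have h4 : X z ≤ 1 := pr_le_one _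
      have h5 : 0 ≤ p ^ s / 2 := by positivity
      linarith
    show Yt T z ≤ 2 * L * β ^ s / p ^ s
    rw [le_div_iff₀ (by positivity)]
    rw [hκ, div_mul_eq_mul_div, div_le_one (by positivity)] at h2
    linarith

end Pool.Agent.X46.SidL
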