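import Mathlib
import Pool.Agent.X46.SidLevel

/-!
# Iterated dependent random choice for bounded degree r-partite r-graphs: the induction
-/

set_option linter.all false

namespace Pool.Agent.X46.SidS

open Finset Classical Pool.Agent.X46.PLLL Pool.Agent.X46.SidL

theorem pr_inst {Ω : Type*} (i1 i2 : Fintype Ω) (P : Ω → Prop) : @pr Ω i1 P = @pr Ω i2 P := by
  rw [Subsingleton.elim i1 i2]

/-- The counting statement at level `k`. -/
def Claim (k : ℕ) : Prop :=
  ∀ Δ m d : ℕ, ∃ C : ℕ, ∀ (V : Type) [Fintype V] [Nonempty V] (p : ℝ), 0 < p → p ≤ 1 / 2 →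
    ∀ G : (Fin k → V) → Prop, p ≤ pr G → ∀ (W : Type) [Fintype W] (part : W → ℕ)
    (E : Finset (Fin k → W)), (∀ e ∈ E, ∀ i : Fin k, part (e i) + i + 1 = k) →
    (∀ w, (E.filter (fun e => ∃ i, e i = w)).card ≤ Δ) →
    ∀ (ι : Type) [Fintype ι] (Y : ι → Finset W) (B : ι → (W → V) → Prop),
    (∀ c, ∀ w ∈ Y c, part w < k) →
    (∀ c (χ χ' : W → V), (∀ w ∈ Y c, χ w = χ' w) → (B c χ ↔ B c χ')) →
    (∀ c, (Y c).card ≤ m) → (∀ w, (univ.filter (fun c => w ∈ Y c)).card ≤ d) →
    (∀ c, pr (B c) ≤ p ^ C) →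
    p ^ (C * (univ.filter (fun w => part w < k)).card) ≤
      pr (fun φ : W → V => (∀ e ∈ E, G (φ ∘ e)) ∧ ∀ c, ¬ B c φ)

theorem claim_zero : Claim 0 := by
  intro Δ m d
  refine ⟨1, ?_⟩
  intro V _ _ p hp hp2 G hG W _ part E hE hdeg ι _ Y B hpart hdep hY hd hB
  have hGall : ∀ x, G x := by
    intro x
    by_contra hx
    have h1 : pr G = 0 := by
      unfold pr
      rw [filter_eq_empty_iff.2, card_empty]
      · simp
      · intro y _ hy
        exact hx (by rwa [Subsingleton.elim x y])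
    linarith
  have hBall : ∀ c φ, ¬ B c φ := by
    intro c φ hφ
    have h1 : pr (B c) = 1 := by
      apply pr_true
      intro φ'
      refine (hdep c φ φ' ?_).1 hφ
      intro w hw
      exact absurd (hpart c w hw) (Nat.not_lt_zero _)
    have := hB c
    rw [h1, pow_one] at this
    linarith
  rw [pr_true (fun φ => ⟨fun e _ => hGall _, fun c => hBall c φ⟩)]
  apply pow_le_one₀ hp.le
  linarith

section step

variable {W V : Type} [Fintype W] [Fintype V] {k : ℕ}

/-- The tail of an edge. -/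
def tl (e : Fin (k + 1) → W) : Fin k → W := fun i => e i.succ

/-- The vertices in the links of `w`. -/
noncomputable def lk (E : Finset (Fin (k + 1) → W)) (w : W) : Finset W :=
  (E.filter (fun e => e 0 = w)).biUnion (fun e => univ.image (tl e))

/-- The admissible images of `w`. -/
noncomputable def nb (G : (Fin (k + 1) → V) → Prop) (E : Finset (Fin (k + 1) → W)) (φ : W → V)
    (w : W) : Finset V :=
  univ.filter (fun z => ∀ e ∈ E, e 0 = w → G (Fin.cons z (φ ∘ tl e)))

theorem mem_lk {E : Finset (Fin (k + 1) → W)} {w v : W} :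
    v ∈ lk E w ↔ ∃ e ∈ E, e 0 = w ∧ ∃ i, tl e i = v := by
  simp only [lk, mem_biUnion, mem_filter, mem_image, mem_univ, true_and]
  constructor
  · rintro ⟨e, ⟨h1, h2⟩, i, h3⟩; exact ⟨e, h1, h2, i, h3⟩
  · rintro ⟨e, h1, h2, i, h3⟩; exact ⟨e, ⟨h1, h2⟩, i, h3⟩

theorem comp_tl_congr {φ φ' : W → V} {E : Finset (Fin (k + 1) → W)} {w : W}
    (h : ∀ v ∈ lk E w, φ v = φ' v) {e : Fin (k + 1) → W} (he : e ∈ E) (hw : e 0 = w) :
    φ ∘ tl e = φ' ∘ tl e := by
  funext i
  exact h _ (mem_lk.2 ⟨e, he, hw, i, rfl⟩)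

theorem nb_congr (G : (Fin (k + 1) → V) → Prop) {φ φ' : W → V} {E : Finset (Fin (k + 1) → W)}
    {w : W} (h : ∀ v ∈ lk E w, φ v = φ' v) : nb G E φ w = nb G E φ' w := by
  unfold nb
  apply filter_congr
  intro z _
  apply forall_congr'; intro e
  apply imp_congr_right; intro he
  apply imp_congr_right; intro hw
  rw [comp_tl_congr h he hw]

theorem card_lk {Δ : ℕ} {E : Finset (Fin (k + 1) → W)}
    (hdeg : ∀ w, (E.filter (fun e => ∃ i, e i = w)).card ≤ Δ) (w : W) :
    (lk E w).card ≤ k * Δ := by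
  unfold lk
  calc _ ≤ ∑ e ∈ E.filter (fun e => e 0 = w), (univ.image (tl e)).card := card_biUnion_le
    _ ≤ ∑ _e ∈ E.filter (fun e => e 0 = w), k := by
        apply sum_le_sum
        intro e _
        refine card_image_le.trans ?_
        rw [card_univ, Fintype.card_fin]
    _ = (E.filter (fun e => e 0 = w)).card * k := by rw [sum_const, smul_eq_mul]
    _ ≤ Δ * k := by
        apply Nat.mul_le_mul_right
        refine le_trans (card_le_card ?_) (hdeg w)
        intro e he
        rw [mem_filter] at he ⊢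
        exact ⟨he.1, 0, he.2⟩
    _ = k * Δ := Nat.mul_comm _ _

/-- Labelling of a small set. -/
theorem exists_label [Nonempty W] (Z : Finset W) (m : ℕ) (hm : Z.card < m) :
    ∃ (lab : W → Fin m) (ι : Fin m → W), ∀ z ∈ Z, ι (lab z) = z := by
  have hpos : 0 < m := by omega
  let e := Z.equivFin
  refine ⟨fun w => if h : w ∈ Z then Fin.castLE hm.le (e ⟨w, h⟩) else ⟨0, hpos⟩,
    fun i => if h : i.val < Z.card then (e.symm ⟨i.val, h⟩).1 else Classical.arbitrary W, ?_⟩
  intro z hz
  simp only [dif_pos hz]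
  have h1 : (Fin.castLE hm.le (e ⟨z, hz⟩)).val = (e ⟨z, hz⟩).val := rfl
  have h2 : (Fin.castLE hm.le (e ⟨z, hz⟩)).val < Z.card := by rw [h1]; exact (e ⟨z, hz⟩).2
  rw [dif_pos h2]
  have h3 : (⟨(Fin.castLE hm.le (e ⟨z, hz⟩)).val, h2⟩ : Fin Z.card) = e ⟨z, hz⟩ := by
    apply Fin.ext; rfl
  rw [h3, Equiv.symm_apply_apply]

/-- The density of the bad event of the link of `w` is that of its labelled version. -/
theorem pr_link_bad [Nonempty V] {s : ℕ} (G : (Fin (k + 1) → V) → Prop) (b : ℝ)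
    (z : Fin s → V) {Δ : ℕ} {E : Finset (Fin (k + 1) → W)}
    (hdeg : ∀ w, (E.filter (fun e => ∃ i, e i = w)).card ≤ Δ) (w : W) {q : ℝ}
    (hq : ∀ T : Finset (Fin k → Fin (k * Δ + 1)), pr (BadP G b T z) ≤ q) :
    pr (fun φ : W → V => (∀ e ∈ E, e 0 = w → LinkP G z (φ ∘ tl e)) ∧
      ((nb G E φ w).card : ℝ) < b) ≤ q := by
  haveI : Nonempty W := ⟨w⟩
  obtain ⟨lab, ι, hlab⟩ := exists_label (lk E w) (k * Δ + 1)
    (Nat.lt_succ_of_le (card_lk hdeg w))
  set T : Finset (Fin k → Fin (k * Δ + 1)) :=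
    (E.filter (fun e => e 0 = w)).image (fun e => lab ∘ tl e) with hT
  have hcomp : ∀ (φ : W → V), ∀ e ∈ E, e 0 = w → (φ ∘ ι) ∘ (lab ∘ tl e) = φ ∘ tl e := by
    intro φ e he hw
    funext i
    simp only [Function.comp]
    rw [hlab _ (mem_lk.2 ⟨e, he, hw, i, rfl⟩)]
  have hnb : ∀ φ : W → V, nb G E φ w = comNbr G T (φ ∘ ι) := by
    intro φ
    ext y
    simp only [nb, comNbr, mem_filter, mem_univ, true_and]
    constructor
    · intro h t ht
      rw [hT, mem_image] at ht
      obtain ⟨e, he, rfl⟩ := ht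
      rw [mem_filter] at he
      rw [hcomp φ e he.1 he.2]
      exact h e he.1 he.2
    · intro h e he hw
      have h1 := h (lab ∘ tl e) (by
        rw [hT]; exact mem_image_of_mem _ (mem_filter.2 ⟨he, hw⟩))
      rwa [hcomp φ e he hw] at h1
  have heq : ∀ φ : W → V, ((∀ e ∈ E, e 0 = w → LinkP G z (φ ∘ tl e)) ∧
      ((nb G E φ w).card : ℝ) < b) → BadP G b T z (φ ∘ ι) := by
    rintro φ ⟨h1, h2⟩
    refine ⟨?_, by rw [← hnb]; exact h2⟩
    intro t ht
    rw [hT, mem_image] at ht
    obtain ⟨e, he, rfl⟩ := ht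
    rw [mem_filter] at he
    rw [hcomp φ e he.1 he.2]
    exact h1 e he.1 he.2
  refine (pr_mono heq).trans ?_
  rw [pr_comp ι lab ((lk E w).image lab) (by
    intro x hx
    obtain ⟨v, hv, rfl⟩ := mem_image.1 hx
    rw [hlab v hv]) (BadP G b T z) ?_]
  · exact (pr_inst _ _ _).le.trans (hq T)
  · intro χ χ' hχ
    have hc : ∀ t ∈ T, χ ∘ t = χ' ∘ t := by
      intro t ht
      rw [hT, mem_image] at ht
      obtain ⟨e, he, rfl⟩ := ht
      rw [mem_filter] at he
      funext i
      exact hχ _ (mem_image_of_mem lab (mem_lk.2 ⟨e, he.1, he.2, i, rfl⟩))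
    have h1 : comNbr G T χ = comNbr G T χ' := by
      ext y
      simp only [comNbr, mem_filter, mem_univ, true_and]
      apply forall_congr'; intro t
      apply imp_congr_right; intro ht
      rw [hc t ht]
    unfold BadP
    rw [h1]
    apply and_congr_left'
    apply forall_congr'; intro t
    apply imp_congr_right; intro ht
    rw [hc t ht]

theorem prod_lower [Nonempty V] (N : W → Finset V) (S : Finset W) {β : ℝ} (hβ : 0 ≤ β)
    (h1 : ∀ w ∈ S, β * Fintype.card V ≤ ((N w).card : ℝ)) (h2 : ∀ w, w ∉ S → N w = univ) :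
    β ^ S.card * (Fintype.card (W → V) : ℝ) ≤ ((Fintype.piFinset N).card : ℝ) := by
  rw [Fintype.card_piFinset, Fintype.card_fun]
  push_cast
  have h3 : β ^ S.card * (Fintype.card V : ℝ) ^ Fintype.card W =
      ∏ w : W, (if w ∈ S then β * (Fintype.card V : ℝ) else (Fintype.card V : ℝ)) := by
    have e1 : ∀ w : W, (if w ∈ S then β * (Fintype.card V : ℝ) else (Fintype.card V : ℝ)) =
        (if w ∈ S then β else 1) * (Fintype.card V : ℝ) := by
      intro w; split_ifs <;> ring
    simp_rw [e1]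
    rw [prod_mul_distrib, prod_const, card_univ, prod_ite_mem, univ_inter, prod_const]
  rw [h3]
  apply prod_le_prod
  · intro w _; split_ifs <;> positivity
  · intro w _
    split_ifs with h
    · exact h1 w h
    · rw [h2 w h, card_univ]

/-- The restricted image sets for the constraint with variables `Y`. -/
noncomputable def Nc (G : (Fin (k + 1) → V) → Prop) (E : Finset (Fin (k + 1) → W))
    (Y : Finset W) (φ : W → V) (w : W) : Finset V :=
  if w ∈ Y then nb G E φ w else univ

/-- The extended constraint: too many extensions violate `B`. -/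
def BadC (G : (Fin (k + 1) → V) → Prop) (E : Finset (Fin (k + 1) → W)) (U : W → Prop)
    (b δ : ℝ) (Y : Finset W) (B : (W → V) → Prop) (φ : W → V) : Prop :=
  (∀ u ∈ Y, b ≤ ((nb G E φ u).card : ℝ)) ∧
    δ * ((Fintype.piFinset (Nc G E Y φ)).card : ℝ) <
      (((Fintype.piFinset (Nc G E Y φ)).filter (fun χ => B (mix U φ χ))).card : ℝ)

/-- Markov's inequality for the extended constraint. -/
theorem markov [Nonempty V] (G : (Fin (k + 1) → V) → Prop) (E : Finset (Fin (k + 1) → W))
    (U : W → Prop) {β δ : ℝ} (hβ0 : 0 ≤ β) (hβ1 : β ≤ 1) (hδ : 0 ≤ δ) (Y : Finset W)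
    (B : (W → V) → Prop) {m : ℕ} (hY : Y.card ≤ m) :
    pr (BadC G E U (β * Fintype.card V) δ Y B) * (δ * β ^ m) ≤ pr B := by
  apply mix_le U (by positivity)
  rintro φ ⟨h1, h2⟩
  have h0 : (0 : ℝ) < (Fintype.card (W → V) : ℝ) := by exact_mod_cast Fintype.card_pos
  unfold pr
  rw [le_div_iff₀ h0]
  have h3 := prod_lower (Nc G E Y φ) Y hβ0 (by
    intro w hw
    unfold Nc
    rw [if_pos hw]
    exact h1 w hw) (by
    intro w hw
    unfold Nc
    rw [if_neg hw])
  have h4 : β ^ m ≤ β ^ Y.card := pow_le_pow_of_le_one hβ0 hβ1 hY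
  have h5 : (((Fintype.piFinset (Nc G E Y φ)).filter (fun χ => B (mix U φ χ))).card : ℝ) ≤
      ((univ.filter (fun χ => B (mix U φ χ))).card : ℝ) := by
    exact_mod_cast card_le_card (filter_subset_filter _ (subset_univ _))
  calc δ * β ^ m * (Fintype.card (W → V) : ℝ)
      ≤ δ * (β ^ Y.card * (Fintype.card (W → V) : ℝ)) := by
        rw [mul_assoc]
        apply mul_le_mul_of_nonneg_left _ hδ
        exact mul_le_mul_of_nonneg_right h4 h0.le
    _ ≤ δ * ((Fintype.piFinset (Nc G E Y φ)).card : ℝ) := mul_le_mul_of_nonneg_left h3 hδ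
    _ ≤ _ := h2.le.trans h5

/-- Extending a good assignment. -/
theorem ext_count [Nonempty V] (G : (Fin (k + 1) → V) → Prop) (part : W → ℕ)
    (E : Finset (Fin (k + 1) → W)) (hE : ∀ e ∈ E, ∀ i : Fin (k + 1), part (e i) + i + 1 = k + 1)
    {ι : Type} [Fintype ι] (Y : ι → Finset W) (B : ι → (W → V) → Prop)
    (hdep : ∀ c (χ χ' : W → V), (∀ w ∈ Y c, χ w = χ' w) → (B c χ ↔ B c χ'))
    {m d : ℕ} (hY : ∀ c, (Y c).card ≤ m)
    (hd : ∀ w, (univ.filter (fun c => w ∈ Y c)).card ≤ d)
    {β δ : ℝ} (hβ : 0 < β) (hδ0 : 0 ≤ δ) (hδ1 : δ < 1) (hδ : (d : ℝ) * δ * 2 ^ m ≤ 1 / 2)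
    (φ : W → V) (h1 : ∀ w, β * Fintype.card V ≤ ((nb G E φ w).card : ℝ))
    (h2 : ∀ c, (((Fintype.piFinset (Nc G E (Y c) φ)).filter
      (fun χ => B c (mix (fun w => part w = k) φ χ))).card : ℝ) ≤
      δ * ((Fintype.piFinset (Nc G E (Y c) φ)).card : ℝ)) :
    (β / 2) ^ (univ.filter (fun w => part w = k)).card ≤
      pr (fun χ : W → V => (∀ e ∈ E, G (mix (fun w => part w = k) φ χ ∘ e)) ∧
        ∀ c, ¬ B c (mix (fun w => part w = k) φ χ)) := by
  set U : W → Prop := fun w => part w = k with hU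
  have hn0 : (0 : ℝ) < (Fintype.card V : ℝ) := by exact_mod_cast Fintype.card_pos
  have h0 : (0 : ℝ) < (Fintype.card (W → V) : ℝ) := by exact_mod_cast Fintype.card_pos
  have hN : ∀ w, (nb G E φ w).Nonempty := by
    intro w
    rw [← card_pos]
    have : (0 : ℝ) < ((nb G E φ w).card : ℝ) := lt_of_lt_of_le (by positivity) (h1 w)
    exact_mod_cast this
  have hNc : ∀ c w, (Nc G E (Y c) φ w).Nonempty := by
    intro c w
    unfold Nc
    split_ifs
    · exact hN w
    · exact univ_nonempty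
  have hdep' : ∀ c (χ χ' : W → V), (∀ w ∈ (Y c).filter U, χ w = χ' w) →
      (B c (mix U φ χ) ↔ B c (mix U φ χ')) := by
    intro c χ χ' h
    apply hdep
    intro w hw
    unfold mix
    split_ifs with hUw
    · exact h w (mem_filter.2 ⟨hw, hUw⟩)
    · rfl
  have hpos : ∀ N : W → Finset V, (∀ w, (N w).Nonempty) →
      (0 : ℝ) < ((Fintype.piFinset N).card : ℝ) := by
    intro N hN
    have : (Fintype.piFinset N).Nonempty := Fintype.piFinset_nonempty.2 hN
    exact_mod_cast this.card_pos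
  have hl := lll (nb G E φ) hN (fun c => (Y c).filter U) (fun c χ => B c (mix U φ χ)) hdep'
    (δ := δ) (γ := 1 / 2) (m := m) (d := d) hδ0 hδ1 le_rfl hδ (by
      intro c
      have hs' := swap_count_id (nb G E φ) (Nc G E (Y c) φ) (Y c) (by
        intro x hx
        unfold Nc
        rw [if_pos hx]) (fun χ => B c (mix U φ χ)) (fun χ χ' h => hdep' c χ χ'
          (fun w hw => h w (mem_filter.1 hw).1))
      have hc := h2 c
      have hp1 := hpos _ (hNc c)
      have hp2 := hpos _ hN
      have hs'' : (((Fintype.piFinset (nb G E φ)).filter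
          (fun χ => B c (mix U φ χ))).card : ℝ) *
          ((Fintype.piFinset (Nc G E (Y c) φ)).card : ℝ) =
          ((Fintype.piFinset (nb G E φ)).card : ℝ) *
          (((Fintype.piFinset (Nc G E (Y c) φ)).filter
            (fun χ => B c (mix U φ χ))).card : ℝ) := by exact_mod_cast hs'
      refine le_of_mul_le_mul_right ?_ hp1
      rw [hs'']
      calc _ ≤ ((Fintype.piFinset (nb G E φ)).card : ℝ) *
            (δ * ((Fintype.piFinset (Nc G E (Y c) φ)).card : ℝ)) :=
            mul_le_mul_of_nonneg_left hc hp2.le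
        _ = _ := by ring)
    (fun c => (card_le_card (filter_subset _ _)).trans (hY c)) (by
      intro w
      refine le_trans (card_le_card ?_) (hd w)
      intro c hc
      rw [mem_filter] at hc ⊢
      exact ⟨hc.1, (mem_filter.1 hc.2).1⟩)
    (univ.filter U) (by
      intro c w hw
      rw [mem_filter] at hw ⊢
      exact ⟨mem_univ _, hw.2⟩)
  have hl2 : β ^ (univ.filter U).card * (Fintype.card (W → V) : ℝ) ≤
      ((Fintype.piFinset (nb G E φ)).card : ℝ) := by
    apply prod_lower _ _ hβ.le (fun w _ => h1 w)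
    intro w hw
    ext z
    simp only [nb, mem_filter, mem_univ, true_and, iff_true]
    intro e he hew
    exfalso
    apply hw
    rw [mem_filter]
    refine ⟨mem_univ _, ?_⟩
    have := hE e he 0
    rw [hew] at this
    show part w = k
    simp at this
    omega
  have hsub := card_le_pr ((Fintype.piFinset (nb G E φ)).filter
      (fun χ => ∀ c, ¬ B c (mix U φ χ)))
      (fun χ : W → V => (∀ e ∈ E, G (mix U φ χ ∘ e)) ∧ ∀ c, ¬ B c (mix U φ χ)) (by
    intro χ hχ
    rw [mem_filter, Fintype.mem_piFinset] at hχ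
    refine ⟨?_, hχ.2⟩
    intro e he
    have h3 := hχ.1 (e 0)
    simp only [nb, mem_filter, mem_univ, true_and] at h3
    have h4 := h3 e he rfl
    have h5 : mix U φ χ ∘ e = Fin.cons (χ (e 0)) (φ ∘ tl e) := by
      funext i
      refine Fin.cases ?_ (fun i => ?_) i
      · simp only [Function.comp, Fin.cons_zero, mix]
        rw [if_pos]
        have := hE e he 0
        simp at this
        show part (e 0) = k
        omega
      · simp only [Function.comp, Fin.cons_succ, mix, tl]
        rw [if_neg]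
        have := hE e he i.succ
        rw [Fin.val_succ] at this
        show ¬ part (e i.succ) = k
        omega
    rw [h5]
    exact h4)
  refine le_of_mul_le_mul_right ?_ h0
  refine le_trans ?_ hsub
  calc (β / 2) ^ (univ.filter U).card * (Fintype.card (W → V) : ℝ)
      = (1 - 1 / 2) ^ (univ.filter U).card *
        (β ^ (univ.filter U).card * (Fintype.card (W → V) : ℝ)) := by
        rw [← mul_assoc, ← mul_pow]
        congr 2
        ring
    _ ≤ (1 - 1 / 2) ^ (univ.filter U).card * ((Fintype.piFinset (nb G E φ)).card : ℝ) := by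
        apply mul_le_mul_of_nonneg_left hl2
        apply pow_nonneg
        norm_num
    _ ≤ _ := hl

end step

end Pool.Agent.X46.SidS
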