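import Mathlib
import Pool.Agent.X46.SidStep

/-!
# Iterated dependent random choice for bounded degree r-partite r-graphs: conclusion
-/

set_option linter.all false

namespace Pool.Agent.X46.SidM

open Finset Classical Pool.Agent.X46.PLLL Pool.Agent.X46.SidL Pool.Agent.X46.SidS

theorem claim_succ {k : ℕ} (ih : Claim k) : Claim (k + 1) := by
  intro Δ m d
  set m' := (m + 1) * (k * Δ + 1) with hm'
  set d' := Δ + (d + Δ * d) with hd'
  obtain ⟨C', hC'⟩ := ih Δ m' d'
  set L := Fintype.card (Finset (Fin k → Fin (k * Δ + 1))) with hL
  set s := 2 * L with hs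
  set a := 2 * C' + 2 with ha
  set D := m + d + 1 with hD
  refine ⟨(s + 1) * C' + a * m + D + a + 1, ?_⟩
  intro V _ _ p hp hp2 G hG W _ part E hE hdeg ι _ Y B hpart hdep hY hd hB
  have hp1 : p ≤ 1 := by linarith
  have hL1 : 1 ≤ L := by rw [hL]; exact Fintype.card_pos
  have hs1 : 1 ≤ s := by omega
  set β : ℝ := p ^ a with hβ
  have hβ0 : 0 < β := by rw [hβ]; positivity
  have hβ1 : β ≤ 1 := pow_le_one₀ hp.le hp1
  set δ : ℝ := (1 / 2) ^ D with hδ
  have hδ0 : 0 < δ := by rw [hδ]; positivity
  have hδ1 : δ < 1 := by
    rw [hδ]
    exact pow_lt_one₀ (by norm_num) (by norm_num) (by omega)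
  have hδd : (d : ℝ) * δ * 2 ^ m ≤ 1 / 2 := by
    have h1 : (d : ℝ) ≤ 2 ^ d := by exact_mod_cast (Nat.lt_two_pow_self (n := d)).le
    have h2 : δ * 2 ^ m = (1 / 2) ^ d * (1 / 2) := by
      rw [hδ, hD]
      rw [show m + d + 1 = d + 1 + m by ring, pow_add, pow_succ, mul_assoc, ← mul_pow]
      norm_num
    calc (d : ℝ) * δ * 2 ^ m = d * (δ * 2 ^ m) := by ring
      _ = (d : ℝ) * ((1 / 2) ^ d * (1 / 2)) := by rw [h2]
      _ ≤ 2 ^ d * ((1 / 2) ^ d * (1 / 2)) := by
          apply mul_le_mul_of_nonneg_right h1; positivity
      _ = 1 / 2 := by rw [← mul_assoc, ← mul_pow]; norm_num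
  have hpδ : p ^ D ≤ δ := by
    rw [hδ]
    exact pow_le_pow_left₀ hp.le hp2 D
  obtain ⟨z, hz1, hz2⟩ := choice G hp hG hβ0 s (k * Δ + 1) L (by rw [hL])
  set p' : ℝ := p ^ (s + 1) with hp'
  have hp'0 : 0 < p' := by rw [hp']; positivity
  have hp's : p' ≤ p ^ s / 2 := by
    rw [hp', pow_succ]
    have : 0 < p ^ s := by positivity
    nlinarith
  have hp'2 : p' ≤ 1 / 2 := by
    have : p ^ s ≤ 1 := pow_le_one₀ hp.le hp1
    linarith
  have hp'1 : p' ≤ 1 := by linarith
  set G' : (Fin k → V) → Prop := LinkP G z with hG'
  -- the density of the bad link events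
  have hlink : 2 * (L : ℝ) * β ^ s / p ^ s ≤ p' ^ C' := by
    have h1 : (2 * (L : ℝ)) ≤ 2 ^ s := by
      have : 2 * L ≤ 2 ^ s := by rw [hs]; exact (Nat.lt_two_pow_self (n := 2 * L)).le
      exact_mod_cast this
    have h2 : 2 * (L : ℝ) * p ^ s ≤ 1 := by
      calc 2 * (L : ℝ) * p ^ s ≤ 2 ^ s * p ^ s := by
            apply mul_le_mul_of_nonneg_right h1; positivity
        _ = (2 * p) ^ s := by rw [mul_pow]
        _ ≤ 1 := pow_le_one₀ (by positivity) (by linarith)
    have h3 : β ^ s = p ^ s * p ^ s * p ^ (2 * C' * s) := by
      rw [hβ, ← pow_mul, ← pow_add, ← pow_add]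
      congr 1
      rw [ha]; ring
    calc 2 * (L : ℝ) * β ^ s / p ^ s = (2 * (L : ℝ) * p ^ s) * p ^ (2 * C' * s) := by
          rw [h3]
          field_simp
      _ ≤ 1 * p ^ (2 * C' * s) := by
          apply mul_le_mul_of_nonneg_right h2; positivity
      _ = p ^ (2 * C' * s) := one_mul _
      _ ≤ p ^ ((s + 1) * C') := by
          apply pow_le_pow_of_le_one hp.le hp1
          nlinarith
      _ = p' ^ C' := by rw [hp', ← pow_mul]
  -- the new constraints
  set Y' : W ⊕ ι → Finset W := fun c => Sum.elim (fun w => lk E w)
    (fun c => (Y c).filter (fun w => part w < k) ∪ (Y c).biUnion (fun w => lk E w)) c with hY'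
  set U : W → Prop := fun w => part w = k with hU
  set b : ℝ := β * (Fintype.card V : ℝ) with hb
  set B' : W ⊕ ι → (W → V) → Prop := fun c => Sum.elim
    (fun w => fun φ => (∀ e ∈ E, e 0 = w → LinkP G z (φ ∘ tl e)) ∧ ((nb G E φ w).card : ℝ) < b)
    (fun c => BadC G E U b δ (Y c) (B c)) c with hB'
  have hlkpart : ∀ w, ∀ v ∈ lk E w, part v < k := by
    intro w v hv
    obtain ⟨e, he, _, i, rfl⟩ := mem_lk.1 hv
    have := hE e he i.succ
    rw [Fin.val_succ] at this
    show part (e i.succ) < k
    omega
  have key := hC' V p' hp'0 hp'2 G' (hp's.trans hz1) W part (E.image tl) (by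
      intro e he i
      obtain ⟨f, hf, rfl⟩ := mem_image.1 he
      have := hE f hf i.succ
      rw [Fin.val_succ] at this
      show part (f i.succ) + i + 1 = k
      omega) (by
      intro w
      refine le_trans ?_ (hdeg w)
      refine (card_le_card (t := (E.filter (fun e => ∃ i, e i = w)).image tl) ?_).trans
        card_image_le
      intro e he
      rw [mem_filter] at he
      obtain ⟨h1, i, h2⟩ := he
      obtain ⟨f, hf, rfl⟩ := mem_image.1 h1
      exact mem_image_of_mem _ (mem_filter.2 ⟨hf, i.succ, h2⟩)) (W ⊕ ι) Y' B' (by
      intro c w hw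
      rcases c with u | c
      · exact hlkpart u w hw
      · simp only [hY', Sum.elim_inr, mem_union, mem_filter, mem_biUnion] at hw
        rcases hw with h | ⟨u, _, h⟩
        · exact h.2
        · exact hlkpart u w h) (by
      intro c χ χ' h
      rcases c with u | c
      · simp only [hY', Sum.elim_inl] at h
        simp only [hB', Sum.elim_inl]
        rw [nb_congr G h]
        apply and_congr_left'
        apply forall_congr'; intro e
        apply imp_congr_right; intro he
        apply imp_congr_right; intro hw
        rw [comp_tl_congr h he hw]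
      · simp only [hY', Sum.elim_inr] at h
        simp only [hB', Sum.elim_inr]
        have hnb : ∀ u ∈ Y c, nb G E χ u = nb G E χ' u := by
          intro u hu
          apply nb_congr
          intro v hv
          exact h v (mem_union_right _ (mem_biUnion.2 ⟨u, hu, hv⟩))
        have hNc : Nc G E (Y c) χ = Nc G E (Y c) χ' := by
          funext w
          unfold Nc
          split_ifs with hw
          · exact hnb w hw
          · rfl
        have hBm : ∀ ξ : W → V, B c (mix U χ ξ) ↔ B c (mix U χ' ξ) := by
          intro ξ
          apply hdep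
          intro w hw
          unfold mix
          split_ifs with hUw
          · rfl
          · apply h
            apply mem_union_left
            rw [mem_filter]
            refine ⟨hw, ?_⟩
            have h1 := hpart c w hw
            have h2 : ¬ part w = k := hUw
            omega
        unfold BadC
        rw [hNc]
        have h1 : (∀ u ∈ Y c, b ≤ ((nb G E χ u).card : ℝ)) ↔
            (∀ u ∈ Y c, b ≤ ((nb G E χ' u).card : ℝ)) := by
          apply forall_congr'; intro u
          apply imp_congr_right; intro hu
          rw [hnb u hu]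
        rw [h1]
        simp_rw [hBm]) (by
      intro c
      rcases c with u | c
      · simp only [hY', Sum.elim_inl]
        refine (card_lk hdeg u).trans ?_
        rw [hm']
        nlinarith
      · simp only [hY', Sum.elim_inr]
        calc _ ≤ ((Y c).filter (fun w => part w < k)).card +
              ((Y c).biUnion (fun w => lk E w)).card := card_union_le _ _
          _ ≤ m + m * (k * Δ) := by
              apply Nat.add_le_add
              · exact (card_le_card (filter_subset _ _)).trans (hY c)
              · calc _ ≤ ∑ w ∈ Y c, (lk E w).card := card_biUnion_le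
                  _ ≤ ∑ _w ∈ Y c, k * Δ := sum_le_sum (fun w _ => card_lk hdeg w)
                  _ = (Y c).card * (k * Δ) := by rw [sum_const, smul_eq_mul]
                  _ ≤ m * (k * Δ) := Nat.mul_le_mul_right _ (hY c)
          _ ≤ m' := by rw [hm']; nlinarith) (by
      intro w
      have h1 : (univ.filter (fun u : W => w ∈ lk E u)).card ≤ Δ := by
        refine (card_le_card (t := (E.filter (fun e => ∃ i, e i = w)).image
          (fun e => e 0)) ?_).trans (card_image_le.trans (hdeg w))
        intro u hu
        rw [mem_filter] at hu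
        obtain ⟨e, he, hu', i, hi⟩ := mem_lk.1 hu.2
        rw [mem_image]
        exact ⟨e, mem_filter.2 ⟨he, i.succ, hi⟩, hu'⟩
      have h2 : (univ.filter (fun c : ι => w ∈ Y' (Sum.inr c))).card ≤ d + Δ * d := by
        have hsub : univ.filter (fun c : ι => w ∈ Y' (Sum.inr c)) ⊆
            univ.filter (fun c : ι => w ∈ Y c) ∪
              (univ.filter (fun u : W => w ∈ lk E u)).biUnion
                (fun u => univ.filter (fun c : ι => u ∈ Y c)) := by
          intro c hc
          rw [mem_filter] at hc
          simp only [hY', Sum.elim_inr, mem_union, mem_filter, mem_biUnion] at hc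
          rcases hc.2 with h | ⟨u, hu, h⟩
          · exact mem_union_left _ (mem_filter.2 ⟨mem_univ _, h.1⟩)
          · apply mem_union_right
            rw [mem_biUnion]
            exact ⟨u, mem_filter.2 ⟨mem_univ _, h⟩, mem_filter.2 ⟨mem_univ _, hu⟩⟩
        refine (card_le_card hsub).trans ((card_union_le _ _).trans ?_)
        apply Nat.add_le_add (hd w)
        calc _ ≤ ∑ u ∈ univ.filter (fun u : W => w ∈ lk E u),
              (univ.filter (fun c : ι => u ∈ Y c)).card := card_biUnion_le
          _ ≤ ∑ _u ∈ univ.filter (fun u : W => w ∈ lk E u), d := sum_le_sum (fun u _ => hd u)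
          _ = (univ.filter (fun u : W => w ∈ lk E u)).card * d := by
              rw [sum_const, smul_eq_mul]
          _ ≤ Δ * d := Nat.mul_le_mul_right _ h1
      have hsub : univ.filter (fun c : W ⊕ ι => w ∈ Y' c) ⊆
          (univ.filter (fun u : W => w ∈ lk E u)).image Sum.inl ∪
          (univ.filter (fun c : ι => w ∈ Y' (Sum.inr c))).image Sum.inr := by
        intro c hc
        rw [mem_filter] at hc
        rcases c with u | c
        · exact mem_union_left _ (mem_image_of_mem _ (mem_filter.2 ⟨mem_univ _, hc.2⟩))
        · exact mem_union_right _ (mem_image_of_mem _ (mem_filter.2 ⟨mem_univ _, hc.2⟩))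
      refine (card_le_card hsub).trans ((card_union_le _ _).trans ?_)
      rw [hd']
      exact Nat.add_le_add (card_image_le.trans h1) (card_image_le.trans h2)) (by
      intro c
      rcases c with u | c
      · simp only [hB', Sum.elim_inl]
        exact pr_link_bad G b z hdeg u (fun T => (hz2 T).trans hlink)
      · simp only [hB', Sum.elim_inr]
        have h1 := markov G E U hβ0.le hβ1 hδ0.le (Y c) (B c) (hY c)
        have h2 := hB c
        have h3 : 0 < δ * β ^ m := by positivity
        rw [← hb] at h1
        have h4 : p ^ ((s + 1) * C' + a * m + D + a + 1) ≤ p' ^ C' * (δ * β ^ m) := by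
          calc p ^ ((s + 1) * C' + a * m + D + a + 1)
              ≤ p ^ ((s + 1) * C' + a * m + D) := by
                apply pow_le_pow_of_le_one hp.le hp1
                omega
            _ = p' ^ C' * (p ^ D * β ^ m) := by
                rw [hp', hβ, ← pow_mul, ← pow_mul, ← pow_add, ← pow_add]
                congr 1
                ring
            _ ≤ p' ^ C' * (δ * β ^ m) := by
                apply mul_le_mul_of_nonneg_left _ (by positivity)
                exact mul_le_mul_of_nonneg_right hpδ (by positivity)
        exact le_of_mul_le_mul_right (h1.trans (h2.trans h4)) h3)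
  -- extension
  have hext := mix_le U (P := fun φ : W → V => (∀ e ∈ E.image tl, G' (φ ∘ e)) ∧ ∀ c, ¬ B' c φ)
    (Q := fun φ : W → V => (∀ e ∈ E, G (φ ∘ e)) ∧ ∀ c, ¬ B c φ)
    (c := (β / 2) ^ (univ.filter (fun w => part w = k)).card) (by positivity) (by
      rintro φ ⟨h1, h2⟩
      have hbig : ∀ w, β * (Fintype.card V : ℝ) ≤ ((nb G E φ w).card : ℝ) := by
        intro w
        by_contra hcon
        push Not at hcon
        apply h2 (Sum.inl w)
        simp only [hB', Sum.elim_inl]
        refine ⟨fun e he _ => h1 (tl e) (mem_image_of_mem _ he), hcon⟩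
      apply ext_count G part E hE Y B hdep hY hd hβ0 hδ0.le hδ1 hδd φ hbig
      intro c
      have h3 := h2 (Sum.inr c)
      simp only [hB', Sum.elim_inr] at h3
      unfold BadC at h3
      by_contra hcon
      push Not at hcon
      exact h3 ⟨fun u _ => hbig u, hcon⟩)
  refine le_trans ?_ hext
  have hcard : (univ.filter (fun w => part w < k + 1)).card =
      (univ.filter (fun w => part w < k)).card + (univ.filter (fun w => part w = k)).card := by
    rw [← card_union_of_disjoint]
    · congr 1
      ext w
      simp only [mem_filter, mem_univ, true_and, mem_union]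
      omega
    · rw [disjoint_left]
      intro w hw hw'
      simp only [mem_filter, mem_univ, true_and] at hw hw'
      omega
  set x := (univ.filter (fun w => part w < k)).card
  set y := (univ.filter (fun w => part w = k)).card
  have hβ2 : p ^ (a + 1) ≤ β / 2 := by
    rw [hβ, pow_succ]
    have : 0 < p ^ a := by positivity
    nlinarith
  calc p ^ (((s + 1) * C' + a * m + D + a + 1) * (univ.filter (fun w => part w < k + 1)).card)
      ≤ p ^ ((s + 1) * (C' * x) + (a + 1) * y) := by
        apply pow_le_pow_of_le_one hp.le hp1
        rw [hcard, Nat.mul_add]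
        apply Nat.add_le_add
        · rw [← Nat.mul_assoc]
          apply Nat.mul_le_mul_right
          omega
        · apply Nat.mul_le_mul_right
          omega
    _ = p' ^ (C' * x) * (p ^ (a + 1)) ^ y := by
        rw [hp', ← pow_mul, ← pow_mul, ← pow_add]
    _ ≤ p' ^ (C' * x) * (β / 2) ^ y := by
        apply mul_le_mul_of_nonneg_left _ (by positivity)
        exact pow_le_pow_left₀ (by positivity) hβ2 y
    _ ≤ _ := mul_le_mul_of_nonneg_right key (by positivity)

theorem claim_all (k : ℕ) : Claim k := by
  induction k with
  | zero => exact claim_zero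
  | succ k ih => exact claim_succ ih

end Pool.Agent.X46.SidM
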