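import Mathlib
import Pool.Agent.X46.SidMain

/-!
# Homomorphism densities of r-partite r-graphs of bounded degree
-/

set_option linter.all false

namespace Pool.Agent.X46.SidF

open Finset Classical Pool.Agent.X46.PLLL Pool.Agent.X46.SidL Pool.Agent.X46.SidS
  Pool.Agent.X46.SidM

/-- An `r`-graph on the vertex set `V`: a set of `r`-element subsets of `V`. -/
structure RGraph (r : ℕ) (V : Type) where
  edges : Finset (Finset V)
  card_edge : ∀ e ∈ edges, e.card = r

/-- `φ` is a homomorphism from `F` to `H`: it maps every edge of `F` onto an edge of `H`. -/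
def IsHom {r : ℕ} {V V' : Type} (F : RGraph r V) (H : RGraph r V') (φ : V → V') : Prop :=
  ∀ e ∈ F.edges, e.image φ ∈ H.edges

/-- The homomorphism density `t_F(H) = hom(F,H) / v(H)^v(F)`. -/
noncomputable def homDensity {r : ℕ} {V V' : Type} [Fintype V] [Fintype V'] (F : RGraph r V)
    (H : RGraph r V') : ℝ :=
  ((univ.filter (fun φ : V → V' => IsHom F H φ)).card : ℝ) /
    (Fintype.card V' : ℝ) ^ Fintype.card V

/-- The `r`-graph with `r` vertices and one edge. -/
def oneEdge (r : ℕ) : RGraph r (Fin r) where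
  edges := {univ}
  card_edge := by
    intro e he
    rw [mem_singleton] at he
    rw [he, card_univ, Fintype.card_fin]

/-- `F` is `r`-partite: the vertex set can be split into `r` parts so that every edge meets each
part in exactly one vertex. -/
def RGraph.IsPartite {r : ℕ} {V : Type} (F : RGraph r V) : Prop :=
  ∃ part : V → Fin r, ∀ e ∈ F.edges, ∀ i : Fin r, ∃! v, v ∈ e ∧ part v = i

/-- Every vertex lies in at most `Δ` edges. -/
def RGraph.MaxDegreeLE {r : ℕ} {V : Type} (F : RGraph r V) (Δ : ℕ) : Prop :=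
  ∀ v, (F.edges.filter (fun e => v ∈ e)).card ≤ Δ

variable {r : ℕ} {V V' : Type} [Fintype V] [Fintype V']

theorem homDensity_eq_pr (F : RGraph r V) (H : RGraph r V') :
    homDensity F H = pr (fun φ : V → V' => IsHom F H φ) := by
  unfold homDensity pr
  have h : ((Fintype.card V' : ℝ) ^ Fintype.card V) = ((Fintype.card (V → V') : ℕ) : ℝ) := by
    rw [Fintype.card_fun]; push_cast; trivial
  rw [h]

theorem pr_not {Ω : Type*} [Fintype Ω] [Nonempty Ω] (P : Ω → Prop) :
    pr P + pr (fun ω => ¬ P ω) = 1 := by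
  have h1 : ∀ inst : DecidablePred (fun ω => ¬ P ω),
      (@Finset.filter _ (fun ω => ¬ P ω) inst univ) = (univ.filter P)ᶜ := by
    intro inst; ext ω; simp
  unfold pr
  rw [h1, ← add_div, div_eq_one_iff_eq (by exact_mod_cast Fintype.card_ne_zero)]
  have := card_add_card_compl (univ.filter P)
  exact_mod_cast this

/-- The ordered edges of `H`. -/
def ordEdge (H : RGraph r V') (x : Fin r → V') : Prop := univ.image x ∈ H.edges

theorem pr_ordEdge (H : RGraph r V') : pr (ordEdge H) = homDensity (oneEdge r) H := by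
  rw [homDensity_eq_pr]
  have h : (ordEdge H) = (fun φ : Fin r → V' => IsHom (oneEdge r) H φ) := by
    funext φ
    apply propext
    simp only [ordEdge, IsHom, oneEdge, mem_singleton, forall_eq]
  rw [h]
  exact pr_inst _ _ _

theorem of_mem_filter {Ω : Type*} {s : Finset Ω} {P : Ω → Prop} {inst : DecidablePred P} {x : Ω}
    (h : x ∈ @Finset.filter _ P inst s) : P x := ((@Finset.mem_filter _ P inst s x).1 h).2

/-- The ordered version of an edge. -/
theorem exists_tup [Nonempty V] {F : RGraph r V} {part : V → Fin r}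
    (hpart : ∀ e ∈ F.edges, ∀ i : Fin r, ∃! v, v ∈ e ∧ part v = i) :
    ∃ tup : Finset V → Fin r → V, ∀ e ∈ F.edges, (∀ i, tup e i ∈ e) ∧
      (∀ i, (part (tup e i) : ℕ) + i + 1 = r) ∧ (∀ v ∈ e, tup e (part v).rev = v) := by
  have h1 : ∀ e : Finset V, ∃ t : Fin r → V, e ∈ F.edges → (∀ i, t i ∈ e) ∧
      (∀ i, (part (t i) : ℕ) + i + 1 = r) ∧ (∀ v ∈ e, t (part v).rev = v) := by
    intro e
    by_cases he : e ∈ F.edges
    · have h2 := hpart e he
      choose t ht hu using h2
      refine ⟨fun i => t i.rev, fun _ => ⟨fun i => (ht i.rev).1, fun i => ?_, fun v hv => ?_⟩⟩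
      · rw [(ht i.rev).2, Fin.val_rev]
        have := i.2
        omega
      · show t ((part v).rev).rev = v
        rw [Fin.rev_rev]
        exact (hu (part v) v ⟨hv, rfl⟩).symm
    · exact ⟨fun _ => Classical.arbitrary V, fun h => absurd h he⟩
  choose tup htup using h1
  exact ⟨tup, fun e he => htup e he⟩

/-- The number of vertices in edges. -/
theorem card_cover (F : RGraph r V) : (F.edges.biUnion id).card ≤ r * F.edges.card := by
  calc _ ≤ ∑ e ∈ F.edges, (id e).card := card_biUnion_le
    _ = ∑ _e ∈ F.edges, r := sum_congr rfl (fun e he => F.card_edge e he)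
    _ = r * F.edges.card := by rw [sum_const, smul_eq_mul, mul_comm]

section

variable [Nonempty V] [Nonempty V'] (F : RGraph r V) (H : RGraph r V') {Δ : ℕ}
  {part : V → Fin r} {tup : Finset V → Fin r → V}

theorem image_tup (htup : ∀ e ∈ F.edges, (∀ i, tup e i ∈ e) ∧
      (∀ i, (part (tup e i) : ℕ) + i + 1 = r) ∧ (∀ v ∈ e, tup e (part v).rev = v))
    {e : Finset V} (he : e ∈ F.edges) (φ : V → V') :
    univ.image (φ ∘ tup e) = e.image φ := by
  obtain ⟨h1, h2, h3⟩ := htup e he
  ext v
  simp only [mem_image, mem_univ, true_and, Function.comp]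
  constructor
  · rintro ⟨i, rfl⟩
    exact ⟨tup e i, h1 i, rfl⟩
  · rintro ⟨w, hw, rfl⟩
    exact ⟨(part w).rev, by rw [h3 w hw]⟩

/-- The small density bound. -/
theorem small_bound {C : ℕ}
    (hC : ∀ (V' : Type) [Fintype V'] [Nonempty V'] (p : ℝ), 0 < p → p ≤ 1 / 2 →
    ∀ G : (Fin r → V') → Prop, p ≤ pr G → ∀ (W : Type) [Fintype W] (part : W → ℕ)
    (E : Finset (Fin r → W)), (∀ e ∈ E, ∀ i : Fin r, part (e i) + i + 1 = r) →
    (∀ w, (E.filter (fun e => ∃ i, e i = w)).card ≤ Δ) →
    ∀ (ι : Type) [Fintype ι] (Y : ι → Finset W) (B : ι → (W → V') → Prop),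
    (∀ c, ∀ w ∈ Y c, part w < r) →
    (∀ c (χ χ' : W → V'), (∀ w ∈ Y c, χ w = χ' w) → (B c χ ↔ B c χ')) →
    (∀ c, (Y c).card ≤ 0) → (∀ w, (univ.filter (fun c => w ∈ Y c)).card ≤ 0) →
    (∀ c, pr (B c) ≤ p ^ C) →
    p ^ (C * (univ.filter (fun w => part w < r)).card) ≤
      pr (fun φ : W → V' => (∀ e ∈ E, G (φ ∘ e)) ∧ ∀ c, ¬ B c φ))
    (hdeg : F.MaxDegreeLE Δ)
    (htup : ∀ e ∈ F.edges, (∀ i, tup e i ∈ e) ∧
      (∀ i, (part (tup e i) : ℕ) + i + 1 = r) ∧ (∀ v ∈ e, tup e (part v).rev = v))
    {p : ℝ} (hp : 0 < p) (hp2 : p ≤ 1 / 2) (hpH : p ≤ pr (ordEdge H)) :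
    p ^ (C * (r * F.edges.card)) ≤ homDensity F H := by
  have h := hC V' p hp hp2 (ordEdge H) hpH V
    (fun v => if v ∈ F.edges.biUnion id then (part v : ℕ) else r) (F.edges.image tup) (by
      intro e he i
      obtain ⟨f, hf, rfl⟩ := mem_image.1 he
      have h1 := htup f hf
      rw [if_pos (mem_biUnion.2 ⟨f, hf, h1.1 i⟩)]
      exact h1.2.1 i) (by
      intro w
      refine le_trans ?_ (hdeg w)
      refine (card_le_card (t := (F.edges.filter (fun e => w ∈ e)).image tup) ?_).trans
        card_image_le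
      intro e he
      rw [mem_filter] at he
      obtain ⟨h1, i, rfl⟩ := he
      obtain ⟨f, hf, rfl⟩ := mem_image.1 h1
      exact mem_image_of_mem _ (mem_filter.2 ⟨hf, (htup f hf).1 i⟩)) Empty
    (fun c => c.elim) (fun c => c.elim) (fun c => c.elim) (fun c => c.elim) (fun c => c.elim)
    (fun w => by simp) (fun c => c.elim)
  have hcard : (univ.filter (fun w : V =>
      (if w ∈ F.edges.biUnion id then (part w : ℕ) else r) < r)).card ≤ r * F.edges.card := by
    refine le_trans (card_le_card ?_) (card_cover F)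
    intro w hw
    rw [mem_filter] at hw
    by_contra hcon
    rw [if_neg hcon] at hw
    exact lt_irrefl _ hw.2
  rw [homDensity_eq_pr]
  calc p ^ (C * (r * F.edges.card)) ≤ _ := by
        apply pow_le_pow_of_le_one hp.le (by linarith)
        exact Nat.mul_le_mul_left C hcard
    _ ≤ _ := h
    _ ≤ _ := by
        apply pr_mono
        rintro φ ⟨h1, -⟩ e he
        have h2 := h1 (tup e) (mem_image_of_mem _ he)
        unfold ordEdge at h2
        rwa [image_tup F htup he] at h2

/-- The local lemma bound for densities close to 1. -/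
theorem large_bound (hr : 1 ≤ r) (hdeg : F.MaxDegreeLE Δ)
    (htup : ∀ e ∈ F.edges, (∀ i, tup e i ∈ e) ∧
      (∀ i, (part (tup e i) : ℕ) + i + 1 = r) ∧ (∀ v ∈ e, tup e (part v).rev = v))
    {δ : ℝ} (hδ0 : 0 ≤ δ) (hδ1 : δ < 1) (hδ : (Δ : ℝ) * δ * 2 ^ r ≤ 1 / 2)
    (hH : 1 - δ ≤ pr (ordEdge H)) :
    (1 - (Δ : ℝ) * δ * 2 ^ r) ^ (r * F.edges.card) ≤ homDensity F H := by
  have hcompl : ∀ e ∈ F.edges, pr (fun φ : V → V' => ¬ ordEdge H (φ ∘ tup e)) ≤ δ := by
    intro e he
    have h1 : pr (fun φ : V → V' => ordEdge H (φ ∘ tup e)) = pr (ordEdge H) := by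
      refine (pr_comp (tup e) (fun v => (part v).rev) univ ?_ (ordEdge H) ?_).trans
        (pr_inst _ _ _)
      · intro i _
        obtain ⟨h1, h2, h3⟩ := htup e he
        apply Fin.ext
        rw [Fin.val_rev]
        have := h2 i
        omega
      · intro χ χ' h
        have : χ = χ' := funext (fun x => h x (mem_univ x))
        rw [this]
    have h2 : pr (fun φ : V → V' => ordEdge H (φ ∘ tup e)) +
        pr (fun φ : V → V' => ¬ ordEdge H (φ ∘ tup e)) = 1 := pr_not _
    rw [h1] at h2
    linarith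
  have h0 : (0 : ℝ) < (Fintype.card (V → V') : ℝ) := by exact_mod_cast Fintype.card_pos
  have h := lll (fun _ : V => (univ : Finset V')) (fun _ => univ_nonempty)
    (fun e : {e // e ∈ F.edges} => e.1)
    (fun e φ => ¬ ordEdge H (φ ∘ tup e.1)) (by
      intro e χ χ' h
      have : χ ∘ tup e.1 = χ' ∘ tup e.1 := funext (fun i => h _ ((htup e.1 e.2).1 i))
      rw [this]) (m := r) (d := Δ) hδ0 hδ1 hδ le_rfl (by
      intro e
      have h1 := hcompl e.1 e.2
      unfold pr at h1
      rw [div_le_iff₀ h0] at h1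
      rw [Fintype.piFinset_univ, card_univ]
      exact h1) (fun e => (F.card_edge e.1 e.2).le) (by
      intro w
      refine le_trans ?_ (hdeg w)
      refine card_le_card_of_injOn (fun e => e.1) ?_ (fun a _ b _ h => Subtype.ext h)
      intro e he
      rw [mem_coe, mem_filter] at he ⊢
      exact ⟨e.2, he.2⟩) (F.edges.biUnion id) (fun e => subset_biUnion_of_mem id e.2)
  rw [Fintype.piFinset_univ, card_univ] at h
  rw [homDensity_eq_pr]
  refine le_of_mul_le_mul_right ?_ h0
  refine le_trans (le_trans ?_ h) (card_le_pr _ _ ?_)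
  · apply mul_le_mul_of_nonneg_right _ h0.le
    apply pow_le_pow_of_le_one
    · linarith
    · have : 0 ≤ (Δ : ℝ) * δ * 2 ^ r := by positivity
      linarith
    · exact card_cover F
  · intro φ hφ e he
    have h2 := (of_mem_filter hφ) ⟨e, he⟩
    rw [not_not] at h2
    unfold ordEdge at h2
    rwa [image_tup F htup he] at h2

end

/-- **Main theorem.** A polynomial lower bound for the homomorphism densities of `r`-partite
`r`-graphs of bounded maximum degree, linear in the number of edges in the exponent. -/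
theorem main (r : ℕ) (hr : 1 ≤ r) : ∃ f : ℕ → ℕ, ∀ (Δ : ℕ) (V : Type) [Fintype V]
    (F : RGraph r V), F.IsPartite → F.MaxDegreeLE Δ → ∀ (V' : Type) [Fintype V'] [Nonempty V']
    (H : RGraph r V'), homDensity (oneEdge r) H ^ (f Δ * F.edges.card) ≤ homDensity F H := by
  have hall := claim_all r
  choose C hC using fun Δ => hall Δ 0 0
  refine ⟨fun Δ => r * ((C Δ + 1) * (Δ * 2 ^ (r + 1) + 1)), ?_⟩
  intro Δ V _ F hF hdeg V' _ _ H
  rw [← pr_ordEdge]
  have hp0 := pr_nonneg (ordEdge H)
  have hp1 := pr_le_one (ordEdge H)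
  set p := pr (ordEdge H) with hp
  by_cases he0 : F.edges.card = 0
  · rw [he0, mul_zero, pow_zero, homDensity_eq_pr, pr_true]
    intro φ e he
    rw [card_eq_zero.1 he0] at he
    exact absurd he (notMem_empty e)
  obtain ⟨e₀, he₀⟩ : F.edges.Nonempty := card_pos.1 (Nat.pos_of_ne_zero he0)
  haveI : Nonempty V := by
    obtain ⟨v, _⟩ : e₀.Nonempty := by
      rw [← card_pos, F.card_edge e₀ he₀]; exact hr
    exact ⟨v⟩
  obtain ⟨part, hpart⟩ := hF
  obtain ⟨tup, htup⟩ := exists_tup hpart
  set K₁ := Δ * 2 ^ (r + 1) + 1 with hK₁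
  have hK₁pos : 1 ≤ K₁ := by omega
  by_cases hpz : p = 0
  · rw [hpz, zero_pow]
    · rw [homDensity_eq_pr]; exact pr_nonneg _
    · have : 0 < r * ((C Δ + 1) * K₁) * F.edges.card := by positivity
      exact this.ne'
  have hppos : 0 < p := lt_of_le_of_ne hp0 (Ne.symm hpz)
  by_cases hphalf : p ≤ 1 / 2
  · have h := small_bound F H (hC Δ) hdeg htup hppos hphalf le_rfl
    refine le_trans ?_ h
    apply pow_le_pow_of_le_one hp0 hp1
    calc C Δ * (r * F.edges.card) = r * (C Δ * 1) * F.edges.card := by ring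
      _ ≤ r * ((C Δ + 1) * K₁) * F.edges.card := by
          apply Nat.mul_le_mul_right
          apply Nat.mul_le_mul_left
          exact Nat.mul_le_mul (Nat.le_succ _) hK₁pos
  push Not at hphalf
  by_cases hbig : (1 - p) * K₁ ≤ 1
  · -- the local lemma case
    set δ := 1 - p with hδdef
    have hδ0 : 0 ≤ δ := by linarith
    have hδ1 : δ < 1 := by linarith
    set a : ℝ := (Δ : ℝ) * 2 ^ r with ha
    have ha0 : 0 ≤ a := by rw [ha]; positivity
    have hKa : (K₁ : ℝ) = 2 * a + 1 := by
      rw [hK₁, ha]; push_cast; ring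
    have haδ : a * δ ≤ 1 / 2 := by
      rw [hKa] at hbig
      nlinarith
    have hδ' : (Δ : ℝ) * δ * 2 ^ r = a * δ := by rw [ha]; ring
    have h := large_bound F H hr hdeg htup hδ0 hδ1 (by rw [hδ']; exact haδ)
      (by linarith)
    refine le_trans ?_ h
    rw [hδ']
    have hbase : p ^ K₁ ≤ 1 - a * δ := by
      have h1 : p ^ K₁ * (1 + K₁ * δ) ≤ 1 := by
        have hb := one_add_mul_le_pow (show (-2 : ℝ) ≤ δ by linarith) K₁
        calc p ^ K₁ * (1 + K₁ * δ) ≤ p ^ K₁ * (1 + δ) ^ K₁ :=
              mul_le_mul_of_nonneg_left hb (by positivity)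
          _ = (p * (1 + δ)) ^ K₁ := by rw [mul_pow]
          _ ≤ 1 := by
              apply pow_le_one₀ (by positivity)
              have : p = 1 - δ := by rw [hδdef]; ring
              rw [this]
              nlinarith
      have h2 : 1 ≤ (1 - a * δ) * (1 + K₁ * δ) := by
        rw [hKa] at hbig ⊢
        have : 0 ≤ δ * (a * (1 - (2 * a + 1) * δ) + 1) := by
          apply mul_nonneg hδ0
          have : 0 ≤ a * (1 - (2 * a + 1) * δ) := mul_nonneg ha0 (by linarith)
          linarith
        nlinarith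
      have h3 : 0 < 1 + K₁ * δ := by positivity
      exact le_of_mul_le_mul_right (h1.trans h2) h3
    calc p ^ (r * ((C Δ + 1) * K₁) * F.edges.card)
        ≤ p ^ (K₁ * (r * F.edges.card)) := by
          apply pow_le_pow_of_le_one hp0 hp1
          calc K₁ * (r * F.edges.card) = r * (1 * K₁) * F.edges.card := by ring
            _ ≤ r * ((C Δ + 1) * K₁) * F.edges.card := by
                apply Nat.mul_le_mul_right
                apply Nat.mul_le_mul_left
                exact Nat.mul_le_mul_right _ (by omega)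
      _ = (p ^ K₁) ^ (r * F.edges.card) := by rw [pow_mul]
      _ ≤ (1 - a * δ) ^ (r * F.edges.card) := pow_le_pow_left₀ (by positivity) hbase _
  · -- the middle range
    push Not at hbig
    have h := small_bound F H (hC Δ) hdeg htup (p := 1 / 2) (by norm_num) le_rfl hphalf.le
    refine le_trans ?_ h
    have hbase : p ^ K₁ ≤ 1 / 2 := by
      have h1 : p ^ K₁ * (1 + K₁ * (1 - p)) ≤ 1 := by
        have hb := one_add_mul_le_pow (show (-2 : ℝ) ≤ 1 - p by linarith) K₁
        calc p ^ K₁ * (1 + K₁ * (1 - p)) ≤ p ^ K₁ * (1 + (1 - p)) ^ K₁ :=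
              mul_le_mul_of_nonneg_left hb (by positivity)
          _ = (p * (1 + (1 - p))) ^ K₁ := by rw [mul_pow]
          _ ≤ 1 := by
              apply pow_le_one₀
              · apply mul_nonneg hp0; linarith
              · nlinarith [sq_nonneg (p - 1)]
      have h2 : 0 < p ^ K₁ := by positivity
      nlinarith
    calc p ^ (r * ((C Δ + 1) * K₁) * F.edges.card)
        ≤ p ^ (K₁ * (C Δ * (r * F.edges.card))) := by
          apply pow_le_pow_of_le_one hp0 hp1
          calc K₁ * (C Δ * (r * F.edges.card)) = r * (C Δ * K₁) * F.edges.card := by ring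
            _ ≤ r * ((C Δ + 1) * K₁) * F.edges.card := by
                apply Nat.mul_le_mul_right
                apply Nat.mul_le_mul_left
                exact Nat.mul_le_mul_right _ (by omega)
      _ = (p ^ K₁) ^ (C Δ * (r * F.edges.card)) := by rw [pow_mul]
      _ ≤ (1 / 2) ^ (C Δ * (r * F.edges.card)) := pow_le_pow_left₀ (by positivity) hbase _

end Pool.Agent.X46.SidF
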