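import Mathlib
import Pool.Agent.X46.SidFinal

/-!
# Sidorenko exponents
-/

set_option linter.all false

namespace Pool.Agent.X46.SidE

open Finset Classical Pool.Agent.X46.SidL Pool.Agent.X46.SidF Pool.Agent.X46.SidS

/-- The set of all `s ≥ 0` for which some `r`-graph `H` satisfies
`t_F(H) = t_{K_r^(r)}(H)^s > 0`. -/
def sidorenkoSet {r : ℕ} {V : Type} [Fintype V] (F : RGraph r V) : Set ℝ :=
  {s | 0 ≤ s ∧ ∃ (n : ℕ) (H : RGraph r (Fin n)), 0 < n ∧
    homDensity F H = homDensity (oneEdge r) H ^ s ∧ 0 < homDensity (oneEdge r) H ^ s}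

/-- The Sidorenko exponent `s(F)`. -/
noncomputable def sidorenkoExponent {r : ℕ} {V : Type} [Fintype V] (F : RGraph r V) : ℝ :=
  sSup (sidorenkoSet F)

theorem edge_density_lt_one {r : ℕ} (hr : 2 ≤ r) {V' : Type} [Fintype V'] [Nonempty V']
    (H : RGraph r V') : homDensity (oneEdge r) H < 1 := by
  rw [← pr_ordEdge]
  have h1 := pr_not (ordEdge H)
  have h2 : 0 < pr (fun x => ¬ ordEdge H x) := by
    have h3 := card_le_pr {fun _ : Fin r => Classical.arbitrary V'} (fun x => ¬ ordEdge H x) (by
      intro x hx h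
      rw [mem_singleton] at hx
      subst hx
      unfold ordEdge at h
      have h3 := H.card_edge _ h
      have h4 : (univ.image (fun _ : Fin r => Classical.arbitrary V')).card ≤ 1 := by
        rw [card_le_one]
        intro a ha b hb
        simp only [mem_image] at ha hb
        obtain ⟨_, _, rfl⟩ := ha
        obtain ⟨_, _, rfl⟩ := hb
        rfl
      omega)
    rw [card_singleton] at h3
    by_contra hcon
    push Not at hcon
    have h4 : pr (fun x => ¬ ordEdge H x) * (Fintype.card (Fin r → V') : ℝ) ≤ 0 :=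
      mul_nonpos_of_nonpos_of_nonneg hcon (by positivity)
    have h5 : ((1 : ℕ) : ℝ) ≤ 0 := h3.trans h4
    norm_num at h5
  linarith

theorem homDensity_nonneg {r : ℕ} {V V' : Type} [Fintype V] [Fintype V'] (F : RGraph r V)
    (H : RGraph r V') : 0 ≤ homDensity F H := by
  rw [homDensity_eq_pr]; exact pr_nonneg _

/-- From a polynomial lower bound to the Sidorenko exponent. -/
theorem exponent_le {r : ℕ} (hr : 2 ≤ r) {V : Type} [Fintype V] (F : RGraph r V) (K : ℕ)
    (h : ∀ (n : ℕ), 0 < n → ∀ H : RGraph r (Fin n),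
      homDensity (oneEdge r) H ^ K ≤ homDensity F H) :
    ∀ s ∈ sidorenkoSet F, s ≤ K := by
  rintro s ⟨hs0, n, H, hn, h1, h2⟩
  haveI : Nonempty (Fin n) := ⟨⟨0, hn⟩⟩
  have h3 := h n hn H
  have h4 := homDensity_nonneg (oneEdge r) H
  have h5 := edge_density_lt_one hr H
  set p := homDensity (oneEdge r) H with hp
  by_cases hp0 : p = 0
  · rw [hp0] at h2
    by_cases hs : s = 0
    · rw [hs]; positivity
    · rw [Real.zero_rpow hs] at h2
      exact absurd h2 (lt_irrefl _)
  · have hpos : 0 < p := lt_of_le_of_ne h4 (Ne.symm hp0)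
    by_contra hcon
    push Not at hcon
    have h6 := Real.rpow_lt_rpow_of_exponent_gt hpos h5 hcon
    rw [Real.rpow_natCast, ← h1] at h6
    linarith

theorem set_nonempty {r : ℕ} (hr : 2 ≤ r) {V : Type} [Fintype V] (F : RGraph r V)
    (hF : F.IsPartite) : (sidorenkoSet F).Nonempty := by
  haveI : Nonempty (Fin r) := ⟨⟨0, by omega⟩⟩
  obtain ⟨part, hpart⟩ := hF
  have h1 := edge_density_lt_one hr (oneEdge r)
  have hpos : ∀ {V : Type} [Fintype V] (F : RGraph r V) (part : V → Fin r),
      (∀ e ∈ F.edges, ∀ i : Fin r, ∃! v, v ∈ e ∧ part v = i) →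
      0 < homDensity F (oneEdge r) := by
    intro V _ F part hpart
    rw [homDensity_eq_pr]
    unfold pr
    apply div_pos
    · have : (univ.filter (fun φ => IsHom F (oneEdge r) φ)).Nonempty := by
        refine ⟨part, ?_⟩
        rw [mem_filter]
        refine ⟨mem_univ _, ?_⟩
        intro e he
        simp only [oneEdge, mem_singleton]
        ext i
        simp only [mem_image, mem_univ, iff_true]
        obtain ⟨v, ⟨hv, hv'⟩, -⟩ := hpart e he i
        exact ⟨v, hv, hv'⟩
      exact_mod_cast this.card_pos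
    · exact_mod_cast Fintype.card_pos
  have h2 : 0 < homDensity (oneEdge r) (oneEdge r) := by
    apply hpos (oneEdge r) id
    intro e he i
    simp only [oneEdge, mem_singleton] at he
    subst he
    exact ⟨i, ⟨mem_univ _, rfl⟩, fun y hy => hy.2⟩
  have h3 := hpos F part hpart
  have h4 : homDensity F (oneEdge r) ≤ 1 := by
    rw [homDensity_eq_pr]; exact pr_le_one _
  have hlog : Real.log (homDensity (oneEdge r) (oneEdge r)) < 0 := Real.log_neg h2 h1
  have heq : homDensity F (oneEdge r) = homDensity (oneEdge r) (oneEdge r) ^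
      (Real.log (homDensity F (oneEdge r)) / Real.log (homDensity (oneEdge r) (oneEdge r))) := by
    rw [Real.rpow_def_of_pos h2, mul_div_cancel₀ _ hlog.ne, Real.exp_log h3]
  refine ⟨Real.log (homDensity F (oneEdge r)) / Real.log (homDensity (oneEdge r) (oneEdge r)),
    ?_, r, oneEdge r, by omega, heq, ?_⟩
  · exact div_nonneg_of_nonpos (Real.log_nonpos h3.le h4) hlog.le
  · rw [← heq]; exact h3

end Pool.Agent.X46.SidE
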