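import Mathlib

/-!
# Composition of 3-graphs without 2-regular subgraphs on 6 vertices over O'Nan-free designs
-/

namespace Pool.Agent.X46.Onan

open Finset

variable {U : Type*} [Fintype U] [DecidableEq U]

/-- `F` is 2-regular: every vertex of `V(F)` (the union of the edges of `F`) lies in exactly two
edges of `F`. -/
def TwoRegular {W : Type*} [DecidableEq W] (F : Finset (Finset W)) : Prop :=
  ∀ v ∈ F.biUnion id, (F.filter (fun e => v ∈ e)).card = 2

/-- `H` has no 2-regular subgraph on exactly `2k` vertices. -/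
def NoTwoRegular {W : Type*} [DecidableEq W] (k : ℕ) (H : Finset (Finset W)) : Prop :=
  ∀ F ⊆ H, TwoRegular F → (F.biUnion id).card ≠ 2 * k

/-- In a 3-graph, a 2-regular subgraph on 6 vertices has 4 edges. -/
theorem card_eq_four {W : Type*} [DecidableEq W] {F : Finset (Finset W)}
    (h3 : ∀ e ∈ F, e.card = 3) (hF : TwoRegular F) (h6 : (F.biUnion id).card = 2 * 3) :
    F.card = 4 := by
  have h1 : ∑ e ∈ F, e.card = ∑ v ∈ F.biUnion id, (F.filter (fun e => v ∈ e)).card := by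
    simp_rw [card_filter]
    rw [sum_comm]
    apply sum_congr rfl
    intro e he
    rw [← card_filter]
    congr 1
    ext v
    simp only [mem_filter, mem_biUnion, id]
    constructor
    · intro hv; exact ⟨⟨e, he, hv⟩, hv⟩
    · intro hv; exact hv.2
  rw [sum_congr rfl h3, sum_congr rfl hF, sum_const, sum_const, h6] at h1
  simp only [smul_eq_mul] at h1
  omega

/-- A set of 3 elements with all its elements in exactly one of three sets each meeting it in at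
most one element meets each of them. -/
theorem meets {W : Type*} [DecidableEq W] {A B C D : Finset W} (hA : A.card = 3)
    (hcov : ∀ v ∈ A, v ∈ B ∨ v ∈ C ∨ v ∈ D)
    (hB : (A ∩ B).card ≤ 1) (hC : (A ∩ C).card ≤ 1) (hD : (A ∩ D).card ≤ 1) :
    (A ∩ B).Nonempty ∧ (A ∩ C).Nonempty ∧ (A ∩ D).Nonempty := by
  have h1 : A ⊆ (A ∩ B) ∪ ((A ∩ C) ∪ (A ∩ D)) := by
    intro v hv
    simp only [mem_union, mem_inter]
    rcases hcov v hv with h | h | h
    · exact Or.inl ⟨hv, h⟩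
    · exact Or.inr (Or.inl ⟨hv, h⟩)
    · exact Or.inr (Or.inr ⟨hv, h⟩)
  have h2 := card_le_card h1
  have h3 := card_union_le (A ∩ B) ((A ∩ C) ∪ (A ∩ D))
  have h4 := card_union_le (A ∩ C) (A ∩ D)
  refine ⟨?_, ?_, ?_⟩ <;> rw [← card_pos] <;> omega

/-- A linear space with all lines of size `b` and without O'Nan configurations. -/
structure GoodDesign (B : Finset (Finset U)) (b : ℕ) : Prop where
  card_block : ∀ β ∈ B, β.card = b
  exists_block : ∀ x y : U, x ≠ y → ∃ β ∈ B, x ∈ β ∧ y ∈ β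
  unique_block : ∀ x y : U, x ≠ y → ∀ β ∈ B, ∀ γ ∈ B, x ∈ β → y ∈ β → x ∈ γ → y ∈ γ → β = γ
  onan : ∀ β₁ ∈ B, ∀ β₂ ∈ B, ∀ β₃ ∈ B, ∀ β₄ ∈ B, ∀ a b c d e f : U,
    a ≠ b → a ≠ c → b ≠ c → a ≠ d → a ≠ e → d ≠ e → b ≠ d → b ≠ f → d ≠ f → c ≠ e → c ≠ f →
    e ≠ f →
    a ∈ β₁ → b ∈ β₁ → c ∈ β₁ → a ∈ β₂ → d ∈ β₂ → e ∈ β₂ → b ∈ β₃ → d ∈ β₃ → f ∈ β₃ →
    c ∈ β₄ → e ∈ β₄ → f ∈ β₄ → β₁ = β₂

omit [Fintype U] in
/-- If two edges lie in the same block then all do. -/
theorem same_block {B : Finset (Finset U)}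
    (huniq : ∀ x y : U, x ≠ y → ∀ β ∈ B, ∀ γ ∈ B, x ∈ β → y ∈ β → x ∈ γ → y ∈ γ → β = γ)
    {F : Finset (Finset U)} (h3 : ∀ e ∈ F, e.card = 3) (hblk : ∀ e ∈ F, ∃ β ∈ B, e ⊆ β)
    (hF : TwoRegular F) (h6 : (F.biUnion id).card = 2 * 3)
    {β : Finset U} (hβ : β ∈ B) {A A' : Finset U} (hA : A ∈ F) (hA' : A' ∈ F) (hne : A ≠ A')
    (hAβ : A ⊆ β) (hA'β : A' ⊆ β) : ∀ e ∈ F, e ⊆ β := by
  classical
  by_contra hcon
  push Not at hcon
  obtain ⟨C, hC, hCβ⟩ := hcon
  -- an edge not inside `β` has at most one point in `β`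
  have hone : ∀ e ∈ F, ¬ e ⊆ β → (e ∩ β).card ≤ 1 := by
    intro e he heβ
    by_contra h
    push Not at h
    obtain ⟨x, hx, y, hy, hxy⟩ := one_lt_card.1 h
    rw [mem_inter] at hx hy
    obtain ⟨γ, hγ, heγ⟩ := hblk e he
    have := huniq x y hxy β hβ γ hγ hx.2 hy.2 (heγ hx.1) (heγ hy.1)
    exact heβ (this ▸ heγ)
  set V := F.biUnion id with hV
  have hsub : ∀ e ∈ F, e ⊆ V := fun e he v hv => mem_biUnion.2 ⟨e, he, hv⟩
  -- `V ∩ β` has at least 4 points
  have h4 : 4 ≤ (V ∩ β).card := by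
    have h1 : A ∪ A' ⊆ V ∩ β := by
      intro v hv
      rcases mem_union.1 hv with h | h
      · exact mem_inter.2 ⟨hsub A hA h, hAβ h⟩
      · exact mem_inter.2 ⟨hsub A' hA' h, hA'β h⟩
    have h2 : 4 ≤ (A ∪ A').card := by
      by_contra h
      push Not at h
      have h5 : A ⊆ A ∪ A' := subset_union_left
      have h6' : A' ⊆ A ∪ A' := subset_union_right
      have h7 := eq_of_subset_of_card_le h5 (by rw [h3 A hA]; omega)
      have h8 := eq_of_subset_of_card_le h6' (by rw [h3 A' hA']; omega)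
      exact hne (h7.trans h8.symm)
    exact h2.trans (card_le_card h1)
  have h5 : (V \ β).card ≤ 2 := by
    have := card_inter_add_card_sdiff V β
    omega
  -- every edge outside `β` contains `V \ β`
  have hcont : ∀ e ∈ F, ¬ e ⊆ β → V \ β ⊆ e ∧ (e \ β).card = 2 ∧ V \ β = e \ β := by
    intro e he heβ
    have h1 := hone e he heβ
    have h2 := card_inter_add_card_sdiff e β
    rw [h3 e he] at h2
    have h6' : e \ β ⊆ V \ β := sdiff_subset_sdiff (hsub e he) subset_rfl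
    have h7 := eq_of_subset_of_card_le h6' (by omega)
    have h8 := card_le_card h6'
    exact ⟨h7 ▸ sdiff_subset, by omega, h7.symm⟩
  obtain ⟨hc1, hc2, hc3⟩ := hcont C hC hCβ
  obtain ⟨y, hy⟩ : (V \ β).Nonempty := by
    rw [hc3, ← card_pos]; omega
  have hyV : y ∈ V := (mem_sdiff.1 hy).1
  have hy2 := hF y hyV
  -- there is another edge through `y`
  obtain ⟨D, hD, hDC⟩ : ∃ D ∈ F.filter (fun e => y ∈ e), D ≠ C := by
    have hCm : C ∈ F.filter (fun e => y ∈ e) := mem_filter.2 ⟨hC, hc1 hy⟩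
    exact exists_mem_ne (by omega) C
  rw [mem_filter] at hD
  have hDβ : ¬ D ⊆ β := fun h => (mem_sdiff.1 hy).2 (h hD.2)
  obtain ⟨hd1, hd2, hd3⟩ := hcont D hD.1 hDβ
  -- `C` and `D` lie in the same block
  obtain ⟨γ, hγ, hCγ⟩ := hblk C hC
  obtain ⟨γ', hγ', hDγ'⟩ := hblk D hD.1
  obtain ⟨u, hu, v, hv, huv⟩ := one_lt_card.1 (show 1 < (V \ β).card by rw [hc3]; omega)
  have hγγ' : γ = γ' := huniq u v huv γ hγ γ' hγ' (hCγ (hc1 hu)) (hCγ (hc1 hv))
    (hDγ' (hd1 hu)) (hDγ' (hd1 hv))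
  -- the points of `C` and `D` in `β`
  have hCi : (C ∩ β).card = 1 := by
    have := card_inter_add_card_sdiff C β
    rw [h3 C hC] at this; omega
  have hDi : (D ∩ β).card = 1 := by
    have := card_inter_add_card_sdiff D β
    rw [h3 D hD.1] at this; omega
  obtain ⟨c, hc⟩ := card_eq_one.1 hCi
  obtain ⟨d, hd⟩ := card_eq_one.1 hDi
  have hcd : c ≠ d := by
    intro h
    apply hDC
    have e1 : D = (D \ β) ∪ (D ∩ β) := (sdiff_union_inter D β).symm
    have e2 : C = (C \ β) ∪ (C ∩ β) := (sdiff_union_inter C β).symm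
    rw [e1, e2, ← hd3, ← hc3, hc, hd, h]
  have hcm : c ∈ C ∩ β := hc ▸ mem_singleton_self c
  have hdm : d ∈ D ∩ β := hd ▸ mem_singleton_self d
  rw [mem_inter] at hcm hdm
  have hfin := huniq c d hcd β hβ γ hγ hcm.2 hdm.2 (hCγ hcm.1) (hγγ' ▸ hDγ' hdm.1)
  exact hCβ (hfin ▸ hCγ)

omit [Fintype U] in
/-- The composition has no 2-regular subgraph on 6 vertices. -/
theorem composition_free [Fintype U] {B : Finset (Finset U)} {b : ℕ} (hB : GoodDesign B b)
    {H : Finset (Finset U)} (h3 : ∀ e ∈ H, e.card = 3) (hblk : ∀ e ∈ H, ∃ β ∈ B, e ⊆ β)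
    (hloc : ∀ β ∈ B, NoTwoRegular 3 (H.filter (fun e => e ⊆ β))) : NoTwoRegular 3 H := by
  classical
  intro F hFH hF h6
  have h3' : ∀ e ∈ F, e.card = 3 := fun e he => h3 e (hFH he)
  have hblk' : ∀ e ∈ F, ∃ β ∈ B, e ⊆ β := fun e he => hblk e (hFH he)
  have hF4 := card_eq_four h3' hF h6
  -- no block contains two edges
  have hno : ∀ β ∈ B, ∀ A ∈ F, ∀ A' ∈ F, A ⊆ β → A' ⊆ β → A = A' := by
    intro β hβ A hA A' hA' h1 h2
    by_contra hne
    have h := same_block hB.unique_block h3' hblk' hF h6 hβ hA hA' hne h1 h2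
    refine hloc β hβ F ?_ hF h6
    intro e he
    exact mem_filter.2 ⟨hFH he, h e he⟩
  have hint : ∀ A ∈ F, ∀ A' ∈ F, A ≠ A' → (A ∩ A').card ≤ 1 := by
    intro A hA A' hA' hne
    by_contra h
    push Not at h
    obtain ⟨x, hx, y, hy, hxy⟩ := one_lt_card.1 h
    rw [mem_inter] at hx hy
    obtain ⟨β, hβ, h1⟩ := hblk' A hA
    obtain ⟨γ, hγ, h2⟩ := hblk' A' hA'
    have := hB.unique_block x y hxy β hβ γ hγ (h1 hx.1) (h1 hy.1) (h2 hx.2) (h2 hy.2)
    subst this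
    exact hne (hno β hβ A hA A' hA' h1 h2)
  -- list the edges
  obtain ⟨A₁, hA₁⟩ : F.Nonempty := by rw [← card_pos]; omega
  obtain ⟨A₂, A₃, A₄, h23, h24, h34, hE⟩ := card_eq_three.1
    (show (F.erase A₁).card = 3 by rw [card_erase_of_mem hA₁]; omega)
  have hm : ∀ A, A ∈ F ↔ A = A₁ ∨ A = A₂ ∨ A = A₃ ∨ A = A₄ := by
    intro A
    by_cases h : A = A₁
    · simp [h, hA₁]
    · have : A ∈ F ↔ A ∈ F.erase A₁ := by simp [h]
      rw [this, hE]
      simp [h]
  have hA₂ : A₂ ∈ F := (hm A₂).2 (by tauto)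
  have hA₃ : A₃ ∈ F := (hm A₃).2 (by tauto)
  have hA₄ : A₄ ∈ F := (hm A₄).2 (by tauto)
  have h12 : A₁ ≠ A₂ := by
    have : A₂ ∈ F.erase A₁ := by rw [hE]; simp
    exact (ne_of_mem_erase this).symm
  have h13 : A₁ ≠ A₃ := by
    have : A₃ ∈ F.erase A₁ := by rw [hE]; simp
    exact (ne_of_mem_erase this).symm
  have h14 : A₁ ≠ A₄ := by
    have : A₄ ∈ F.erase A₁ := by rw [hE]; simp
    exact (ne_of_mem_erase this).symm
  -- every point of an edge lies in exactly one other edge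
  have hother : ∀ A ∈ F, ∀ v ∈ A, ∃ A' ∈ F, A' ≠ A ∧ v ∈ A' := by
    intro A hA v hv
    have h2 := hF v (mem_biUnion.2 ⟨A, hA, hv⟩)
    obtain ⟨D, hD, hDA⟩ := exists_mem_ne (s := F.filter (fun e => v ∈ e)) (by omega) A
    rw [mem_filter] at hD
    exact ⟨D, hD.1, hDA, hD.2⟩
  have hthird : ∀ A ∈ F, ∀ A' ∈ F, ∀ A'' ∈ F, A ≠ A' → A ≠ A'' → A' ≠ A'' →
      ∀ v, v ∈ A → v ∈ A' → v ∈ A'' → False := by
    intro A hA A' hA' A'' hA'' h1 h2 h3'' v hv hv' hv''
    have h4 := hF v (mem_biUnion.2 ⟨A, hA, hv⟩)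
    have h5 : ({A, A', A''} : Finset (Finset U)) ⊆ F.filter (fun e => v ∈ e) := by
      intro X hX
      simp only [mem_insert, mem_singleton] at hX
      rcases hX with rfl | rfl | rfl
      · exact mem_filter.2 ⟨hA, hv⟩
      · exact mem_filter.2 ⟨hA', hv'⟩
      · exact mem_filter.2 ⟨hA'', hv''⟩
    have h6' := card_le_card h5
    rw [card_eq_three.2 ⟨A, A', A'', h1, h2, h3'', rfl⟩] at h6'
    omega
  have m1 := meets (h3' A₁ hA₁) (B := A₂) (C := A₃) (D := A₄) (by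
    intro v hv
    obtain ⟨A', hA', hne, hvA'⟩ := hother A₁ hA₁ v hv
    rcases (hm A').1 hA' with h | h | h | h
    · exact absurd h hne
    · exact Or.inl (h ▸ hvA')
    · exact Or.inr (Or.inl (h ▸ hvA'))
    · exact Or.inr (Or.inr (h ▸ hvA'))) (hint _ hA₁ _ hA₂ h12) (hint _ hA₁ _ hA₃ h13)
      (hint _ hA₁ _ hA₄ h14)
  have m2 := meets (h3' A₂ hA₂) (B := A₁) (C := A₃) (D := A₄) (by
    intro v hv
    obtain ⟨A', hA', hne, hvA'⟩ := hother A₂ hA₂ v hv
    rcases (hm A').1 hA' with h | h | h | h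
    · exact Or.inl (h ▸ hvA')
    · exact absurd h hne
    · exact Or.inr (Or.inl (h ▸ hvA'))
    · exact Or.inr (Or.inr (h ▸ hvA'))) (hint _ hA₂ _ hA₁ h12.symm) (hint _ hA₂ _ hA₃ h23)
      (hint _ hA₂ _ hA₄ h24)
  have m3 := meets (h3' A₃ hA₃) (B := A₁) (C := A₂) (D := A₄) (by
    intro v hv
    obtain ⟨A', hA', hne, hvA'⟩ := hother A₃ hA₃ v hv
    rcases (hm A').1 hA' with h | h | h | h
    · exact Or.inl (h ▸ hvA')
    · exact Or.inr (Or.inl (h ▸ hvA'))
    · exact absurd h hne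
    · exact Or.inr (Or.inr (h ▸ hvA'))) (hint _ hA₃ _ hA₁ h13.symm) (hint _ hA₃ _ hA₂ h23.symm)
      (hint _ hA₃ _ hA₄ h34)
  obtain ⟨⟨pa, ha⟩, ⟨pb, hb⟩, ⟨pc, hc⟩⟩ := m1
  obtain ⟨-, ⟨pd, hd⟩, ⟨pe, he⟩⟩ := m2
  obtain ⟨-, -, ⟨pf, hf⟩⟩ := m3
  rw [mem_inter] at ha hb hc hd he hf
  obtain ⟨β₁, hβ₁, h1⟩ := hblk' A₁ hA₁
  obtain ⟨β₂, hβ₂, h2⟩ := hblk' A₂ hA₂
  obtain ⟨β₃, hβ₃, h3b⟩ := hblk' A₃ hA₃
  obtain ⟨β₄, hβ₄, h4⟩ := hblk' A₄ hA₄
  have t123 := hthird A₁ hA₁ A₂ hA₂ A₃ hA₃ h12 h13 h23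
  have t124 := hthird A₁ hA₁ A₂ hA₂ A₄ hA₄ h12 h14 h24
  have t134 := hthird A₁ hA₁ A₃ hA₃ A₄ hA₄ h13 h14 h34
  have t234 := hthird A₂ hA₂ A₃ hA₃ A₄ hA₄ h23 h24 h34
  have hfin := hB.onan β₁ hβ₁ β₂ hβ₂ β₃ hβ₃ β₄ hβ₄ pa pb pc pd pe pf
    (by rintro rfl; exact t123 _ ha.1 ha.2 hb.2) (by rintro rfl; exact t124 _ ha.1 ha.2 hc.2)
    (by rintro rfl; exact t134 _ hb.1 hb.2 hc.2) (by rintro rfl; exact t123 _ ha.1 ha.2 hd.2)
    (by rintro rfl; exact t124 _ ha.1 ha.2 he.2) (by rintro rfl; exact t234 _ hd.1 hd.2 he.2)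
    (by rintro rfl; exact t123 _ hb.1 hd.1 hb.2) (by rintro rfl; exact t134 _ hb.1 hb.2 hf.2)
    (by rintro rfl; exact t234 _ hd.1 hd.2 hf.2) (by rintro rfl; exact t124 _ hc.1 he.1 hc.2)
    (by rintro rfl; exact t134 _ hc.1 hf.1 hc.2) (by rintro rfl; exact t234 _ he.1 hf.1 he.2)
    (h1 ha.1) (h1 hb.1) (h1 hc.1) (h2 ha.2) (h2 hd.1) (h2 he.1) (h3b hb.2) (h3b hd.2) (h3b hf.1)
    (h4 hc.2) (h4 he.2) (h4 hf.2)
  subst hfin
  exact h12 (hno β₁ hβ₁ A₁ hA₁ A₂ hA₂ h1 h2)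

/-- Transfer along an injection. -/
theorem noTwoRegular_map {W W' : Type*} [DecidableEq W] [DecidableEq W'] (f : W ↪ W') {k : ℕ}
    {H : Finset (Finset W)} (hH : NoTwoRegular k H) :
    NoTwoRegular k (H.image (fun e => e.map f)) := by
  classical
  intro F hF hreg hcard
  set F' : Finset (Finset W) := H.filter (fun e => e.map f ∈ F) with hF'
  have hinj : Function.Injective (fun e : Finset W => e.map f) := map_injective f
  have hFF' : F = F'.image (fun e => e.map f) := by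
    ext e
    simp only [mem_image, hF', mem_filter]
    constructor
    · intro he
      obtain ⟨e', he', rfl⟩ := mem_image.1 (hF he)
      exact ⟨e', ⟨he', he⟩, rfl⟩
    · rintro ⟨e', he', rfl⟩
      exact he'.2
  have hV : F.biUnion id = (F'.biUnion id).map f := by
    ext v
    simp only [mem_biUnion, id, mem_map]
    constructor
    · rintro ⟨e, he, hv⟩
      rw [hFF'] at he
      obtain ⟨e', he', rfl⟩ := mem_image.1 he
      obtain ⟨w, hw, rfl⟩ := mem_map.1 hv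
      exact ⟨w, ⟨e', he', hw⟩, rfl⟩
    · rintro ⟨w, ⟨e', he', hw⟩, rfl⟩
      refine ⟨e'.map f, ?_, mem_map_of_mem f hw⟩
      rw [hFF']
      exact mem_image_of_mem _ he'
  refine hH F' (filter_subset _ _) ?_ ?_
  · intro w hw
    have h1 : f w ∈ F.biUnion id := by rw [hV]; exact mem_map_of_mem f hw
    have h2 := hreg (f w) h1
    rw [← h2]
    rw [hFF', filter_image, card_image_of_injective _ hinj]
    congr 1
    ext e
    simp
  · rw [← hcard, hV, card_map]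

/-- **Composition.** A `C(b,2)`-edge 3-graph on `b` points without 2-regular subgraph on 6
vertices gives a `C(|U|,2)`-edge one on the point set of a good design with blocks of size `b`. -/
theorem composition {B : Finset (Finset U)} {b : ℕ} (hB : GoodDesign B b)
    (hb : ∃ H₀ : Finset (Finset (Fin b)), (∀ e ∈ H₀, e.card = 3) ∧ NoTwoRegular 3 H₀ ∧
      H₀.card = b.choose 2) :
    ∃ H : Finset (Finset U), (∀ e ∈ H, e.card = 3) ∧ NoTwoRegular 3 H ∧
      H.card = (Fintype.card U).choose 2 := by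
  classical
  obtain ⟨H₀, h03, h0f, h0c⟩ := hb
  have hloc : ∀ β ∈ B, ∃ Hβ : Finset (Finset U), (∀ e ∈ Hβ, e.card = 3 ∧ e ⊆ β) ∧
      NoTwoRegular 3 Hβ ∧ Hβ.card = b.choose 2 := by
    intro β hβ
    let g : Fin b ≃ β := (β.equivFinOfCardEq (hB.card_block β hβ)).symm
    let f : Fin b ↪ U := g.toEmbedding.trans (Function.Embedding.subtype _)
    refine ⟨H₀.image (fun e => e.map f), ?_, noTwoRegular_map f h0f, ?_⟩
    · intro e he
      obtain ⟨e', he', rfl⟩ := mem_image.1 he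
      refine ⟨by rw [card_map]; exact h03 e' he', ?_⟩
      intro v hv
      obtain ⟨w, -, rfl⟩ := mem_map.1 hv
      exact (g w).2
    · rw [card_image_of_injective _ (map_injective f), h0c]
  choose! Hb h1 h2 h3 using hloc
  set H : Finset (Finset U) := B.biUnion Hb with hH
  have hmemH : ∀ e, e ∈ H ↔ ∃ β ∈ B, e ∈ Hb β := by intro e; rw [hH, mem_biUnion]
  -- an edge lies in only one block
  have honly : ∀ β ∈ B, ∀ γ ∈ B, ∀ e : Finset U, e.card = 3 → e ⊆ β → e ⊆ γ → β = γ := by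
    intro β hβ γ hγ e he hβe hγe
    obtain ⟨x, hx, y, hy, hxy⟩ := one_lt_card.1 (show 1 < e.card by omega)
    exact hB.unique_block x y hxy β hβ γ hγ (hβe hx) (hβe hy) (hγe hx) (hγe hy)
  have hedge3 : ∀ e ∈ H, e.card = 3 := by
    intro e he
    obtain ⟨β, hβ, he'⟩ := (hmemH e).1 he
    exact (h1 β hβ e he').1
  refine ⟨H, hedge3, ?_, ?_⟩
  · apply composition_free hB hedge3
    · intro e he
      obtain ⟨β, hβ, he'⟩ := (hmemH e).1 he
      exact ⟨β, hβ, (h1 β hβ e he').2⟩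
    · intro β hβ
      have : H.filter (fun e => e ⊆ β) = Hb β := by
        ext e
        rw [mem_filter, hmemH]
        constructor
        · rintro ⟨⟨γ, hγ, he⟩, heβ⟩
          have h4 := h1 γ hγ e he
          have := honly γ hγ β hβ e h4.1 h4.2 heβ
          exact this ▸ he
        · intro he
          exact ⟨⟨β, hβ, he⟩, (h1 β hβ e he).2⟩
      rw [this]
      exact h2 β hβ
  · -- counting
    have hdisj : ∀ β ∈ B, ∀ γ ∈ B, β ≠ γ → Disjoint (Hb β) (Hb γ) := by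
      intro β hβ γ hγ hne
      rw [disjoint_left]
      intro e he he'
      exact hne (honly β hβ γ hγ e (h1 β hβ e he).1 (h1 β hβ e he).2 (h1 γ hγ e he').2)
    rw [hH, card_biUnion hdisj, sum_congr rfl h3]
    have hp : (powersetCard 2 (univ : Finset U)).card = ∑ β ∈ B, (powersetCard 2 β).card := by
      rw [← card_biUnion]
      · congr 1
        ext s
        simp only [mem_powersetCard, subset_univ, true_and, mem_biUnion]
        constructor
        · intro hs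
          obtain ⟨x, y, hxy, rfl⟩ := card_eq_two.1 hs
          obtain ⟨β, hβ, hx, hy⟩ := hB.exists_block x y hxy
          refine ⟨β, hβ, ?_, hs⟩
          intro z hz
          simp only [mem_insert, mem_singleton] at hz
          rcases hz with rfl | rfl <;> assumption
        · rintro ⟨β, hβ, hs, hs2⟩
          exact hs2
      · intro β hβ γ hγ hne
        rw [Function.onFun, disjoint_left]
        intro s hs hs'
        rw [mem_powersetCard] at hs hs'
        obtain ⟨x, y, hxy, rfl⟩ := card_eq_two.1 hs.2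
        exact hne (hB.unique_block x y hxy β hβ γ hγ (hs.1 (by simp)) (hs.1 (by simp))
          (hs'.1 (by simp)) (hs'.1 (by simp)))
    rw [card_powersetCard, card_univ] at hp
    rw [hp]
    apply sum_congr rfl
    intro β hβ
    rw [card_powersetCard, hB.card_block β hβ]

end Pool.Agent.X46.Onan
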