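import Mathlib
import Pool.Agent.X46.Onan

/-!
# The Hermitian unital is a linear space without O'Nan configurations
-/

set_option linter.all false

namespace Pool.Agent.X46.Unital

open Finset Pool.Agent.X46.Onan

section fibres

variable {K : Type*} [Field K] [Fintype K] [DecidableEq K]

theorem card_filter_root_le (p : Polynomial K) (hp : p ≠ 0) :
    (univ.filter (fun x => p.eval x = 0)).card ≤ p.natDegree := by
  have h1 : univ.filter (fun x => p.eval x = 0) ⊆ p.roots.toFinset := by
    intro x hx
    rw [mem_filter] at hx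
    rw [Multiset.mem_toFinset, Polynomial.mem_roots hp]
    exact hx.2
  calc _ ≤ p.roots.toFinset.card := card_le_card h1
    _ ≤ Multiset.card p.roots := Multiset.toFinset_card_le _
    _ ≤ p.natDegree := p.card_roots'

theorem sum_saturate {ι : Type*} {s : Finset ι} {f : ι → ℕ} {a c : ℕ} (hf : ∀ i ∈ s, f i ≤ a)
    (hs : s.card ≤ c) (hsum : ∑ i ∈ s, f i = a * c) : ∀ i ∈ s, f i = a := by
  intro i hi
  by_contra hne
  have h1 : ∑ i ∈ s, f i < ∑ _i ∈ s, a :=
    sum_lt_sum hf ⟨i, hi, lt_of_le_of_ne (hf i hi) hne⟩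
  rw [sum_const, smul_eq_mul, hsum] at h1
  have := Nat.mul_le_mul_left a hs
  rw [Nat.mul_comm s.card a] at h1
  omega

variable (σ : K →+* K) (q : ℕ)

theorem sigma_sigma (hσ : ∀ x, σ x = x ^ q) (hcard : Fintype.card K = q ^ 2) (x : K) :
    σ (σ x) = x := by
  rw [hσ, hσ, ← pow_mul, ← sq, ← hcard, FiniteField.pow_card]

theorem card_fix (hσ : ∀ x, σ x = x ^ q) (hq : 2 ≤ q) :
    (univ.filter (fun t : K => σ t = t)).card ≤ q := by
  have hd : (Polynomial.X ^ q + (-Polynomial.X : Polynomial K)).natDegree = q := by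
    rw [Polynomial.natDegree_add_eq_left_of_degree_lt, Polynomial.natDegree_X_pow]
    rw [Polynomial.degree_neg, Polynomial.degree_X, Polynomial.degree_X_pow]
    exact_mod_cast hq
  have h0 : (Polynomial.X ^ q + (-Polynomial.X : Polynomial K)) ≠ 0 := by
    intro h
    rw [h, Polynomial.natDegree_zero] at hd
    omega
  have h1 := card_filter_root_le _ h0
  rw [hd] at h1
  refine le_trans (card_le_card ?_) h1
  intro t ht
  rw [mem_filter] at ht ⊢
  refine ⟨mem_univ _, ?_⟩
  have h2 : t ^ q = t := by rw [← hσ]; exact ht.2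
  simp [h2]

theorem card_trace (hσ : ∀ x, σ x = x ^ q) (hcard : Fintype.card K = q ^ 2) (hq : 2 ≤ q)
    {t : K} (ht : σ t = t) : (univ.filter (fun y : K => y + σ y = t)).card = q := by
  have hle : ∀ t ∈ univ.filter (fun t : K => σ t = t),
      (univ.filter (fun y : K => y + σ y = t)).card ≤ q := by
    intro t _
    have hd : (Polynomial.X ^ q + (Polynomial.X - Polynomial.C t : Polynomial K)).natDegree
        = q := by
      rw [Polynomial.natDegree_add_eq_left_of_degree_lt, Polynomial.natDegree_X_pow]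
      rw [Polynomial.degree_X_sub_C, Polynomial.degree_X_pow]
      exact_mod_cast hq
    have h0 : (Polynomial.X ^ q + (Polynomial.X - Polynomial.C t : Polynomial K)) ≠ 0 := by
      intro h
      rw [h, Polynomial.natDegree_zero] at hd
      omega
    have h1 := card_filter_root_le _ h0
    rw [hd] at h1
    refine le_trans (card_le_card ?_) h1
    intro y hy
    rw [mem_filter] at hy ⊢
    refine ⟨mem_univ _, ?_⟩
    have h2 : y ^ q = t - y := by rw [← hσ]; linear_combination hy.2
    simp [h2]
  have hsum : ∑ t ∈ univ.filter (fun t : K => σ t = t),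
      (univ.filter (fun y : K => y + σ y = t)).card = q * q := by
    rw [← card_eq_sum_card_fiberwise, card_univ, hcard, sq]
    intro y _
    simp only [coe_filter, mem_univ, true_and, Set.mem_setOf_eq]
    rw [map_add, sigma_sigma σ q hσ hcard, add_comm]
  exact sum_saturate hle (card_fix σ q hσ hq) hsum t (mem_filter.2 ⟨mem_univ _, ht⟩)

theorem card_norm (hσ : ∀ x, σ x = x ^ q) (hcard : Fintype.card K = q ^ 2) (hq : 2 ≤ q)
    {e : K} (he : σ e = e) (he0 : e ≠ 0) :
    (univ.filter (fun x : K => x * σ x = e)).card = q + 1 := by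
  have hle : ∀ e ∈ (univ.filter (fun t : K => σ t = t)).erase 0,
      (univ.filter (fun x : K => x * σ x = e)).card ≤ q + 1 := by
    intro e _
    have h1 := card_filter_root_le _ (Polynomial.X_pow_sub_C_ne_zero (Nat.succ_pos q) e)
    rw [Polynomial.natDegree_X_pow_sub_C] at h1
    refine le_trans (card_le_card ?_) h1
    intro y hy
    rw [mem_filter] at hy ⊢
    refine ⟨mem_univ _, ?_⟩
    have h2 : y * y ^ q = e := by rw [← hσ]; exact hy.2
    simp [pow_succ, mul_comm, h2]
  have hE : ((univ.filter (fun t : K => σ t = t)).erase 0).card ≤ q - 1 := by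
    rw [card_erase_of_mem (by simp)]
    have := card_fix σ q hσ hq
    omega
  have hsum : ∑ e ∈ (univ.filter (fun t : K => σ t = t)).erase 0,
      (univ.filter (fun x : K => x * σ x = e)).card = (q + 1) * (q - 1) := by
    have h1 : ∀ e ∈ (univ.filter (fun t : K => σ t = t)).erase 0,
        (univ.filter (fun x : K => x * σ x = e)).card =
        (((univ : Finset K).erase 0).filter (fun x : K => x * σ x = e)).card := by
      intro e he
      congr 1
      ext x
      simp only [mem_filter, mem_univ, true_and, mem_erase, and_true]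
      constructor
      · intro hx
        refine ⟨?_, hx⟩
        rintro rfl
        rw [zero_mul] at hx
        exact (ne_of_mem_erase he) hx.symm
      · exact fun hx => hx.2
    rw [sum_congr rfl h1, ← card_eq_sum_card_fiberwise, card_erase_of_mem (mem_univ _),
      card_univ, hcard]
    · obtain ⟨k, rfl⟩ : ∃ k, q = k + 1 := ⟨q - 1, by omega⟩
      simp only [Nat.add_sub_cancel]
      have : (k + 1) ^ 2 = (k + 1 + 1) * k + 1 := by ring
      omega
    · intro x hx
      simp only [coe_erase, coe_univ, Set.mem_diff, Set.mem_univ, Set.mem_singleton_iff,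
        true_and] at hx
      simp only [coe_erase, coe_filter, mem_univ, true_and, Set.mem_diff, Set.mem_setOf_eq,
        Set.mem_singleton_iff]
      constructor
      · rw [map_mul, sigma_sigma σ q hσ hcard, mul_comm]
      · intro h
        rcases mul_eq_zero.1 h with h | h
        · exact hx h
        · exact hx ((map_eq_zero σ).1 h)
  exact sum_saturate hle hE hsum e (mem_erase.2 ⟨he0, mem_filter.2 ⟨mem_univ _, he⟩⟩)

end fibres

section onan

variable {K : Type*} [Field K]

/-- The determinant of three vectors. -/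
def det3 (a b c : K × K × K) : K :=
  a.1 * (b.2.1 * c.2.2 - b.2.2 * c.2.1) - a.2.1 * (b.1 * c.2.2 - b.2.2 * c.1) +
    a.2.2 * (b.1 * c.2.1 - b.2.1 * c.1)

/-- The Hermitian form. -/
def herm (σ : K →+* K) (u v : K × K × K) : K :=
  u.1 * σ v.2.2 + u.2.2 * σ v.1 + u.2.1 * σ v.2.1

theorem cramer0 (a b d c : K × K × K) :
    det3 a b d * c.1 = det3 c b d * a.1 + det3 a c d * b.1 + det3 a b c * d.1 := by
  unfold det3; ring

theorem cramer1 (a b d c : K × K × K) :
    det3 a b d * c.2.1 = det3 c b d * a.2.1 + det3 a c d * b.2.1 + det3 a b c * d.2.1 := by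
  unfold det3; ring

theorem cramer2 (a b d c : K × K × K) :
    det3 a b d * c.2.2 = det3 c b d * a.2.2 + det3 a c d * b.2.2 + det3 a b c * d.2.2 := by
  unfold det3; ring

theorem gram (σ : K →+* K) (a b d : K × K × K) (ha : herm σ a a = 0)
    (hb : herm σ b b = 0) (hd : herm σ d d = 0) :
    herm σ a b * herm σ d a * herm σ b d + herm σ b a * herm σ a d * herm σ d b =
      - (det3 a b d * σ (det3 a b d)) := by
  have h : herm σ a b * herm σ d a * herm σ b d + herm σ b a * herm σ a d * herm σ d b +
      det3 a b d * σ (det3 a b d) =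
      - (herm σ a a * (herm σ b b * herm σ d d - herm σ b d * herm σ d b)
        - herm σ a b * herm σ b a * herm σ d d - herm σ a d * herm σ b b * herm σ d a) := by
    simp only [det3, herm, map_add, map_sub, map_mul]
    ring
  rw [ha, hb, hd] at h
  linear_combination h

theorem herm_conj (σ : K →+* K) (hσσ : ∀ x, σ (σ x) = x) (a b : K × K × K) :
    σ (herm σ a b) = herm σ b a := by
  simp only [herm, map_add, map_mul, hσσ]
  ring

/-- The key computation behind O'Nan's theorem. -/
theorem onan_key (σ : K →+* K) (hσσ : ∀ x, σ (σ x) = x) (a b c d e f : K × K × K)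
    (ha : herm σ a a = 0) (hb : herm σ b b = 0) (hc : herm σ c c = 0) (hd : herm σ d d = 0)
    (he : herm σ e e = 0) (hf : herm σ f f = 0)
    (h1 : det3 a b c = 0) (h2 : det3 a e d = 0) (h3 : det3 f b d = 0) (h4 : det3 c e f = 0)
    (hD : det3 a b d ≠ 0) :
    det3 a c d = 0 ∨ det3 e b d = 0 ∨ det3 a b f = 0 := by
  set D := det3 a b d with hDdef
  set α := det3 c b d with hα
  set β := det3 a c d with hβ
  set γ := det3 e b d with hγ
  set δ := det3 a b e with hδ
  set ε := det3 a f d with hε
  set ζ := det3 a b f with hζ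
  have c0 := cramer0 a b d c
  have c1 := cramer1 a b d c
  have c2 := cramer2 a b d c
  have e0 := cramer0 a b d e
  have e1 := cramer1 a b d e
  have e2 := cramer2 a b d e
  have f0 := cramer0 a b d f
  have f1 := cramer1 a b d f
  have f2 := cramer2 a b d f
  rw [← hDdef, ← hα, ← hβ, h1, zero_mul, add_zero] at c0 c1 c2
  rw [← hDdef, ← hγ, ← hδ, h2, zero_mul, add_zero] at e0 e1 e2
  rw [← hDdef, ← hε, ← hζ, h3, zero_mul, zero_add] at f0 f1 f2
  -- isotropy of `c`, `e`, `f`
  have r1 : α * σ β * herm σ a b + σ α * β * herm σ b a = 0 := by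
    have h : D * σ D * herm σ c c = α * σ β * herm σ a b + σ α * β * herm σ b a +
        α * σ α * herm σ a a + β * σ β * herm σ b b := by
      have s0 := congrArg σ c0
      have s1 := congrArg σ c1
      have s2 := congrArg σ c2
      simp only [map_mul, map_add] at s0 s1 s2
      unfold herm
      calc D * σ D * (c.1 * σ c.2.2 + c.2.2 * σ c.1 + c.2.1 * σ c.2.1)
          = (D * c.1) * (σ D * σ c.2.2) + (D * c.2.2) * (σ D * σ c.1) +
            (D * c.2.1) * (σ D * σ c.2.1) := by ring
        _ = _ := by rw [c0, c1, c2, s0, s1, s2]; ring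
    rw [hc, ha, hb] at h
    linear_combination -h
  have r2 : γ * σ δ * herm σ a d + σ γ * δ * herm σ d a = 0 := by
    have h : D * σ D * herm σ e e = γ * σ δ * herm σ a d + σ γ * δ * herm σ d a +
        γ * σ γ * herm σ a a + δ * σ δ * herm σ d d := by
      have s0 := congrArg σ e0
      have s1 := congrArg σ e1
      have s2 := congrArg σ e2
      simp only [map_mul, map_add] at s0 s1 s2
      unfold herm
      calc D * σ D * (e.1 * σ e.2.2 + e.2.2 * σ e.1 + e.2.1 * σ e.2.1)
          = (D * e.1) * (σ D * σ e.2.2) + (D * e.2.2) * (σ D * σ e.1) +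
            (D * e.2.1) * (σ D * σ e.2.1) := by ring
        _ = _ := by rw [e0, e1, e2, s0, s1, s2]; ring
    rw [he, ha, hd] at h
    linear_combination -h
  have r3 : ε * σ ζ * herm σ b d + σ ε * ζ * herm σ d b = 0 := by
    have h : D * σ D * herm σ f f = ε * σ ζ * herm σ b d + σ ε * ζ * herm σ d b +
        ε * σ ε * herm σ b b + ζ * σ ζ * herm σ d d := by
      have s0 := congrArg σ f0
      have s1 := congrArg σ f1
      have s2 := congrArg σ f2
      simp only [map_mul, map_add] at s0 s1 s2
      unfold herm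
      calc D * σ D * (f.1 * σ f.2.2 + f.2.2 * σ f.1 + f.2.1 * σ f.2.1)
          = (D * f.1) * (σ D * σ f.2.2) + (D * f.2.2) * (σ D * σ f.1) +
            (D * f.2.1) * (σ D * σ f.2.1) := by ring
        _ = _ := by rw [f0, f1, f2, s0, s1, s2]; ring
    rw [hf, hb, hd] at h
    linear_combination -h
  -- collinearity of `c`, `e`, `f`
  have r4 : α * δ * ε = -(β * γ * ζ) := by
    have h : D * D * D * det3 c e f = - (α * δ * ε + β * γ * ζ) * D := by
      have : D * D * D * det3 c e f =
          (D * c.1) * ((D * e.2.1) * (D * f.2.2) - (D * e.2.2) * (D * f.2.1)) -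
          (D * c.2.1) * ((D * e.1) * (D * f.2.2) - (D * e.2.2) * (D * f.1)) +
          (D * c.2.2) * ((D * e.1) * (D * f.2.1) - (D * e.2.1) * (D * f.1)) := by
        unfold det3; ring
      rw [this, c0, c1, c2, e0, e1, e2, f0, f1, f2, hDdef]
      unfold det3; ring
    rw [h4, mul_zero] at h
    have h' := (mul_eq_zero.1 h.symm).resolve_right hD
    linear_combination -h'
  have r4' : σ α * σ δ * σ ε = -(σ β * σ γ * σ ζ) := by
    have := congrArg σ r4
    simpa only [map_mul, map_neg] using this
  have hg := gram σ a b d ha hb hd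
  have hfin : (β * γ * ζ) * (σ β * σ γ * σ ζ) *
      (herm σ a b * herm σ d a * herm σ b d + herm σ b a * herm σ a d * herm σ d b) = 0 := by
    have e1 : (β * γ * ζ) * (σ β * σ γ * σ ζ) * (herm σ a b * herm σ d a * herm σ b d) =
        - ((α * σ β * herm σ a b) * (σ γ * δ * herm σ d a) * (ε * σ ζ * herm σ b d)) := by
      linear_combination ((σ β * σ γ * σ ζ) * (herm σ a b * herm σ d a * herm σ b d)) * r4
    have e2 : α * σ β * herm σ a b = -(σ α * β * herm σ b a) := by linear_combination r1
    have e3 : σ γ * δ * herm σ d a = -(γ * σ δ * herm σ a d) := by linear_combination r2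
    have e4 : ε * σ ζ * herm σ b d = -(σ ε * ζ * herm σ d b) := by linear_combination r3
    rw [mul_add, e1, e2, e3, e4]
    linear_combination ((β * γ * ζ) * (herm σ b a * herm σ a d * herm σ d b)) * r4'
  rw [hg] at hfin
  have hsD : σ D ≠ 0 := fun h => hD ((map_eq_zero σ).1 h)
  rcases mul_eq_zero.1 hfin with h | h
  · rcases mul_eq_zero.1 h with h | h
    · rcases mul_eq_zero.1 h with h | h
      · rcases mul_eq_zero.1 h with h | h
        · exact Or.inl h
        · exact Or.inr (Or.inl h)
      · exact Or.inr (Or.inr h)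
    · rcases mul_eq_zero.1 h with h | h
      · rcases mul_eq_zero.1 h with h | h
        · exact Or.inl ((map_eq_zero σ).1 h)
        · exact Or.inr (Or.inl ((map_eq_zero σ).1 h))
      · exact Or.inr (Or.inr ((map_eq_zero σ).1 h))
  · rw [neg_eq_zero] at h
    rcases mul_eq_zero.1 h with h | h
    · exact absurd h hD
    · exact absurd h hsD

end onan

section design

variable {K : Type*} [Field K] [Fintype K] [DecidableEq K] (σ : K →+* K)

/-- The points of the Hermitian curve: the point at infinity `(0,0,1)` and the points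
`(1,x,y)` with `y + σ y + x σ x = 0`. -/
abbrev Pt : Type _ := Option {P : K × K // P.2 + σ P.2 + P.1 * σ P.1 = 0}

/-- Homogeneous coordinates of a point. -/
def vec : Pt σ → K × K × K
  | none => (0, 0, 1)
  | some P => (1, P.1.1, P.1.2)

/-- Homogeneous coordinates of a line. -/
def lin : K ⊕ (K × K) → K × K × K
  | Sum.inl c => (c, 1, 0)
  | Sum.inr p => (p.1, p.2, 1)

def dot (l v : K × K × K) : K := l.1 * v.1 + l.2.1 * v.2.1 + l.2.2 * v.2.2

/-- Incidence. -/
def On (P : Pt σ) (l : K ⊕ (K × K)) : Prop := dot (lin l) (vec σ P) = 0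

instance (l : K ⊕ (K × K)) : DecidablePred (fun P : Pt σ => On σ P l) :=
  fun P => inferInstanceAs (Decidable (dot (lin l) (vec σ P) = 0))

/-- The secant lines. -/
def Good : K ⊕ (K × K) → Prop
  | Sum.inl _ => True
  | Sum.inr p => p.1 + σ p.1 + p.2 * σ p.2 ≠ 0

/-- The point set of a line. -/
def blk (l : K ⊕ (K × K)) : Finset (Pt σ) := univ.filter (fun P => On σ P l)

omit [Fintype K] [DecidableEq K] in
theorem iso_vec (P : Pt σ) : herm σ (vec σ P) (vec σ P) = 0 := by
  rcases P with _ | ⟨P, hP⟩
  · simp [vec, herm]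
  · simp only [vec, herm, map_one]
    linear_combination hP

omit [Fintype K] [DecidableEq K] in
theorem not_parallel {P Q : Pt σ} (h : P ≠ Q) {s t : K}
    (h0 : s * (vec σ P).1 = t * (vec σ Q).1) (h1 : s * (vec σ P).2.1 = t * (vec σ Q).2.1)
    (h2 : s * (vec σ P).2.2 = t * (vec σ Q).2.2) : s = 0 := by
  rcases P with _ | ⟨P, hP⟩ <;> rcases Q with _ | ⟨Q, hQ⟩
  · exact absurd rfl h
  · simp only [vec, mul_zero, mul_one] at h0 h2
    rw [← h0] at h2
    simpa using h2
  · simp only [vec, mul_zero, mul_one] at h0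
    exact h0
  · simp only [vec, mul_one] at h0 h1 h2
    by_contra hs
    apply h
    subst h0
    have e1 := mul_left_cancel₀ hs h1
    have e2 := mul_left_cancel₀ hs h2
    congr 2
    exact Prod.ext e1 e2

omit [Fintype K] [DecidableEq K] in
theorem cross_ne {P Q : Pt σ} (h : P ≠ Q) :
    ¬ ((vec σ P).2.1 * (vec σ Q).2.2 - (vec σ P).2.2 * (vec σ Q).2.1 = 0 ∧
      (vec σ P).1 * (vec σ Q).2.2 - (vec σ P).2.2 * (vec σ Q).1 = 0 ∧
      (vec σ P).1 * (vec σ Q).2.1 - (vec σ P).2.1 * (vec σ Q).1 = 0) := by
  rintro ⟨h1, h2, h3⟩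
  rcases P with _ | ⟨P, hP⟩ <;> rcases Q with _ | ⟨Q, hQ⟩
  · exact absurd rfl h
  · simp [vec] at h2
  · simp [vec] at h2
  · simp only [vec, one_mul, mul_one] at h2 h3
    apply h
    congr 2
    exact Prod.ext (sub_eq_zero.1 h3).symm (sub_eq_zero.1 h2).symm

omit [Fintype K] [DecidableEq K] in
/-- Three points on a line have zero determinant. -/
theorem det_of_on {P Q R : Pt σ} {l : K ⊕ (K × K)} (hP : On σ P l) (hQ : On σ Q l)
    (hR : On σ R l) : det3 (vec σ P) (vec σ Q) (vec σ R) = 0 := by
  unfold On at hP hQ hR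
  unfold dot at hP hQ hR
  rcases l with c | p
  · simp only [lin] at hP hQ hR
    unfold det3
    linear_combination (-((vec σ Q).1 * (vec σ R).2.2 - (vec σ Q).2.2 * (vec σ R).1)) * hP +
      ((vec σ P).1 * (vec σ R).2.2 - (vec σ P).2.2 * (vec σ R).1) * hQ +
      (-((vec σ P).1 * (vec σ Q).2.2 - (vec σ P).2.2 * (vec σ Q).1)) * hR
  · simp only [lin] at hP hQ hR
    unfold det3
    linear_combination ((vec σ Q).1 * (vec σ R).2.1 - (vec σ Q).2.1 * (vec σ R).1) * hP +
      (-((vec σ P).1 * (vec σ R).2.1 - (vec σ P).2.1 * (vec σ R).1)) * hQ +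
      ((vec σ P).1 * (vec σ Q).2.1 - (vec σ P).2.1 * (vec σ Q).1) * hR

omit [Fintype K] [DecidableEq K] in
theorem on_of_det {P Q R : Pt σ} {l : K ⊕ (K × K)} (hne : P ≠ Q) (hP : On σ P l)
    (hQ : On σ Q l) (h : det3 (vec σ P) (vec σ Q) (vec σ R) = 0) : On σ R l := by
  unfold On at *
  unfold dot at *
  have hc := cross_ne σ hne
  set p := vec σ P
  set q := vec σ Q
  set r := vec σ R
  rcases l with c | k
  · simp only [lin] at hP hQ ⊢
    -- the cross product is a multiple of `(c, 1, 0)`
    have c2 : p.1 * q.2.1 - p.2.1 * q.1 = 0 := by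
      linear_combination p.1 * hQ - q.1 * hP
    have c0 : p.2.1 * q.2.2 - p.2.2 * q.2.1 = - c * (p.1 * q.2.2 - p.2.2 * q.1) := by
      linear_combination q.2.2 * hP - p.2.2 * hQ
    have hne' : p.1 * q.2.2 - p.2.2 * q.1 ≠ 0 := by
      intro h0
      exact hc ⟨by rw [c0, h0, mul_zero], h0, c2⟩
    have : (p.1 * q.2.2 - p.2.2 * q.1) * (c * r.1 + 1 * r.2.1 + 0 * r.2.2) = 0 := by
      unfold det3 at h
      linear_combination -h + r.1 * c0 + r.2.2 * c2
    exact (mul_eq_zero.1 this).resolve_left hne'
  · simp only [lin] at hP hQ ⊢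
    have c0 : p.2.1 * q.2.2 - p.2.2 * q.2.1 = k.1 * (p.1 * q.2.1 - p.2.1 * q.1) := by
      linear_combination p.2.1 * hQ - q.2.1 * hP
    have c1 : p.1 * q.2.2 - p.2.2 * q.1 = - k.2 * (p.1 * q.2.1 - p.2.1 * q.1) := by
      linear_combination p.1 * hQ - q.1 * hP
    have hne' : p.1 * q.2.1 - p.2.1 * q.1 ≠ 0 := by
      intro h0
      exact hc ⟨by rw [c0, h0, mul_zero], by rw [c1, h0, mul_zero], h0⟩
    have : (p.1 * q.2.1 - p.2.1 * q.1) * (k.1 * r.1 + k.2 * r.2.1 + 1 * r.2.2) = 0 := by
      unfold det3 at h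
      linear_combination h - r.1 * c0 + r.2.1 * c1
    exact (mul_eq_zero.1 this).resolve_left hne'

variable (q : ℕ)

/-- The number of points. -/
theorem card_pt (hσ : ∀ x, σ x = x ^ q) (hcard : Fintype.card K = q ^ 2) (hq : 2 ≤ q) :
    Fintype.card (Pt σ) = q ^ 3 + 1 := by
  rw [Fintype.card_option, Fintype.card_subtype]
  congr 1
  have h1 : (univ.filter (fun P : K × K => P.2 + σ P.2 + P.1 * σ P.1 = 0)).card =
      ∑ x : K, (univ.filter (fun y : K => y + σ y = -(x * σ x))).card := by
    simp_rw [card_filter]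
    rw [Fintype.sum_prod_type]
    apply sum_congr rfl
    intro x _
    apply sum_congr rfl
    intro y _
    congr 1
    apply propext
    constructor
    · intro h; linear_combination h
    · intro h; linear_combination h
  rw [h1]
  have h2 : ∀ x ∈ (univ : Finset K),
      (univ.filter (fun y : K => y + σ y = -(x * σ x))).card = q := by
    intro x _
    apply card_trace σ q hσ hcard hq
    rw [map_neg, map_mul, sigma_sigma σ q hσ hcard, mul_comm]
  rw [sum_congr rfl h2, sum_const, card_univ, hcard, smul_eq_mul]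
  ring

/-- The number of points on a secant line. -/
theorem card_blk (hσ : ∀ x, σ x = x ^ q) (hcard : Fintype.card K = q ^ 2) (hq : 2 ≤ q)
    {l : K ⊕ (K × K)} (hl : Good σ l) : (blk σ l).card = q + 1 := by
  have hσσ := sigma_sigma σ q hσ hcard
  unfold blk
  have hs : (∑ i : {P : K × K // P.2 + σ P.2 + P.1 * σ P.1 = 0},
      if On σ (some i) l then 1 else 0) =
      ((univ.filter (fun P : K × K => P.2 + σ P.2 + P.1 * σ P.1 = 0)).filter
        (fun P => dot (lin l) (1, P.1, P.2) = 0)).card := by
    rw [card_filter]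
    exact (Finset.sum_subtype _ (by simp)
      (fun P : K × K => if dot (lin l) (1, P.1, P.2) = 0 then 1 else 0)).symm
  rw [card_filter, Fintype.sum_option, hs]
  rcases l with c | ⟨k, m⟩
  · have h1 : On σ none (Sum.inl c) := by simp [On, dot, lin, vec]
    rw [if_pos h1, add_comm]
    congr 1
    have h2 : (univ.filter (fun y : K => y + σ y = -(c * σ c))).card = q := by
      apply card_trace σ q hσ hcard hq
      rw [map_neg, map_mul, hσσ, mul_comm]
    rw [← h2]
    apply card_nbij' (fun P => P.2) (fun y => (-c, y))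
    · intro P hP
      simp only [mem_coe, mem_filter, mem_univ, true_and] at hP ⊢
      simp only [dot, lin] at hP
      have hx : P.1 = -c := by linear_combination hP.2
      have := hP.1
      rw [hx, map_neg] at this
      linear_combination this
    · intro y hy
      simp only [mem_coe, mem_filter, mem_univ, true_and] at hy ⊢
      simp only [dot, lin, map_neg]
      exact ⟨by linear_combination hy, by ring⟩
    · intro P hP
      simp only [mem_coe, mem_filter, mem_univ, true_and] at hP ⊢
      simp only [dot, lin] at hP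
      have hx : P.1 = -c := by linear_combination hP.2
      exact Prod.ext hx.symm rfl
    · intro y hy
      rfl
  · have h1 : ¬ On σ none (Sum.inr (k, m)) := by simp [On, dot, lin, vec]
    rw [if_neg h1, zero_add]
    have he0 : k + σ k + m * σ m ≠ 0 := hl
    have h2 : (univ.filter (fun x : K => x * σ x = k + σ k + m * σ m)).card = q + 1 := by
      apply card_norm σ q hσ hcard hq _ he0
      rw [map_add, map_add, map_mul, hσσ, hσσ]
      ring
    rw [← h2]
    apply card_nbij' (fun P => P.1 - σ m) (fun z => (z + σ m, - k - m * (z + σ m)))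
    · intro P hP
      simp only [mem_coe, mem_filter, mem_univ, true_and] at hP ⊢
      simp only [dot, lin] at hP
      have hy : P.2 = - k - m * P.1 := by linear_combination hP.2
      have := hP.1
      rw [hy, map_sub, map_neg, map_mul] at this
      rw [map_sub, hσσ]
      linear_combination this
    · intro z hz
      simp only [mem_coe, mem_filter, mem_univ, true_and] at hz ⊢
      simp only [dot, lin, map_neg, map_sub, map_mul, map_add, hσσ]
      exact ⟨by linear_combination hz, by ring⟩
    · intro P hP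
      simp only [mem_coe, mem_filter, mem_univ, true_and] at hP ⊢
      simp only [dot, lin] at hP
      have hy : P.2 = - k - m * P.1 := by linear_combination hP.2
      refine Prod.ext (by simp) ?_
      simp only [sub_add_cancel]
      exact hy.symm
    · intro z hz
      simp

/-- Any two distinct points lie on a secant line. -/
theorem exists_line {P Q : Pt σ} (hne : P ≠ Q) (hσσ : ∀ x, σ (σ x) = x) :
    ∃ l, Good σ l ∧ On σ P l ∧ On σ Q l := by
  rcases P with _ | ⟨⟨x, y⟩, hP⟩ <;> rcases Q with _ | ⟨⟨x', y'⟩, hQ⟩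
  · exact absurd rfl hne
  · exact ⟨Sum.inl (-x'), trivial, by simp [On, dot, lin, vec], by simp [On, dot, lin, vec]⟩
  · exact ⟨Sum.inl (-x), trivial, by simp [On, dot, lin, vec], by simp [On, dot, lin, vec]⟩
  · simp only at hP hQ
    by_cases hx : x = x'
    · subst hx
      exact ⟨Sum.inl (-x), trivial, by simp [On, dot, lin, vec], by simp [On, dot, lin, vec]⟩
    · have hx' : x - x' ≠ 0 := sub_ne_zero.2 hx
      set m := -(y - y') / (x - x') with hm
      have hm' : m * (x - x') = -(y - y') := by rw [hm]; field_simp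
      refine ⟨Sum.inr (-y - m * x, m), ?_, ?_, ?_⟩
      · show (-y - m * x) + σ (-y - m * x) + m * σ m ≠ 0
        intro h0
        -- the line would be tangent
        have key : ∀ u v : K, v + σ v + u * σ u = 0 → (-y - m * x) + m * u + v = 0 →
            u = σ m := by
          intro u v huv hv
          have hv' : v = -(-y - m * x) - m * u := by linear_combination hv
          have e1 : (u - σ m) * σ (u - σ m) = 0 := by
            rw [hv'] at huv
            simp only [map_sub, map_neg, map_mul, hσσ] at huv h0 ⊢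
            linear_combination huv + h0
          rcases mul_eq_zero.1 e1 with h | h
          · exact sub_eq_zero.1 h
          · exact sub_eq_zero.1 ((map_eq_zero σ).1 h)
        have k1 := key x y hP (by ring)
        have k2 := key x' y' hQ (by linear_combination -hm')
        exact hx (k1.trans k2.symm)
      · simp only [On, dot, lin, vec]; ring
      · simp only [On, dot, lin, vec]; linear_combination -hm'

open Classical in
/-- **The Hermitian unital** is a linear space on `q^3+1` points with lines of size `q+1` and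
without O'Nan configurations. -/
theorem unital_good (hσ : ∀ x, σ x = x ^ q) (hcard : Fintype.card K = q ^ 2) (hq : 2 ≤ q) :
    GoodDesign ((univ.filter (fun l => Good σ l)).image (blk σ)) (q + 1) := by
  have hσσ := sigma_sigma σ q hσ hcard
  have hmem : ∀ β, β ∈ (univ.filter (fun l => Good σ l)).image (blk σ) ↔
      ∃ l, Good σ l ∧ blk σ l = β := by
    intro β; simp
  have hblk : ∀ P l, P ∈ blk σ l ↔ On σ P l := by intro P l; simp [blk]
  refine ⟨?_, ?_, ?_, ?_⟩
  · intro β hβ
    obtain ⟨l, hl, rfl⟩ := (hmem β).1 hβ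
    exact card_blk σ q hσ hcard hq hl
  · intro P Q hne
    obtain ⟨l, hl, h1, h2⟩ := exists_line σ hne hσσ
    exact ⟨blk σ l, (hmem _).2 ⟨l, hl, rfl⟩, (hblk _ _).2 h1, (hblk _ _).2 h2⟩
  · intro P Q hne β hβ γ hγ hPβ hQβ hPγ hQγ
    obtain ⟨l, hl, rfl⟩ := (hmem β).1 hβ
    obtain ⟨l', hl', rfl⟩ := (hmem γ).1 hγ
    rw [hblk] at hPβ hQβ hPγ hQγ
    ext R
    rw [hblk, hblk]
    exact ⟨fun h => on_of_det σ hne hPγ hQγ (det_of_on σ hPβ hQβ h),
      fun h => on_of_det σ hne hPβ hQβ (det_of_on σ hPγ hQγ h)⟩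
  · intro β₁ hβ₁ β₂ hβ₂ β₃ hβ₃ β₄ hβ₄ a b c d e f hab hac hbc had hae hde hbd hbf hdf hce hcf hef
      ha1 hb1 hc1 ha2 hd2 he2 hb3 hd3 hf3 hc4 he4 hf4
    obtain ⟨l₁, hl₁, rfl⟩ := (hmem β₁).1 hβ₁
    obtain ⟨l₂, hl₂, rfl⟩ := (hmem β₂).1 hβ₂
    obtain ⟨l₃, hl₃, rfl⟩ := (hmem β₃).1 hβ₃
    obtain ⟨l₄, hl₄, rfl⟩ := (hmem β₄).1 hβ₄
    rw [hblk] at ha1 hb1 hc1 ha2 hd2 he2 hb3 hd3 hf3 hc4 he4 hf4
    have hD : det3 (vec σ a) (vec σ b) (vec σ d) = 0 := by
      by_contra hD
      rcases onan_key σ hσσ (vec σ a) (vec σ b) (vec σ c) (vec σ d) (vec σ e) (vec σ f)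
        (iso_vec σ a) (iso_vec σ b) (iso_vec σ c) (iso_vec σ d) (iso_vec σ e) (iso_vec σ f)
        (det_of_on σ ha1 hb1 hc1) (det_of_on σ ha2 he2 hd2) (det_of_on σ hf3 hb3 hd3)
        (det_of_on σ hc4 he4 hf4) hD with h | h | h
      · have c0 := cramer0 (vec σ a) (vec σ b) (vec σ d) (vec σ c)
        have c1 := cramer1 (vec σ a) (vec σ b) (vec σ d) (vec σ c)
        have c2 := cramer2 (vec σ a) (vec σ b) (vec σ d) (vec σ c)
        rw [h, det_of_on σ ha1 hb1 hc1, zero_mul, zero_mul, add_zero, add_zero] at c0 c1 c2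
        exact hD (not_parallel σ hac.symm c0 c1 c2)
      · have c0 := cramer0 (vec σ a) (vec σ b) (vec σ d) (vec σ e)
        have c1 := cramer1 (vec σ a) (vec σ b) (vec σ d) (vec σ e)
        have c2 := cramer2 (vec σ a) (vec σ b) (vec σ d) (vec σ e)
        rw [h, det_of_on σ ha2 he2 hd2, zero_mul, zero_mul, zero_add, zero_add] at c0 c1 c2
        exact hD (not_parallel σ hde.symm c0 c1 c2)
      · have c0 := cramer0 (vec σ a) (vec σ b) (vec σ d) (vec σ f)
        have c1 := cramer1 (vec σ a) (vec σ b) (vec σ d) (vec σ f)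
        have c2 := cramer2 (vec σ a) (vec σ b) (vec σ d) (vec σ f)
        rw [h, det_of_on σ hf3 hb3 hd3, zero_mul, zero_mul, zero_add, add_zero] at c0 c1 c2
        exact hD (not_parallel σ hbf.symm c0 c1 c2)
    have hd1 : On σ d l₁ := on_of_det σ hab ha1 hb1 hD
    ext R
    rw [hblk, hblk]
    exact ⟨fun h => on_of_det σ had ha2 hd2 (det_of_on σ ha1 hd1 h),
      fun h => on_of_det σ had ha1 hd1 (det_of_on σ ha2 hd2 h)⟩

end design

end Pool.Agent.X46.Unital
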