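import Mathlib

set_option autoImplicit false

/-!
# Lovász's form of the Kruskal-Katona theorem with a real parameter, in terms of cliques

`bin x k = x (x-1) ... (x-k+1) / k!`.  A family of `bin x j` sets of size `j ≥ 1`, `x ≥ j - 1`, has
at most `bin x (j+1)` cliques of size `j + 1` (`clique_step`), and if it has a clique of size
`s ≥ j` then it has at most `bin x s` of them (`clique_bound`).
-/

namespace Pool.Agent.X46.LKK

open Finset

/-- `x (x-1) ... (x-k+1) / k!`. -/
noncomputable def bin (x : ℝ) (k : ℕ) : ℝ := (∏ i ∈ range k, (x - i)) / (k.factorial : ℝ)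

theorem bin_zero (x : ℝ) : bin x 0 = 1 := by simp [bin]

theorem bin_one (x : ℝ) : bin x 1 = x := by simp [bin]

theorem bin_succ (x : ℝ) (k : ℕ) : bin x (k + 1) = bin x k * (x - k) / (k + 1) := by
  unfold bin
  rw [prod_range_succ, Nat.factorial_succ]
  push_cast
  have : (k.factorial : ℝ) ≠ 0 := by exact_mod_cast (Nat.factorial_pos k).ne'
  field_simp

theorem bin_nat (n k : ℕ) : bin (n : ℝ) k = (n.choose k : ℝ) := by
  unfold bin
  have h : (n.choose k : ℝ) = (n.descFactorial k : ℝ) / (k.factorial : ℝ) := by
    rw [Nat.descFactorial_eq_factorial_mul_choose]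
    push_cast
    have : (k.factorial : ℝ) ≠ 0 := by exact_mod_cast (Nat.factorial_pos k).ne'
    field_simp
  rw [h, Nat.descFactorial_eq_prod_range]
  congr 1
  push_cast
  by_cases hk : k ≤ n
  · apply prod_congr rfl
    intro i hi
    rw [mem_range] at hi
    rw [Nat.cast_sub (by omega)]
  · push Not at hk
    rw [prod_eq_zero (mem_range.2 hk) (by simp), prod_eq_zero (mem_range.2 hk) (by simp)]

theorem bin_nonneg {x : ℝ} {k : ℕ} (h : (k : ℝ) - 1 ≤ x) : 0 ≤ bin x k := by
  unfold bin
  apply div_nonneg _ (by positivity)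
  apply prod_nonneg
  intro i hi
  rw [mem_range] at hi
  have : (i : ℝ) + 1 ≤ k := by exact_mod_cast hi
  linarith

theorem bin_pos {x : ℝ} {k : ℕ} (h : (k : ℝ) - 1 < x) : 0 < bin x k := by
  unfold bin
  apply div_pos _ (by positivity)
  apply prod_pos
  intro i hi
  rw [mem_range] at hi
  have : (i : ℝ) + 1 ≤ k := by exact_mod_cast hi
  linarith

theorem bin_mono {x y : ℝ} {k : ℕ} (h : (k : ℝ) - 1 ≤ x) (hxy : x ≤ y) : bin x k ≤ bin y k := by
  unfold bin
  apply div_le_div_of_nonneg_right _ (by positivity)
  apply prod_le_prod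
  · intro i hi
    rw [mem_range] at hi
    have : (i : ℝ) + 1 ≤ k := by exact_mod_cast hi
    linarith
  · intro i _
    linarith

theorem bin_strict {x y : ℝ} {k : ℕ} (hk : 1 ≤ k) (h : (k : ℝ) - 1 ≤ x) (hxy : x < y) :
    bin x k < bin y k := by
  obtain ⟨m, rfl⟩ : ∃ m, k = m + 1 := ⟨k - 1, by omega⟩
  rw [bin_succ, bin_succ]
  push_cast at h
  have h1 : 0 < bin x m := bin_pos (by linarith)
  have h2 : bin x m ≤ bin y m := bin_mono (by linarith) hxy.le
  apply div_lt_div_of_pos_right _ (by positivity)
  have h3 : 0 ≤ x - m := by linarith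
  nlinarith

theorem bin_continuous (k : ℕ) : Continuous (fun x : ℝ => bin x k) := by
  unfold bin
  fun_prop

theorem exists_bin {k : ℕ} (hk : 1 ≤ k) (d : ℝ) (hd : 0 ≤ d) :
    ∃ x : ℝ, (k : ℝ) - 1 ≤ x ∧ bin x k = d := by
  obtain ⟨m, rfl⟩ : ∃ m, k = m + 1 := ⟨k - 1, by omega⟩
  have hfac : (0 : ℝ) < ((m + 1).factorial : ℝ) := by exact_mod_cast Nat.factorial_pos _
  let b : ℝ := m + (d * ((m + 1).factorial : ℝ) + 1)
  have hb0 : (0 : ℝ) ≤ d * ((m + 1).factorial : ℝ) := by positivity
  have hab : (m : ℝ) ≤ b := by simp only [b]; linarith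
  have h1 : bin (m : ℝ) (m + 1) = 0 := by
    rw [bin_nat, Nat.choose_succ_self]; simp
  have h2 : d ≤ bin b (m + 1) := by
    unfold bin
    rw [le_div_iff₀ hfac]
    have h3 : ∏ i ∈ range (m + 1), (d * ((m + 1).factorial : ℝ) + 1) ≤
        ∏ i ∈ range (m + 1), (b - i) := by
      apply prod_le_prod
      · intro i _; linarith
      · intro i hi
        rw [mem_range] at hi
        have : (i : ℝ) ≤ m := by exact_mod_cast Nat.lt_succ_iff.1 hi
        simp only [b]; linarith
    rw [prod_const, card_range] at h3
    refine le_trans ?_ h3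
    have h4 : (1 : ℝ) ≤ d * ((m + 1).factorial : ℝ) + 1 := by linarith
    calc d * ((m + 1).factorial : ℝ) ≤ d * ((m + 1).factorial : ℝ) + 1 := by linarith
      _ = (d * ((m + 1).factorial : ℝ) + 1) ^ 1 := by rw [pow_one]
      _ ≤ _ := pow_le_pow_right₀ h4 (by omega)
  obtain ⟨x, hx, hxd⟩ := intermediate_value_Icc hab (bin_continuous (m + 1)).continuousOn
    (show d ∈ Set.Icc (bin (m : ℝ) (m + 1)) (bin b (m + 1)) from ⟨by rw [h1]; exact hd, h2⟩)
  exact ⟨x, by push_cast; linarith [hx.1], hxd⟩

/-- `bin y s * C(s, j) = bin y j * bin (y - j) (s - j)`. -/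
theorem bin_mul (y : ℝ) (j m : ℕ) :
    bin y (j + m) * ((j + m).choose j : ℝ) = bin y j * bin (y - j) m := by
  have h1 : ∏ i ∈ range (j + m), (y - (i : ℝ)) =
      (∏ i ∈ range j, (y - (i : ℝ))) * ∏ i ∈ range m, (y - j - (i : ℝ)) := by
    rw [prod_range_add]
    congr 1
    apply prod_congr rfl
    intro i _
    push_cast; ring
  have h2 : ((j + m).choose j : ℝ) * (j.factorial : ℝ) * (m.factorial : ℝ) =
      ((j + m).factorial : ℝ) := by
    rw [Nat.choose_symm_add]
    exact_mod_cast Nat.add_choose_mul_factorial_mul_factorial j m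
  unfold bin
  rw [h1, ← h2]
  have a1 : (j.factorial : ℝ) ≠ 0 := by exact_mod_cast (Nat.factorial_pos j).ne'
  have a2 : (m.factorial : ℝ) ≠ 0 := by exact_mod_cast (Nat.factorial_pos m).ne'
  have a3 : ((j + m).choose j : ℝ) ≠ 0 := by
    exact_mod_cast (Nat.choose_pos (Nat.le_add_right j m)).ne'
  field_simp

section cliques

variable {α : Type*} [Fintype α] [DecidableEq α]

/-- The sets of size `s` all of whose `j`-subsets are in `A`. -/
def cliques (j s : ℕ) (A : Finset (Finset α)) : Finset (Finset α) :=
  univ.filter (fun T => T.card = s ∧ powersetCard j T ⊆ A)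

theorem mem_cliques {j s : ℕ} {A : Finset (Finset α)} {T : Finset α} :
    T ∈ cliques j s A ↔ T.card = s ∧ ∀ S, S ⊆ T → S.card = j → S ∈ A := by
  simp only [cliques, mem_filter, mem_univ, true_and]
  constructor
  · rintro ⟨h1, h2⟩
    exact ⟨h1, fun S h3 h4 => h2 (mem_powersetCard.2 ⟨h3, h4⟩)⟩
  · rintro ⟨h1, h2⟩
    refine ⟨h1, fun S hS => ?_⟩
    rw [mem_powersetCard] at hS
    exact h2 S hS.1 hS.2

/-- The link of `v`. -/
def link (A : Finset (Finset α)) (v : α) : Finset (Finset α) :=
  (A.filter (fun e => v ∈ e)).image (fun e => e.erase v)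

theorem mem_link {A : Finset (Finset α)} {v : α} {S : Finset α} :
    S ∈ link A v ↔ v ∉ S ∧ insert v S ∈ A := by
  simp only [link, mem_image, mem_filter]
  constructor
  · rintro ⟨e, ⟨h1, h2⟩, rfl⟩
    exact ⟨notMem_erase v e, by rwa [insert_erase h2]⟩
  · rintro ⟨h1, h2⟩
    exact ⟨insert v S, ⟨h2, mem_insert_self v S⟩, erase_insert h1⟩

theorem card_link (A : Finset (Finset α)) (v : α) :
    (link A v).card = (A.filter (fun e => v ∈ e)).card := by
  apply card_image_of_injOn
  intro e he f hf h
  have he' : v ∈ e := (mem_filter.1 he).2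
  have hf' : v ∈ f := (mem_filter.1 hf).2
  have h' : e.erase v = f.erase v := h
  rw [← insert_erase he', h', insert_erase hf']

theorem sum_deg (A : Finset (Finset α)) (j : ℕ) (hA : ∀ e ∈ A, e.card = j) :
    ∑ v : α, (A.filter (fun e => v ∈ e)).card = j * A.card := by
  have : ∑ v : α, (A.filter (fun e => v ∈ e)).card = ∑ e ∈ A, e.card := by
    simp only [card_filter, card_eq_sum_ones, sum_filter]
    rw [sum_comm]
    apply sum_congr rfl
    intro e _
    rw [← sum_filter]
    simp
  rw [this, sum_congr rfl hA, sum_const, smul_eq_mul, mul_comm]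

/-- One step of the clique form of Lovász's theorem. -/
theorem clique_step (j : ℕ) (hj : 1 ≤ j) : ∀ (A : Finset (Finset α)) (x : ℝ),
    (∀ e ∈ A, e.card = j) → (j : ℝ) - 1 ≤ x → (A.card : ℝ) = bin x j →
    ((cliques j (j + 1) A).card : ℝ) ≤ bin x (j + 1) := by
  induction j, hj using Nat.le_induction with
  | base =>
    intro A x hA hx hc
    rw [bin_one] at hc
    -- pairs
    have h1 : (cliques 1 (1 + 1) A).card ≤ (powersetCard 2 A).card := by
      apply card_le_card_of_injOn (fun T => T.image (fun a => ({a} : Finset α)))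
      · intro T hT
        have hT' := mem_cliques.1 (mem_coe.1 hT)
        rw [mem_coe, mem_powersetCard]
        constructor
        · intro S hS
          rw [mem_image] at hS
          obtain ⟨a, ha, rfl⟩ := hS
          exact hT'.2 _ (singleton_subset_iff.2 ha) (card_singleton a)
        · rw [card_image_of_injective _ singleton_injective, hT'.1]
      · intro T _ T' _ h
        exact image_injective singleton_injective h
    have h2 : ((powersetCard 2 A).card : ℝ) = bin x (1 + 1) := by
      rw [card_powersetCard, ← hc, bin_nat]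
    rw [← h2]
    exact_mod_cast h1
  | succ j hj ih =>
    intro A x hA hx hc
    push_cast at hx
    -- the claim for one vertex
    have key : ∀ v : α, ((((cliques (j + 1) (j + 1 + 1) A).filter (fun T => v ∈ T)).card : ℕ) : ℝ)
        ≤ (x / (j + 1) - 1) * ((A.filter (fun e => v ∈ e)).card : ℝ) := by
      intro v
      have b1 : ((cliques (j + 1) (j + 1 + 1) A).filter (fun T => v ∈ T)).card ≤
          (cliques j (j + 1) (link A v)).card := by
        apply card_le_card_of_injOn (fun T => T.erase v)
        · intro T hT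
          rw [mem_coe, mem_filter] at hT
          have hT' := mem_cliques.1 hT.1
          rw [mem_coe, mem_cliques]
          refine ⟨by rw [card_erase_of_mem hT.2, hT'.1]; omega, fun S hS hSc => ?_⟩
          have hvS : v ∉ S := fun h => notMem_erase v T (hS h)
          rw [mem_link]
          refine ⟨hvS, hT'.2 _ ?_ ?_⟩
          · exact insert_subset hT.2 (hS.trans (erase_subset _ _))
          · rw [card_insert_of_notMem hvS, hSc]
        · intro T hT T' hT' h
          rw [mem_coe, mem_filter] at hT hT'
          have h' : T.erase v = T'.erase v := h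
          rw [← insert_erase hT.2, h', insert_erase hT'.2]
      have b2 : ((cliques (j + 1) (j + 1 + 1) A).filter (fun T => v ∈ T)).card +
          (A.filter (fun e => v ∈ e)).card ≤ A.card := by
        have h1 : ((cliques (j + 1) (j + 1 + 1) A).filter (fun T => v ∈ T)).card ≤
            (A.filter (fun e => ¬ v ∈ e)).card := by
          apply card_le_card_of_injOn (fun T => T.erase v)
          · intro T hT
            rw [mem_coe, mem_filter] at hT
            have hT' := mem_cliques.1 hT.1
            rw [mem_coe, mem_filter]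
            exact ⟨hT'.2 _ (erase_subset _ _) (by rw [card_erase_of_mem hT.2, hT'.1]; omega),
              notMem_erase v T⟩
          · intro T hT T' hT' h
            rw [mem_coe, mem_filter] at hT hT'
            have h' : T.erase v = T'.erase v := h
            rw [← insert_erase hT.2, h', insert_erase hT'.2]
        have h2 := card_filter_add_card_filter_not (s := A) (fun e => v ∈ e)
        omega
      rcases Nat.eq_zero_or_pos (A.filter (fun e => v ∈ e)).card with h0 | hpos
      · -- no edge at `v`
        have h1 : ((cliques (j + 1) (j + 1 + 1) A).filter (fun T => v ∈ T)).card = 0 := by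
          rw [card_eq_zero, filter_eq_empty_iff]
          intro T hT hvT
          have hT' := mem_cliques.1 hT
          obtain ⟨S, hvS, hST, hSc⟩ : ∃ S, v ∈ S ∧ S ⊆ T ∧ S.card = j + 1 := by
            obtain ⟨S, h1, h2, h3⟩ := exists_subsuperset_card_eq (s := {v}) (t := T) (n := j + 1)
              (singleton_subset_iff.2 hvT) (by rw [card_singleton]; omega) (by omega)
            exact ⟨S, singleton_subset_iff.1 h1, h2, h3⟩
          rw [card_eq_zero, filter_eq_empty_iff] at h0
          exact h0 (hT'.2 S hST hSc) hvS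
        rw [h0, h1]; simp
      · obtain ⟨y, hy, hyd⟩ := exists_bin hj ((A.filter (fun e => v ∈ e)).card : ℝ) (by positivity)
        have hlc : ((link A v).card : ℝ) = bin y j := by rw [card_link, hyd]
        have hl := ih (link A v) y (by
          intro S hS
          rw [mem_link] at hS
          have := hA _ hS.2
          rw [card_insert_of_notMem hS.1] at this
          omega) hy hlc
        rw [bin_succ, hyd] at hl
        have b1' : ((((cliques (j + 1) (j + 1 + 1) A).filter (fun T => v ∈ T)).card : ℕ) : ℝ) ≤
            ((A.filter (fun e => v ∈ e)).card : ℝ) * (y - j) / (j + 1) :=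
          le_trans (by exact_mod_cast b1) hl
        have hdpos : (0 : ℝ) < ((A.filter (fun e => v ∈ e)).card : ℝ) := by exact_mod_cast hpos
        by_cases hyx : y ≤ x - 1
        · refine b1'.trans ?_
          have h3 : (y - j) / (j + 1) ≤ x / (j + 1) - 1 := by
            rw [div_sub_one (by positivity)]
            apply div_le_div_of_nonneg_right _ (by positivity)
            linarith
          calc ((A.filter (fun e => v ∈ e)).card : ℝ) * (y - j) / (j + 1)
              = (y - j) / (j + 1) * ((A.filter (fun e => v ∈ e)).card : ℝ) := by ring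
            _ ≤ _ := mul_le_mul_of_nonneg_right h3 hdpos.le
        · push Not at hyx
          -- `d(v) ≥ bin (x-1) j`
          have h4 : bin (x - 1) j ≤ ((A.filter (fun e => v ∈ e)).card : ℝ) := by
            rw [← hyd]
            by_cases h5 : (j : ℝ) - 1 ≤ x - 1
            · exact bin_mono h5 hyx.le
            · push Not at h5
              exfalso
              linarith
          have h5 : (A.card : ℝ) = x / (j + 1) * bin (x - 1) j := by
            rw [hc]
            have := bin_mul x 1 j
            rw [bin_one] at this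
            have h6 : ((1 + j).choose 1 : ℝ) = j + 1 := by
              rw [Nat.choose_one_right]; push_cast; ring
            rw [h6, add_comm 1 j] at this
            push_cast at this
            field_simp
            linarith
          have b2' : ((((cliques (j + 1) (j + 1 + 1) A).filter (fun T => v ∈ T)).card : ℕ) : ℝ) +
              ((A.filter (fun e => v ∈ e)).card : ℝ) ≤ (A.card : ℝ) := by exact_mod_cast b2
          have h7 : 0 ≤ x / (j + 1) := by
            apply div_nonneg _ (by positivity)
            have : (0 : ℝ) ≤ j := by positivity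
            linarith
          have h8 := mul_le_mul_of_nonneg_left h4 h7
          rw [← h5] at h8
          have : (x / (j + 1) - 1) * ((A.filter (fun e => v ∈ e)).card : ℝ) =
            x / (j + 1) * ((A.filter (fun e => v ∈ e)).card : ℝ) -
              ((A.filter (fun e => v ∈ e)).card : ℝ) := by ring
          rw [this]
          linarith
    have hsum := sum_le_sum (fun v (_ : v ∈ (univ : Finset α)) => key v)
    rw [← mul_sum] at hsum
    have e1 : ∑ v : α, ((((cliques (j + 1) (j + 1 + 1) A).filter (fun T => v ∈ T)).card : ℕ) : ℝ) =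
        ((j : ℝ) + 2) * ((cliques (j + 1) (j + 1 + 1) A).card : ℝ) := by
      have := sum_deg (cliques (j + 1) (j + 1 + 1) A) (j + 1 + 1)
        (fun T hT => (mem_cliques.1 hT).1)
      have h2 : ((∑ v : α, ((cliques (j + 1) (j + 1 + 1) A).filter (fun T => v ∈ T)).card : ℕ) : ℝ)
        = (((j + 1 + 1) * (cliques (j + 1) (j + 1 + 1) A).card : ℕ) : ℝ) := by rw [this]
      push_cast at h2
      rw [h2]; ring
    have e2 : ∑ v : α, ((A.filter (fun e => v ∈ e)).card : ℝ) = ((j : ℝ) + 1) * (A.card : ℝ) := by
      have := sum_deg A (j + 1) hA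
      have h2 : ((∑ v : α, (A.filter (fun e => v ∈ e)).card : ℕ) : ℝ)
        = (((j + 1) * A.card : ℕ) : ℝ) := by rw [this]
      push_cast at h2
      exact h2
    rw [e1, e2, hc] at hsum
    rw [bin_succ]
    push_cast
    rw [le_div_iff₀ (by positivity)]
    have e3 : (x / (j + 1) - 1) * (((j : ℝ) + 1) * bin x (j + 1)) =
        bin x (j + 1) * (x - (j + 1)) := by
      field_simp
    rw [e3] at hsum
    calc ((cliques (j + 1) (j + 1 + 1) A).card : ℝ) * ((j : ℝ) + 1 + 1)
        = ((j : ℝ) + 2) * ((cliques (j + 1) (j + 1 + 1) A).card : ℝ) := by ring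
      _ ≤ _ := hsum

theorem clique_le_x {j s : ℕ} (hj : 1 ≤ j) (hjs : j ≤ s) {A : Finset (Finset α)} {x : ℝ}
    (hx : (j : ℝ) - 1 ≤ x) (hc : (A.card : ℝ) = bin x j) (hne : (cliques j s A).Nonempty) :
    (s : ℝ) ≤ x := by
  obtain ⟨T, hT⟩ := hne
  rw [mem_cliques] at hT
  have h1 : (powersetCard j T).card ≤ A.card := card_le_card (fun S hS => by
    rw [mem_powersetCard] at hS
    exact hT.2 S hS.1 hS.2)
  rw [card_powersetCard, hT.1] at h1
  by_contra hcon
  push Not at hcon
  have h2 := bin_strict hj hx hcon
  rw [bin_nat, ← hc] at h2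
  exact absurd h1 (not_le.2 (by exact_mod_cast h2))

/-- **Lovász's theorem, clique form.** -/
theorem clique_bound {j : ℕ} (hj : 1 ≤ j) {A : Finset (Finset α)} {x : ℝ}
    (hA : ∀ e ∈ A, e.card = j) (hx : (j : ℝ) - 1 ≤ x) (hc : (A.card : ℝ) = bin x j) :
    ∀ s, j ≤ s → (cliques j s A).Nonempty → ((cliques j s A).card : ℝ) ≤ bin x s := by
  intro s hs
  induction s, hs using Nat.le_induction with
  | base =>
    intro _
    have h1 : cliques j j A ⊆ A := by
      intro T hT
      rw [mem_cliques] at hT
      exact hT.2 T subset_rfl hT.1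
    rw [← hc]
    exact_mod_cast card_le_card h1
  | succ s hs ih =>
    intro hne
    obtain ⟨T, hT⟩ := hne
    have hT' := mem_cliques.1 hT
    have hsx := clique_le_x hj (by omega) hx hc ⟨T, hT⟩
    -- the family of `s`-cliques
    have hsub : cliques j (s + 1) A ⊆ cliques s (s + 1) (cliques j s A) := by
      intro U hU
      rw [mem_cliques] at hU ⊢
      refine ⟨hU.1, fun S hS hSc => ?_⟩
      rw [mem_cliques]
      exact ⟨hSc, fun R hR hRc => hU.2 R (hR.trans hS) hRc⟩
    have hne' : (cliques j s A).Nonempty := by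
      have h1 := mem_cliques.1 (hsub hT)
      obtain ⟨S, hS1, hS2⟩ := exists_subset_card_eq (s := T) (n := s) (by omega)
      exact ⟨S, h1.2 S hS1 hS2⟩
    have h1 := ih hne'
    obtain ⟨y, hy, hyd⟩ := exists_bin (by omega : 1 ≤ s) ((cliques j s A).card : ℝ) (by positivity)
    have h2 := clique_step s (by omega) (cliques j s A) y
      (fun e he => (mem_cliques.1 he).1) hy hyd.symm
    have hsy := clique_le_x (by omega : 1 ≤ s) (by omega : s ≤ s + 1) hy hyd.symm ⟨T, hsub hT⟩
    have hyx : y ≤ x := by
      by_contra hcon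
      push Not at hcon
      push_cast at hsx
      have := bin_strict (by omega : 1 ≤ s) (by linarith) hcon
      rw [hyd] at this
      linarith
    push_cast at hsy
    calc ((cliques j (s + 1) A).card : ℝ) ≤ ((cliques s (s + 1) (cliques j s A)).card : ℝ) := by
          exact_mod_cast card_le_card hsub
      _ ≤ bin y (s + 1) := h2
      _ ≤ bin x (s + 1) := bin_mono (by push_cast; linarith) hyx

end cliques

end Pool.Agent.X46.LKK
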