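import Mathlib

/-! Large independent sets of graphs whose adjacency matrix has small rank over `F_2`. -/

set_option autoImplicit false
open Finset Module

namespace Pool.Agent.X46.Rk

/-- the span of the columns -/
noncomputable def W {ι : Type} (A : ι → ι → ZMod 2) : Submodule (ZMod 2) (ι → ZMod 2) :=
  Submodule.span (ZMod 2) (Set.range fun j => fun i => A i j)

theorem col_mem {ι : Type} (A : ι → ι → ZMod 2) (j : ι) : (fun i => A i j) ∈ W A :=
  Submodule.subset_span ⟨j, rfl⟩

theorem quad_zero {ι : Type} [Fintype ι] [DecidableEq ι] (A : ι → ι → ZMod 2)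
    (hs : ∀ i j, A i j = A j i) (h0 : ∀ i, A i i = 0) (c : ι → ZMod 2) :
    ∑ j, c j * ∑ i, c i * A j i = 0 := by
  have h1 : ∑ j, c j * ∑ i, c i * A j i = ∑ p : ι × ι, c p.1 * (c p.2 * A p.1 p.2) := by
    rw [Fintype.sum_prod_type]
    exact sum_congr rfl fun j _ => mul_sum _ _ _
  rw [h1]
  refine Finset.sum_involution (fun p _ => (p.2, p.1)) ?_ ?_ (fun _ _ => mem_univ _) ?_
  · intro p _
    have : c p.2 * (c p.1 * A p.2 p.1) = c p.1 * (c p.2 * A p.1 p.2) := by
      rw [hs p.2 p.1]; ring
    simp only [this]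
    exact CharTwo.add_self_eq_zero _
  · intro p _ hp heq
    apply hp
    have : p.1 = p.2 := (Prod.ext_iff.1 heq).2
    rw [this, h0]; simp
  · intro p _; rfl

/-- passing to the indices orthogonal to a nonzero vector of the column space reduces the rank
by two -/
theorem rank_drop {ι : Type} [Fintype ι] [DecidableEq ι] (A : ι → ι → ZMod 2)
    (hs : ∀ i j, A i j = A j i) (h0 : ∀ i, A i i = 0) (u : ι → ZMod 2) (hu : u ∈ W A)
    (hu0 : u ≠ 0) :
    finrank (ZMod 2) (W (fun i j : {i // u i = 0} => A i.1 j.1)) + 2 ≤ finrank (ZMod 2) (W A) := by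
  obtain ⟨c, hc⟩ := (Submodule.mem_span_range_iff_exists_fun (ZMod 2)).1 hu
  have huj : ∀ j, u j = ∑ i, c i * A j i := by
    intro j
    rw [← hc]
    simp only [Finset.sum_apply, Pi.smul_apply, smul_eq_mul]
  let φ : (ι → ZMod 2) →ₗ[ZMod 2] ZMod 2 :=
    ∑ j, (c j) • (LinearMap.proj j : (ι → ZMod 2) →ₗ[ZMod 2] ZMod 2)
  have hφ : ∀ v, φ v = ∑ j, c j * v j := by
    intro v
    simp only [φ, LinearMap.sum_apply, LinearMap.smul_apply, LinearMap.proj_apply, smul_eq_mul]
  let π : (ι → ZMod 2) →ₗ[ZMod 2] ({i // u i = 0} → ZMod 2) :=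
    LinearMap.funLeft (ZMod 2) (ZMod 2) Subtype.val
  have hφc : ∀ j, φ (fun i => A i j) = u j := by
    intro j
    rw [hφ, huj]
    exact sum_congr rfl fun i _ => by rw [hs i j]
  let K : Submodule (ZMod 2) (ι → ZMod 2) := W A ⊓ LinearMap.ker φ
  have h1 : W (fun i j : {i // u i = 0} => A i.1 j.1) ≤ Submodule.map π K := by
    unfold W
    rw [Submodule.span_le]
    rintro _ ⟨j, rfl⟩
    refine ⟨fun i => A i j.1, ⟨col_mem A j.1, ?_⟩, ?_⟩
    · change φ _ = 0
      rw [hφc, j.2]
    · funext i; rfl
  have huK : u ∈ K := by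
    refine ⟨hu, ?_⟩
    change φ u = 0
    rw [hφ]
    have : ∀ j, c j * u j = c j * ∑ i, c i * A j i := fun j => by rw [huj j]
    rw [sum_congr rfl fun j _ => this j]
    exact quad_zero A hs h0 c
  have h2 : finrank (ZMod 2) K < finrank (ZMod 2) (W A) := by
    apply Submodule.finrank_lt_finrank_of_lt
    refine lt_of_le_of_ne inf_le_left ?_
    intro h
    apply hu0
    funext j
    have h3 : (fun i => A i j) ∈ K := by rw [h]; exact col_mem A j
    have h4 : φ (fun i => A i j) = 0 := h3.2
    rw [hφc] at h4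
    exact h4
  have h3 : finrank (ZMod 2) (Submodule.map π K) < finrank (ZMod 2) K := by
    let f : K →ₗ[ZMod 2] ({i // u i = 0} → ZMod 2) := π.domRestrict K
    have h4 := f.finrank_range_add_finrank_ker
    have h5 : LinearMap.range f = Submodule.map π K := by
      ext v
      simp only [LinearMap.mem_range, Submodule.mem_map]
      constructor
      · rintro ⟨x, rfl⟩; exact ⟨x.1, x.2, rfl⟩
      · rintro ⟨x, hx, rfl⟩; exact ⟨⟨x, hx⟩, rfl⟩
    rw [h5] at h4
    have h6 : 0 < finrank (ZMod 2) (LinearMap.ker f) := by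
      apply Module.finrank_pos_iff_exists_ne_zero.2
      refine ⟨⟨⟨u, huK⟩, ?_⟩, ?_⟩
      · change π u = 0
        funext i
        exact i.2
      · intro h
        apply hu0
        have h7 := congrArg (fun x : LinearMap.ker f => (x.1.1 : ι → ZMod 2)) h
        exact h7
    omega
  have h4 : finrank (ZMod 2) (W (fun i j : {i // u i = 0} => A i.1 j.1)) ≤
      finrank (ZMod 2) (Submodule.map π K) := Submodule.finrank_mono h1
  omega

theorem arith (q h z N I : ℕ) (hh : 1 ≤ h) (hq : h ≤ 2 * q * q) (hz : z ≤ N)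
    (H : z * ((2 * h - 1) * (q + 1)) + (N - z) * (h - 1 + q) ≤ (2 * h - 1) * ((q + 1) * I)) :
    N + 2 * q * z ≤ (2 * q + 1) * I := by
  obtain ⟨k, rfl⟩ : ∃ k, h = k + 1 := ⟨h - 1, by omega⟩
  obtain ⟨t, rfl⟩ : ∃ t, N = z + t := ⟨N - z, by omega⟩
  have e1 : 2 * (k + 1) - 1 = 2 * k + 1 := by omega
  have e2 : z + t - z = t := by omega
  have e3 : k + 1 - 1 = k := by omega
  rw [e1, e2, e3] at H
  by_contra hcon
  push Not at hcon
  have h1 : (2 * k + 1) * (q + 1) * ((2 * q + 1) * I + 1) ≤
      (2 * k + 1) * (q + 1) * (z + t + 2 * q * z) := Nat.mul_le_mul_left _ hcon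
  have h2 : (2 * q + 1) * (z * ((2 * k + 1) * (q + 1)) + t * (k + q)) ≤
      (2 * q + 1) * ((2 * k + 1) * ((q + 1) * I)) := Nat.mul_le_mul_left _ H
  have h3 : t * ((2 * k + 1) * (q + 1)) ≤ t * ((2 * q + 1) * (k + q)) := by
    apply Nat.mul_le_mul_left
    nlinarith
  nlinarith

open scoped Classical in
theorem card_W {ι : Type} [Fintype ι] [DecidableEq ι] (A : ι → ι → ZMod 2) :
    (univ.filter fun u : ι → ZMod 2 => u ∈ W A).card = 2 ^ finrank (ZMod 2) (W A) := by
  have h := Module.card_eq_pow_finrank (K := ZMod 2) (V := W A)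
  rw [ZMod.card] at h
  rw [← h, Fintype.card_subtype]

open scoped Classical in
theorem card_X {ι : Type} [Fintype ι] [DecidableEq ι] (A : ι → ι → ZMod 2) :
    (univ.filter fun u : ι → ZMod 2 => u ∈ W A ∧ u ≠ 0).card + 1 =
      2 ^ finrank (ZMod 2) (W A) := by
  rw [← card_W A]
  have h : (univ.filter fun u : ι → ZMod 2 => u ∈ W A) =
      insert 0 (univ.filter fun u : ι → ZMod 2 => u ∈ W A ∧ u ≠ 0) := by
    ext u
    simp only [mem_filter, mem_univ, true_and, mem_insert]
    constructor
    · intro h
      by_cases h0 : u = 0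
      · exact Or.inl h0
      · exact Or.inr ⟨h, h0⟩
    · rintro (rfl | h)
      · exact (W A).zero_mem
      · exact h.1
  rw [h, card_insert_of_notMem]
  simp

open scoped Classical in
theorem card_Xi {ι : Type} [Fintype ι] [DecidableEq ι] (A : ι → ι → ZMod 2)
    (i : ι) (hi : ∃ j, A i j ≠ 0) :
    2 * ((univ.filter fun u : ι → ZMod 2 => (u ∈ W A ∧ u ≠ 0) ∧ u i = 0).card + 1) =
      2 ^ finrank (ZMod 2) (W A) := by
  obtain ⟨j, hj⟩ := hi
  have h1 : (univ.filter fun u : ι → ZMod 2 => u ∈ W A ∧ u i = 0) =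
      insert 0 (univ.filter fun u : ι → ZMod 2 => (u ∈ W A ∧ u ≠ 0) ∧ u i = 0) := by
    ext u
    simp only [mem_filter, mem_univ, true_and, mem_insert]
    constructor
    · intro h
      by_cases h0 : u = 0
      · exact Or.inl h0
      · exact Or.inr ⟨⟨h.1, h0⟩, h.2⟩
    · rintro (rfl | h)
      · exact ⟨(W A).zero_mem, rfl⟩
      · exact ⟨h.1.1, h.2⟩
  have h2 : (univ.filter fun u : ι → ZMod 2 => (u ∈ W A ∧ u ≠ 0) ∧ u i = 0).card + 1 =
      (univ.filter fun u : ι → ZMod 2 => u ∈ W A ∧ u i = 0).card := by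
    rw [h1, card_insert_of_notMem]
    simp
  rw [h2, ← card_W A]
  have h3 := Finset.card_filter_add_card_filter_not
    (s := univ.filter fun u : ι → ZMod 2 => u ∈ W A) (fun u => u i = 0)
  rw [filter_filter, filter_filter] at h3
  have h4 : (univ.filter fun u : ι → ZMod 2 => u ∈ W A ∧ ¬ u i = 0).card =
      (univ.filter fun u : ι → ZMod 2 => u ∈ W A ∧ u i = 0).card := by
    have hv : A i j = 1 := by
      revert hj
      generalize A i j = a
      revert a
      decide
    refine card_bij' (fun u _ => u + fun k => A k j) (fun u _ => u + fun k => A k j) ?_ ?_ ?_ ?_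
    · intro u hu
      simp only [mem_filter, mem_univ, true_and] at hu ⊢
      refine ⟨(W A).add_mem hu.1 (col_mem A j), ?_⟩
      have h5 := hu.2
      simp only [Pi.add_apply, hv]
      revert h5
      generalize u i = a
      revert a
      decide
    · intro u hu
      simp only [mem_filter, mem_univ, true_and] at hu ⊢
      refine ⟨(W A).add_mem hu.1 (col_mem A j), ?_⟩
      have h5 := hu.2
      simp only [Pi.add_apply, hv]
      revert h5
      generalize u i = a
      revert a
      decide
    · intro u _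
      funext k
      simp only [Pi.add_apply]
      rw [add_assoc, CharTwo.add_self_eq_zero, add_zero]
    · intro u _
      funext k
      simp only [Pi.add_apply]
      rw [add_assoc, CharTwo.add_self_eq_zero, add_zero]
  omega

open scoped Classical in
theorem big_indep (m : ℕ) : ∀ (ι : Type) [Fintype ι] [DecidableEq ι] (A : ι → ι → ZMod 2),
    (∀ i j, A i j = A j i) → (∀ i, A i i = 0) → finrank (ZMod 2) (W A) ≤ 2 * m →
    ∃ I : Finset ι, (∀ i ∈ I, ∀ j ∈ I, A i j = 0) ∧
      Fintype.card ι + 2 ^ m * (univ.filter fun i => ∀ j, A i j = 0).card ≤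
        (2 ^ m + 1) * I.card := by
  induction m with
  | zero =>
    intro ι _ _ A _ _ hr
    have hz : ∀ i j, A i j = 0 := by
      intro i j
      have h1 : W A = ⊥ := Submodule.finrank_eq_zero.1 (by omega)
      have h2 := col_mem A j
      rw [h1, Submodule.mem_bot] at h2
      exact congrFun h2 i
    refine ⟨univ, fun i _ j _ => hz i j, ?_⟩
    have h3 : (univ.filter fun i => ∀ j, A i j = 0) = univ :=
      filter_true_of_mem fun i _ j => hz i j
    rw [h3, card_univ]
    ring_nf
    exact le_rfl
  | succ m IH =>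
    intro ι _ _ A hs h0 hr
    by_cases hr0 : finrank (ZMod 2) (W A) = 0
    · have hz : ∀ i j, A i j = 0 := by
        intro i j
        have h1 : W A = ⊥ := Submodule.finrank_eq_zero.1 hr0
        have h2 := col_mem A j
        rw [h1, Submodule.mem_bot] at h2
        exact congrFun h2 i
      refine ⟨univ, fun i _ j _ => hz i j, ?_⟩
      have h3 : (univ.filter fun i => ∀ j, A i j = 0) = univ :=
        filter_true_of_mem fun i _ j => hz i j
      rw [h3, card_univ]
      ring_nf
      exact le_rfl
    set X := univ.filter fun u : ι → ZMod 2 => u ∈ W A ∧ u ≠ 0 with hX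
    obtain ⟨s, hrs⟩ : ∃ s, finrank (ZMod 2) (W A) = s + 1 := ⟨finrank (ZMod 2) (W A) - 1, by omega⟩
    set h : ℕ := 2 ^ s with hh
    have hh1 : 1 ≤ h := Nat.one_le_two_pow
    have h2h : 2 ^ finrank (ZMod 2) (W A) = 2 * h := by rw [hrs, pow_succ, hh]; ring
    have hXc : X.card = 2 * h - 1 := by
      have h6 : X.card + 1 = 2 * h := by
        rw [← h2h, hX]
        convert card_X A
      omega
    set q : ℕ := 2 ^ m with hq
    have hhq : h ≤ 2 * q * q := by
      have : h ≤ 2 ^ (2 * m + 1) := Nat.pow_le_pow_right (by norm_num) (by omega)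
      calc h ≤ 2 ^ (2 * m + 1) := this
        _ = 2 * q * q := by rw [hq]; ring
    set f : (ι → ZMod 2) → ℕ := fun u => (univ.filter fun i => u i = 0).card +
      q * (univ.filter fun i => u i = 0 ∧ ∀ j, u j = 0 → A i j = 0).card with hf
    set z := (univ.filter fun i => ∀ j, A i j = 0).card with hz
    set N := Fintype.card ι with hN
    have hzN : z ≤ N := by rw [hz, hN, ← card_univ]; exact card_le_card (filter_subset _ _)
    have hsum : z * ((2 * h - 1) * (q + 1)) + (N - z) * (h - 1 + q) ≤ ∑ u ∈ X, f u := by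
      have e1 : ∑ u ∈ X, f u = ∑ i : ι, ((X.filter fun u => u i = 0).card +
          q * (X.filter fun u => u i = 0 ∧ ∀ j, u j = 0 → A i j = 0).card) := by
        simp only [hf, card_filter, mul_sum, sum_add_distrib]
        congr 1
        · exact sum_comm
        · rw [sum_comm]
      have e2 : z * ((2 * h - 1) * (q + 1)) + (N - z) * (h - 1 + q) =
          ∑ i : ι, if (∀ j, A i j = 0) then (2 * h - 1) * (q + 1) else (h - 1 + q) := by
        rw [sum_ite, sum_const, sum_const, smul_eq_mul, smul_eq_mul]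
        congr 2
        have := Finset.card_filter_add_card_filter_not (s := (univ : Finset ι))
          (fun i => ∀ j, A i j = 0)
        rw [card_univ] at this
        omega
      rw [e1, e2]
      refine sum_le_sum fun i _ => ?_
      split_ifs with hi
      · have a1 : X.filter (fun u => u i = 0) = X := by
          refine filter_true_of_mem fun u hu => ?_
          rw [hX, mem_filter] at hu
          have h5 : W A ≤ LinearMap.ker (LinearMap.proj i : (ι → ZMod 2) →ₗ[ZMod 2] ZMod 2) := by
            unfold W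
            rw [Submodule.span_le]
            rintro _ ⟨j, rfl⟩
            exact hi j
          exact h5 hu.2.1
        have a2 : X.filter (fun u => u i = 0 ∧ ∀ j, u j = 0 → A i j = 0) = X := by
          refine filter_true_of_mem fun u hu => ⟨?_, fun j _ => hi j⟩
          have : u ∈ X.filter (fun u => u i = 0) := by rw [a1]; exact hu
          exact (mem_filter.1 this).2
        rw [a1, a2, hXc]
        exact le_of_eq (by ring)
      · push Not at hi
        have a1 : (X.filter fun u => u i = 0).card = h - 1 := by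
          have h6 := card_Xi A i hi
          have h7 : (univ.filter fun u : ι → ZMod 2 => (u ∈ W A ∧ u ≠ 0) ∧ u i = 0) =
              X.filter fun u => u i = 0 := by
            rw [hX, filter_filter]
          rw [h2h, h7] at h6
          omega
        have a2 : 1 ≤ (X.filter fun u => u i = 0 ∧ ∀ j, u j = 0 → A i j = 0).card := by
          rw [Nat.one_le_iff_ne_zero, ← Nat.pos_iff_ne_zero, card_pos]
          refine ⟨fun k => A k i, ?_⟩
          rw [mem_filter, hX, mem_filter]
          refine ⟨⟨mem_univ _, col_mem A i, ?_⟩, h0 i, fun j hj => ?_⟩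
          · intro h6
            obtain ⟨j, hj⟩ := hi
            apply hj
            rw [hs i j]
            exact congrFun h6 j
          · rw [hs i j]; exact hj
        rw [a1]
        have : q * 1 ≤ q * (X.filter fun u => u i = 0 ∧ ∀ j, u j = 0 → A i j = 0).card :=
          Nat.mul_le_mul_left _ a2
        omega
    -- choose u
    obtain ⟨u, huX, hu⟩ : ∃ u ∈ X, z * ((2 * h - 1) * (q + 1)) + (N - z) * (h - 1 + q) ≤
        (2 * h - 1) * f u := by
      apply Finset.exists_le_of_sum_le
      · rw [← card_pos, hXc]; omega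
      · rw [sum_const, smul_eq_mul, hXc, ← mul_sum]
        exact Nat.mul_le_mul_left _ hsum
    rw [hX, mem_filter] at huX
    have hdrop := rank_drop A hs h0 u huX.2.1 huX.2.2
    obtain ⟨I, hI, hIc⟩ := IH {i // u i = 0} (fun i j => A i.1 j.1) (fun i j => hs _ _)
      (fun i => h0 _) (by omega)
    refine ⟨I.map (Function.Embedding.subtype _), ?_, ?_⟩
    · intro i hi j hj
      rw [mem_map] at hi hj
      obtain ⟨i', hi', rfl⟩ := hi
      obtain ⟨j', hj', rfl⟩ := hj
      exact hI i' hi' j' hj'
    · rw [card_map]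
      have c1 : Fintype.card {i // u i = 0} = (univ.filter fun i => u i = 0).card :=
        Fintype.card_subtype _
      have c2 : (univ.filter fun i : {i // u i = 0} => ∀ j : {i // u i = 0}, A i.1 j.1 = 0).card =
          (univ.filter fun i => u i = 0 ∧ ∀ j, u j = 0 → A i j = 0).card := by
        rw [← card_map (Function.Embedding.subtype _)]
        congr 1
        ext i
        simp only [mem_map, mem_filter, mem_univ, true_and, Function.Embedding.coe_subtype]
        constructor
        · rintro ⟨i', h7, rfl⟩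
          exact ⟨i'.2, fun j hj => h7 ⟨j, hj⟩⟩
        · rintro ⟨h7, h8⟩
          exact ⟨⟨i, h7⟩, fun j => h8 j.1 j.2, rfl⟩
      rw [c1, c2] at hIc
      have hfu : f u ≤ (q + 1) * I.card := hIc
      have h9 := arith q h z N I.card hh1 hhq hzN (hu.trans (Nat.mul_le_mul_left _ hfu))
      have e3 : 2 ^ (m + 1) = 2 * q := by rw [hq, pow_succ]; ring
      rw [e3]
      exact h9

/-- A graph whose adjacency matrix has rank at most `2 m` over `F_2` and which has no independent
set of size `k` has at most `(k - 1) (2 ^ m + 1)` vertices. -/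
theorem upper (n k m : ℕ) (hk : 1 ≤ k) (G : SimpleGraph (Fin n)) [DecidableRel G.Adj]
    (hr : (G.adjMatrix (ZMod 2)).rank ≤ 2 * m) (hG : Gᶜ.CliqueFree k) :
    n ≤ (k - 1) * (2 ^ m + 1) := by
  classical
  have h1 : finrank (ZMod 2) (W (fun i j => G.adjMatrix (ZMod 2) i j)) ≤ 2 * m := by
    rw [Matrix.rank_eq_finrank_span_cols] at hr
    exact hr
  obtain ⟨I, hI, hc⟩ := big_indep m (Fin n) (fun i j => G.adjMatrix (ZMod 2) i j)
    (fun i j => by simp only [SimpleGraph.adjMatrix_apply, G.adj_comm])
    (fun i => by simp) h1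
  have h2 : I.card ≤ k - 1 := by
    by_contra hcon
    push Not at hcon
    obtain ⟨J, hJ, hJc⟩ := exists_subset_card_eq (show k ≤ I.card by omega)
    apply hG J
    rw [SimpleGraph.isNClique_iff]
    refine ⟨?_, hJc⟩
    intro a ha b hb hab
    rw [SimpleGraph.compl_adj]
    refine ⟨hab, fun h => ?_⟩
    have := hI a (hJ ha) b (hJ hb)
    rw [SimpleGraph.adjMatrix_apply, if_pos h] at this
    exact one_ne_zero this
  rw [Fintype.card_fin] at hc
  calc n ≤ (2 ^ m + 1) * I.card := le_trans (Nat.le_add_right _ _) hc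
    _ ≤ (2 ^ m + 1) * (k - 1) := Nat.mul_le_mul_left _ h2
    _ = (k - 1) * (2 ^ m + 1) := mul_comm _ _

end Pool.Agent.X46.Rk
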